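import Pool.Agent.T6.H77.RK.Stm

/-!
# Points on conics (module COTW, helper38)
-/

set_option autoImplicit false

namespace Pool.Agent.T6.H77.RK.COTW

/-- the bilinear form of a matrix -/
def bl {k : Type} [Field k] (D : Matrix (Fin 3) (Fin 3) k) (x z : Fin 3 → k) : k :=
  ∑ a, ∑ b, D a b * x a * z b

theorem pl_eq {k : Type} [Field k] (m n : Fin 3 → Fin 3 → Fin 3 → k) (y x z : Fin 3 → k) :
    pl m n y x z = bl (dm m n y) x z := by
  simp only [pl, bl, dm, bq, Matrix.of_apply, Fin.sum_univ_three]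
  generalize (∑ a, ∑ b, n 0 a b * y a * y b) = Q0
  ring

theorem fm_eq {k : Type} [Field k] (m n : Fin 3 → Fin 3 → Fin 3 → k) (x y : Fin 3 → k) :
    fm m n x y = bl (dm m n y) x x := pl_eq m n y x x

theorem dm_symm {k : Type} [Field k] (m n : Fin 3 → Fin 3 → Fin 3 → k)
    (hm : ∀ i a b, m i a b = m i b a) (y : Fin 3 → k) (a b : Fin 3) :
    dm m n y a b = dm m n y b a := by
  simp only [dm, Matrix.of_apply]
  exact Finset.sum_congr rfl fun i _ => by rw [hm i a b]

theorem bl_add {k : Type} [Field k] (D : Matrix (Fin 3) (Fin 3) k) (x z w : Fin 3 → k) :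
    bl D x (z + w) = bl D x z + bl D x w := by
  simp only [bl, Fin.sum_univ_three, Pi.add_apply]
  ring

theorem bl_add_left {k : Type} [Field k] (D : Matrix (Fin 3) (Fin 3) k) (x z w : Fin 3 → k) :
    bl D (z + w) x = bl D z x + bl D w x := by
  simp only [bl, Fin.sum_univ_three, Pi.add_apply]
  ring

theorem bl_smul {k : Type} [Field k] (D : Matrix (Fin 3) (Fin 3) k) (c : k) (x z : Fin 3 → k) :
    bl D x (c • z) = c * bl D x z := by
  simp only [bl, Fin.sum_univ_three, Pi.smul_apply, smul_eq_mul]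
  ring

theorem bl_smul_left {k : Type} [Field k] (D : Matrix (Fin 3) (Fin 3) k) (c : k)
    (x z : Fin 3 → k) : bl D (c • x) z = c * bl D x z := by
  simp only [bl, Fin.sum_univ_three, Pi.smul_apply, smul_eq_mul]
  ring

theorem bl_symm {k : Type} [Field k] (D : Matrix (Fin 3) (Fin 3) k)
    (hD : ∀ a b, D a b = D b a) (x z : Fin 3 → k) : bl D x z = bl D z x := by
  simp only [bl, Fin.sum_univ_three]
  rw [hD 1 0, hD 2 0, hD 2 1]
  ring

theorem sum_three {k : Type} [Field k] (a j c : Fin 3) (h1 : j ≠ a) (h2 : c ≠ a) (h3 : c ≠ j)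
    (f : Fin 3 → k) : ∑ i, f i = f a + f j + f c := by
  rw [Fin.sum_univ_three]
  fin_cases a <;> fin_cases j <;> fin_cases c <;> first
    | exact absurd rfl h1
    | exact absurd rfl h2
    | exact absurd rfl h3
    | (simp; try ring)

theorem third (a j : Fin 3) (h : j ≠ a) : ∃ c : Fin 3, c ≠ a ∧ c ≠ j := by
  revert a j
  decide

/-- the linear form `bl D x` -/
theorem bl_lin {k : Type} [Field k] (D : Matrix (Fin 3) (Fin 3) k) (x z : Fin 3 → k) :
    bl D x z = ∑ b, (∑ a, D a b * x a) * z b := by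
  simp only [bl, Fin.sum_univ_three]
  ring

theorem co_aux {k : Type} [Field k] [Fintype k] (D : Matrix (Fin 3) (Fin 3) k)
    (hD : ∀ a b, D a b = D b a) (h2 : (2 : k) ≠ 0) (x : Fin 3 → k) (hx : bl D x x = 0)
    (hl : ∃ x', bl D x x' ≠ 0) :
    Fintype.card k ^ 2 ≤ {x' | bl D x' x' = 0 ∧ bl D x x' ≠ 0}.ncard + Fintype.card k := by
  classical
  set l : Fin 3 → k := fun b => ∑ a, D a b * x a with hldef
  have hlin : ∀ z, bl D x z = ∑ b, l b * z b := fun z => bl_lin D x z
  have hx0 : ∃ a, x a ≠ 0 := by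
    by_contra hcon
    push Not at hcon
    obtain ⟨x', hx'⟩ := hl
    apply hx'
    simp [bl, hcon]
  obtain ⟨a, ha⟩ := hx0
  have hj : ∃ j, j ≠ a ∧ l j ≠ 0 := by
    by_contra hcon
    push Not at hcon
    have h3 : ∑ b, l b * x b = l a * x a := by
      refine Finset.sum_eq_single a (fun b _ hb => ?_) (fun h => absurd (Finset.mem_univ a) h)
      rw [hcon b hb, zero_mul]
    rw [hlin, h3] at hx
    have hla : l a = 0 := by
      rcases mul_eq_zero.mp hx with h | h
      · exact h
      · exact absurd h ha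
    obtain ⟨x', hx'⟩ := hl
    apply hx'
    rw [hlin]
    refine Finset.sum_eq_zero fun b _ => ?_
    by_cases hb : b = a
    · rw [hb, hla, zero_mul]
    · rw [hcon b hb, zero_mul]
  obtain ⟨j, hja, hlj⟩ := hj
  obtain ⟨c, hca, hcj⟩ := third a j hja
  -- the parametrization
  set u : k → k → Fin 3 → k := fun s r i =>
    if i = a then 0 else if i = j then (s - l c * r) / l j else r with hu
  have ua : ∀ s r, u s r a = 0 := fun s r => by simp [hu]
  have uj : ∀ s r, u s r j = (s - l c * r) / l j := fun s r => by simp [hu, hja]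
  have uc : ∀ s r, u s r c = r := fun s r => by simp [hu, hca, hcj]
  have lu : ∀ s r, bl D x (u s r) = s := by
    intro s r
    rw [hlin, sum_three a j c hja hca hcj, ua, uj, uc]
    field_simp
    ring
  set φ : k × k → Fin 3 → k := fun p =>
    u p.1 p.2 + (-(bl D (u p.1 p.2) (u p.1 p.2) / (2 * p.1))) • x with hφ
  have hcard : (Finset.univ.filter fun p : k × k => p.1 ≠ 0).card + Fintype.card k =
      Fintype.card k ^ 2 := by
    have e1 : (Finset.univ.filter fun p : k × k => p.1 ≠ 0) =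
        (Finset.univ.erase (0 : k)) ×ˢ (Finset.univ : Finset k) := by
      ext p
      simp
    rw [e1, Finset.card_product, Finset.card_erase_of_mem (Finset.mem_univ _), Finset.card_univ]
    have hq : 0 < Fintype.card k := Fintype.card_pos
    obtain ⟨q, hq'⟩ : ∃ q, Fintype.card k = q + 1 := ⟨_, (Nat.succ_pred_eq_of_pos hq).symm⟩
    rw [hq']
    simp
    ring
  rw [← hcard, Set.ncard_eq_toFinset_card']
  refine Nat.add_le_add_right ?_ _
  refine Finset.card_le_card_of_injOn φ ?_ ?_
  · intro p hp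
    have hp0 : p.1 ≠ 0 := by simpa using hp
    have hb : bl D x (φ p) = p.1 := by
      rw [hφ]
      simp only
      rw [bl_add, bl_smul, hx, lu]
      ring
    have hf : bl D (φ p) (φ p) = 0 := by
      have hxu : bl D (u p.1 p.2) x = p.1 := by rw [bl_symm D hD, lu]
      simp only [hφ]
      rw [bl_add, bl_smul, bl_add_left, bl_smul_left, bl_add_left, bl_smul_left, hx, lu, hxu]
      field_simp
      ring
    simp only [Finset.mem_coe, Set.mem_toFinset, Set.mem_ofPred_eq]
    exact ⟨hf, by rw [hb]; exact hp0⟩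
  · intro p hp p' hp' hpp
    have hp0 : p.1 ≠ 0 := by simpa using hp
    have hp0' : p'.1 ≠ 0 := by simpa using hp'
    have e1 := congrFun hpp a
    simp only [hφ, Pi.add_apply, Pi.smul_apply, smul_eq_mul, ua, zero_add] at e1
    have e2 := mul_right_cancel₀ ha e1
    have e3 : u p.1 p.2 = u p'.1 p'.2 := by
      have e4 : φ p = φ p' := hpp
      simp only [hφ] at e4
      rw [e2] at e4
      exact add_right_cancel e4
    have e5 := lu p.1 p.2
    rw [e3, lu] at e5
    have e6 := congrFun e3 c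
    rw [uc, uc] at e6
    exact Prod.ext e5.symm e6

theorem nd {k : Type} [Field k] (D : Matrix (Fin 3) (Fin 3) k) (hdet : D.det ≠ 0)
    (x : Fin 3 → k) (hx : x ≠ 0) : ∃ v, bl D x v ≠ 0 := by
  by_contra hcon
  push Not at hcon
  apply hx
  refine Matrix.eq_zero_of_vecMul_eq_zero hdet ?_
  ext b
  have h := hcon (Pi.single b 1)
  rw [bl_lin] at h
  have h1 : ∑ c, (∑ a, D a c * x a) * (Pi.single b 1 : Fin 3 → k) c = ∑ a, D a b * x a := by
    rw [Finset.sum_eq_single b]
    · rw [Pi.single_eq_same, mul_one]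
    · intro c _ hc
      rw [Pi.single_eq_of_ne hc, mul_zero]
    · intro h
      exact absurd (Finset.mem_univ b) h
  rw [h1] at h
  simp only [Matrix.vecMul, dotProduct, Pi.zero_apply]
  rw [← h]
  exact Finset.sum_congr rfl fun i _ => mul_comm _ _

/-- the vector `D x` -/
def dv {k : Type} [Field k] (D : Matrix (Fin 3) (Fin 3) k) (x : Fin 3 → k) : Fin 3 → k :=
  fun i => ∑ a, D i a * x a

/-- the cross product -/
def cr {k : Type} [Field k] (x y : Fin 3 → k) : Fin 3 → k :=
  ![x 1 * y 2 - x 2 * y 1, x 2 * y 0 - x 0 * y 2, x 0 * y 1 - x 1 * y 0]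

theorem bl_cr_left {k : Type} [Field k] (D : Matrix (Fin 3) (Fin 3) k)
    (hD : ∀ a b, D a b = D b a) (x z : Fin 3 → k) : bl D x (cr (dv D x) (dv D z)) = 0 := by
  simp only [bl, cr, dv, Fin.sum_univ_three, Matrix.cons_val_zero, Matrix.cons_val_one,
    Matrix.cons_val]
  rw [hD 1 0, hD 2 0, hD 2 1]
  ring

theorem bl_cr_right {k : Type} [Field k] (D : Matrix (Fin 3) (Fin 3) k)
    (hD : ∀ a b, D a b = D b a) (x z : Fin 3 → k) : bl D z (cr (dv D x) (dv D z)) = 0 := by
  simp only [bl, cr, dv, Fin.sum_univ_three, Matrix.cons_val_zero, Matrix.cons_val_one,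
    Matrix.cons_val]
  rw [hD 1 0, hD 2 0, hD 2 1]
  ring

theorem bl_cr_self {k : Type} [Field k] (D : Matrix (Fin 3) (Fin 3) k)
    (hD : ∀ a b, D a b = D b a) (x z : Fin 3 → k) :
    bl D (cr (dv D x) (dv D z)) (cr (dv D x) (dv D z)) =
      D.det * (bl D x x * bl D z z - bl D x z ^ 2) := by
  simp only [bl, cr, dv, Fin.sum_univ_three, Matrix.cons_val_zero, Matrix.cons_val_one,
    Matrix.cons_val, Matrix.det_fin_three]
  rw [hD 1 0, hD 2 0, hD 2 1]
  ring

theorem tw_aux {k : Type} [Field k] (D : Matrix (Fin 3) (Fin 3) k)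
    (hD : ∀ a b, D a b = D b a) (h2 : (2 : k) ≠ 0) (hdet : D.det ≠ 0) (x z : Fin 3 → k)
    (hx : x ≠ 0) (hz : z ≠ 0) (hxx : bl D x x = 0) (hzz : bl D z z = 0) :
    ∃ u, bl D u u = 0 ∧ bl D x u ≠ 0 ∧ bl D z u ≠ 0 := by
  by_cases hxz : bl D x z = 0
  · -- a vector not orthogonal to both
    have hv : ∃ v, bl D x v ≠ 0 ∧ bl D z v ≠ 0 := by
      obtain ⟨v1, hv1⟩ := nd D hdet x hx
      obtain ⟨v2, hv2⟩ := nd D hdet z hz
      by_cases h1 : bl D z v1 = 0
      · by_cases h3 : bl D x v2 = 0
        · refine ⟨v1 + v2, ?_, ?_⟩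
          · rw [bl_add, h3, add_zero]; exact hv1
          · rw [bl_add, h1, zero_add]; exact hv2
        · exact ⟨v2, h3, hv2⟩
      · exact ⟨v1, hv1, h1⟩
    obtain ⟨v, hxv, hzv⟩ := hv
    have hzx : bl D z x = 0 := by rw [bl_symm D hD, hxz]
    have hvx : bl D v x = bl D x v := bl_symm D hD v x
    refine ⟨bl D v v • x + (-2 * bl D x v) • v, ?_, ?_, ?_⟩
    · rw [bl_add, bl_smul, bl_smul, bl_add_left, bl_add_left, bl_smul_left, bl_smul_left,
        bl_smul_left, bl_smul_left, hxx, hvx]
      ring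
    · rw [bl_add, bl_smul, bl_smul, hxx]
      intro h
      have h5 : -2 * (bl D x v * bl D x v) = 0 := by
        rw [← h]; ring
      rcases mul_eq_zero.mp h5 with h6 | h6
      · exact h2 (by simpa using h6)
      · rcases mul_eq_zero.mp h6 with h7 | h7 <;> exact hxv h7
    · rw [bl_add, bl_smul, bl_smul, hzx]
      intro h
      have h5 : -2 * (bl D x v * bl D z v) = 0 := by
        rw [← h]; ring
      rcases mul_eq_zero.mp h5 with h6 | h6
      · exact h2 (by simpa using h6)
      · rcases mul_eq_zero.mp h6 with h7 | h7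
        · exact hxv h7
        · exact hzv h7
  · set e : Fin 3 → k := cr (dv D x) (dv D z) with he
    have hxe : bl D x e = 0 := bl_cr_left D hD x z
    have hze : bl D z e = 0 := bl_cr_right D hD x z
    have hex : bl D e x = 0 := by rw [bl_symm D hD, hxe]
    have hez : bl D e z = 0 := by rw [bl_symm D hD, hze]
    have hzx : bl D z x = bl D x z := bl_symm D hD z x
    have hee : bl D e e ≠ 0 := by
      rw [he, bl_cr_self D hD, hxx, hzz]
      simp [hdet, hxz]
    refine ⟨x + (-(bl D e e) / (2 * bl D x z)) • z + e, ?_, ?_, ?_⟩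
    · simp only [bl_add, bl_smul, bl_add_left, bl_smul_left, hxx, hzz, hxe, hze, hex, hez, hzx]
      field_simp
      ring
    · rw [bl_add, bl_add, bl_smul, hxx, hxe]
      field_simp
      simpa [h2] using hee
    · rw [bl_add, bl_add, bl_smul, hzz, hze, hzx]
      simpa using hxz

end Pool.Agent.T6.H77.RK.COTW

namespace Pool.Agent.T6.H77.RK

open COTW

/-- CO: points on a conic outside the tangent line at one of them -/
theorem co : StmCO := by
  intro k _ _ m n h2 hm x y hxy hl
  simp only [pl_eq, fm_eq] at hxy hl ⊢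
  exact co_aux (dm m n y) (dm_symm m n hm y) h2 x hxy hl

/-- TW: two points of a smooth conic are joined by exactly two moves -/
theorem tw : StmTW := by
  intro k _ m n h2 hm y hdet x z hx hz hxy hzy
  simp only [pl_eq, fm_eq] at hxy hzy ⊢
  exact tw_aux (dm m n y) (dm_symm m n hm y) h2 hdet x z hx hz hxy hzy

end Pool.Agent.T6.H77.RK
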