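import Pool.Agent.T6.H77.RK.Stm

/-!
# Zeros of the Jacobian determinant and of the discriminant (module ZJD, helper38)
-/

set_option autoImplicit false

namespace Pool.Agent.T6.H77.RK.ZJD

open Polynomial

theorem cnt {k : Type} [Field k] [Fintype k] (Z : Set (Fin 3 → k)) (x0 : Fin 3 → k) (d : ℕ)
    (h : ∀ z, ∃ p : Polynomial k, p ≠ 0 ∧ p.natDegree ≤ d ∧ ∀ t, z + t • x0 ∈ Z → p.eval t = 0) :
    Z.ncard ≤ d * Fintype.card k ^ 2 := by
  classical
  have hq : 0 < Fintype.card k := Fintype.card_pos
  set Zf : Finset (Fin 3 → k) := Z.toFinset with hZf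
  have hZ : Z.ncard = Zf.card := Set.ncard_eq_toFinset_card' Z
  set P : Finset ((Fin 3 → k) × k) := Finset.univ.filter fun p => p.1 + p.2 • x0 ∈ Zf with hP
  have h1 : P.card ≤ Fintype.card k ^ 3 * d := by
    have e1 : P.card = ∑ z : Fin 3 → k, (Finset.univ.filter fun t : k => z + t • x0 ∈ Zf).card := by
      rw [hP, Finset.card_filter, Fintype.sum_prod_type]
      refine Finset.sum_congr rfl fun z _ => ?_
      rw [Finset.card_filter]
    rw [e1]
    calc _ ≤ ∑ _z : Fin 3 → k, d := by
          refine Finset.sum_le_sum fun z _ => ?_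
          obtain ⟨p, hp0, hpd, hp⟩ := h z
          calc _ ≤ p.roots.toFinset.card := by
                refine Finset.card_le_card ?_
                intro t ht
                rw [Finset.mem_filter] at ht
                rw [Multiset.mem_toFinset, Polynomial.mem_roots hp0]
                exact hp t (by simpa [hZf] using ht.2)
            _ ≤ Multiset.card p.roots := Multiset.toFinset_card_le _
            _ ≤ p.natDegree := Polynomial.card_roots' p
            _ ≤ d := hpd
      _ = _ := by simp
  have h2 : Zf.card * Fintype.card k ≤ P.card := by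
    rw [← Finset.card_univ (α := k), ← Finset.card_product]
    refine Finset.card_le_card_of_injOn (fun p => (p.1 - p.2 • x0, p.2)) ?_ ?_
    · intro p hp
      simp only [Finset.coe_product, Set.mem_prod, Finset.mem_coe] at hp
      simp only [hP, Finset.mem_coe, Finset.mem_filter, Finset.mem_univ, true_and]
      rw [sub_add_cancel]
      exact hp.1
    · intro p _ p' _ hpp
      simp only [Prod.mk.injEq] at hpp
      obtain ⟨e1, e2⟩ := hpp
      rw [e2] at e1
      exact Prod.ext (sub_left_injective e1) e2
  rw [hZ]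
  have h3 : Zf.card * Fintype.card k ≤ d * Fintype.card k ^ 2 * Fintype.card k := by
    calc _ ≤ _ := h2
      _ ≤ _ := h1
      _ = _ := by ring
  exact Nat.le_of_mul_le_mul_right h3 hq

theorem deg_det {k : Type} [Field k] (n : ℕ) (M : Matrix (Fin 3) (Fin 3) (Polynomial k))
    (h : ∀ i j, (M i j).natDegree ≤ n) : M.det.natDegree ≤ 3 * n ∧
    M.det.coeff (3 * n) = (Matrix.of fun i j => (M i j).coeff n).det := by
  constructor
  · rw [Matrix.det_apply']
    refine Polynomial.natDegree_sum_le_of_forall_le _ _ ?_
    intro σ _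
    refine Polynomial.natDegree_mul_le.trans ?_
    rw [Polynomial.natDegree_intCast, zero_add]
    refine (Polynomial.natDegree_prod_le _ _).trans ?_
    calc _ ≤ ∑ i : Fin 3, n := Finset.sum_le_sum fun i _ => h _ _
      _ = 3 * n := by simp
  · rw [Matrix.det_apply', Matrix.det_apply', Polynomial.finsetSum_coeff]
    refine Finset.sum_congr rfl fun σ _ => ?_
    rw [Polynomial.coeff_intCast_mul]
    congr 1
    have := Polynomial.coeff_prod_of_natDegree_le (s := Finset.univ)
      (fun i => M (σ i) i) n (fun p _ => h _ _)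
    simpa using this

theorem quad_deg {k : Type} [Field k] (a b c : k) :
    (C c * X ^ 2 + C b * X + C a : Polynomial k).natDegree ≤ 2 := by
  compute_degree

theorem quad_coeff {k : Type} [Field k] (a b c : k) :
    (C c * X ^ 2 + C b * X + C a : Polynomial k).coeff 2 = c := by
  simp

theorem lin_deg {k : Type} [Field k] (a b : k) :
    (C b * X + C a : Polynomial k).natDegree ≤ 1 := by
  compute_degree

theorem lin_coeff {k : Type} [Field k] (a b : k) :
    (C b * X + C a : Polynomial k).coeff 1 = b := by
  simp [Polynomial.coeff_C]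

end Pool.Agent.T6.H77.RK.ZJD

namespace Pool.Agent.T6.H77.RK

open Polynomial ZJD

/-- ZJ: zeros of the Jacobian determinant -/
theorem zj : StmZJ := by
  intro k _ _ m ⟨x0, hx0⟩
  refine cnt _ x0 3 fun z => ?_
  set M : Matrix (Fin 3) (Fin 3) (Polynomial k) :=
    Matrix.of fun i b => C (jm m x0 i b) * X + C (jm m z i b) with hM
  have hd : ∀ i j, (M i j).natDegree ≤ 1 := fun i j => lin_deg _ _
  obtain ⟨h1, h2⟩ := deg_det 1 M hd
  have h3 : (Matrix.of fun i j => (M i j).coeff 1) = jm m x0 := by
    ext i j
    exact lin_coeff _ _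
  rw [h3] at h2
  refine ⟨M.det, ?_, by simpa using h1, ?_⟩
  · intro h0
    rw [h0] at h2
    exact hx0 (by simpa using h2.symm)
  · intro t ht
    have h4 : (evalRingHom t) M.det = (jm m (z + t • x0)).det := by
      rw [RingHom.map_det]
      congr 1
      ext i j
      simp only [hM, RingHom.mapMatrix_apply, Matrix.map_apply, Matrix.of_apply, jm,
        coe_evalRingHom, eval_add, eval_mul, eval_C, eval_X, Fin.sum_univ_three, Pi.add_apply,
        Pi.smul_apply, smul_eq_mul]
      ring
    rw [Set.mem_ofPred_eq] at ht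
    rw [ht] at h4
    simpa using h4

/-- ZD: zeros of the discriminant -/
theorem zd : StmZD := by
  intro k _ _ m n ⟨y0, hy0⟩
  refine cnt _ y0 6 fun z => ?_
  set M : Matrix (Fin 3) (Fin 3) (Polynomial k) :=
    Matrix.of fun a b => C (dm m n y0 a b) * X ^ 2 +
      C (∑ i, m i a b * (bq n z y0 i + bq n y0 z i)) * X + C (dm m n z a b) with hM
  have hd : ∀ i j, (M i j).natDegree ≤ 2 := fun i j => quad_deg _ _ _
  obtain ⟨h1, h2⟩ := deg_det 2 M hd
  have h3 : (Matrix.of fun i j => (M i j).coeff 2) = dm m n y0 := by
    ext i j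
    exact quad_coeff _ _ _
  rw [h3] at h2
  refine ⟨M.det, ?_, by simpa using h1, ?_⟩
  · intro h0
    rw [h0] at h2
    exact hy0 (by simpa using h2.symm)
  · intro t ht
    have hb : ∀ i, bq n (z + t • y0) (z + t • y0) i =
        bq n y0 y0 i * t ^ 2 + (bq n z y0 i + bq n y0 z i) * t + bq n z z i := by
      intro i
      simp only [bq, Fin.sum_univ_three, Pi.add_apply, Pi.smul_apply, smul_eq_mul]
      ring
    have h4 : (evalRingHom t) M.det = (dm m n (z + t • y0)).det := by
      rw [RingHom.map_det]
      congr 1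
      ext i j
      simp only [hM, RingHom.mapMatrix_apply, Matrix.map_apply, Matrix.of_apply, dm,
        coe_evalRingHom, eval_add, eval_mul, eval_C, eval_X, eval_pow, Fin.sum_univ_three, hb]
      ring
    rw [Set.mem_ofPred_eq] at ht
    rw [ht] at h4
    simpa using h4

end Pool.Agent.T6.H77.RK
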