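import Pool.Agent.T6.H77.RK.Stm

/-!
# HEN: Hensel's lemma for three quadratic equations
-/

set_option autoImplicit false

namespace Pool.Agent.T6.H77.RK

namespace HEN

variable {L : Type} [NontriviallyNormedField L] [IsUltrametricDist L]

theorem le_add {a b : L} {r : ℝ} (ha : ‖a‖ ≤ r) (hb : ‖b‖ ≤ r) : ‖a + b‖ ≤ r :=
  (IsUltrametricDist.norm_add_le_max a b).trans (max_le ha hb)

theorem le_neg {a : L} {r : ℝ} (ha : ‖a‖ ≤ r) : ‖-a‖ ≤ r := by rwa [norm_neg]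

theorem le_sub {a b : L} {r : ℝ} (ha : ‖a‖ ≤ r) (hb : ‖b‖ ≤ r) : ‖a - b‖ ≤ r := by
  rw [sub_eq_add_neg]; exact le_add ha (le_neg hb)

theorem le_mul {a b : L} (ha : ‖a‖ ≤ 1) (hb : ‖b‖ ≤ 1) : ‖a * b‖ ≤ 1 := by
  rw [norm_mul]
  exact mul_le_one₀ ha (norm_nonneg _) hb

theorem le_sum3 {f : Fin 3 → L} {r : ℝ} (h : ∀ i, ‖f i‖ ≤ r) : ‖∑ i, f i‖ ≤ r := by
  rw [Fin.sum_univ_three]
  exact le_add (le_add (h 0) (h 1)) (h 2)

theorem pi_add {u v : Fin 3 → L} {r : ℝ} (hr : 0 ≤ r) (hu : ‖u‖ ≤ r) (hv : ‖v‖ ≤ r) :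
    ‖u + v‖ ≤ r := by
  rw [pi_norm_le_iff_of_nonneg hr] at hu hv ⊢
  intro i
  exact le_add (hu i) (hv i)

/-- the entries of the inverse matrix -/
theorem inv_le {J : Matrix (Fin 3) (Fin 3) L} (hJ : ∀ i j, ‖J i j‖ ≤ 1) (hd : ‖J.det‖ = 1)
    (i j : Fin 3) : ‖J⁻¹ i j‖ ≤ 1 := by
  have h1 : ‖J.adjugate i j‖ ≤ 1 := by
    rw [Matrix.adjugate_fin_three]
    fin_cases i <;> fin_cases j <;> simp only [Matrix.of_apply, Matrix.cons_val', Matrix.cons_val_zero,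
      Matrix.cons_val_one, Matrix.cons_val_two, Matrix.empty_val', Matrix.cons_val_fin_one,
      Matrix.head_cons, Matrix.tail_cons, Matrix.head_fin_const, Fin.zero_eta, Fin.mk_one,
      Fin.reduceFinMk, Matrix.cons_val] <;>
      first
        | exact le_sub (le_mul (hJ _ _) (hJ _ _)) (le_mul (hJ _ _) (hJ _ _))
        | exact le_add (le_neg (le_mul (hJ _ _) (hJ _ _))) (le_mul (hJ _ _) (hJ _ _))
  rw [Matrix.inv_def, Matrix.smul_apply, Ring.inverse_eq_inv', norm_smul, norm_inv, hd, inv_one,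
    one_mul]
  exact h1

theorem mulVec_le {A : Matrix (Fin 3) (Fin 3) L} (hA : ∀ i j, ‖A i j‖ ≤ 1) (v : Fin 3 → L) :
    ‖A.mulVec v‖ ≤ ‖v‖ := by
  rw [pi_norm_le_iff_of_nonneg (norm_nonneg _)]
  intro i
  unfold Matrix.mulVec dotProduct
  refine le_sum3 fun j => ?_
  rw [norm_mul]
  calc ‖A i j‖ * ‖v j‖ ≤ 1 * ‖v‖ :=
        mul_le_mul (hA i j) (norm_le_pi_norm v j) (norm_nonneg _) zero_le_one
    _ = ‖v‖ := one_mul _

theorem bq_le {m : Fin 3 → Fin 3 → Fin 3 → L} (hm : ∀ i a b, ‖m i a b‖ ≤ 1) (u v : Fin 3 → L) :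
    ‖bq m u v‖ ≤ ‖u‖ * ‖v‖ := by
  rw [pi_norm_le_iff_of_nonneg (by positivity)]
  intro i
  unfold bq
  refine le_sum3 fun a => le_sum3 fun b => ?_
  rw [norm_mul, norm_mul]
  calc ‖m i a b‖ * ‖u a‖ * ‖v b‖ ≤ 1 * ‖u‖ * ‖v‖ := by
        gcongr
        · exact hm i a b
        · exact norm_le_pi_norm u a
        · exact norm_le_pi_norm v b
    _ = ‖u‖ * ‖v‖ := by rw [one_mul]

theorem jm_mulVec (m : Fin 3 → Fin 3 → Fin 3 → L) (y z : Fin 3 → L) :
    (jm m y).mulVec z = bq m y z := by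
  funext i
  unfold jm bq Matrix.mulVec dotProduct
  simp only [Matrix.of_apply, Fin.sum_univ_three]
  ring

/-- the difference of two values of the Newton map -/
theorem diff {m : Fin 3 → Fin 3 → Fin 3 → L} (hs : ∀ i a b, m i a b = m i b a) (y z z' : Fin 3 → L) :
    (2 : L) • (bq m y (z - z')) - (bq m z z - bq m z' z') = bq m (z - z') ((y - z) + (y - z')) := by
  funext i
  have h1 := hs i 0 1
  have h2 := hs i 0 2
  have h3 := hs i 1 2
  simp only [Pi.sub_apply, Pi.smul_apply, smul_eq_mul, bq, Fin.sum_univ_three, Pi.add_apply]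
  rw [h1, h2, h3]
  ring

end HEN

open HEN in
theorem hen : StmHEN := by
  intro L _ _ _ m h2 hs hm y c hy hd hq
  have h20 : (2 : L) ≠ 0 := by
    intro h
    rw [h, norm_zero] at h2
    exact zero_ne_one h2
  set J := jm m y with hJ
  have hJle : ∀ i j, ‖J i j‖ ≤ 1 := by
    intro i j
    rw [hJ]
    unfold jm
    rw [Matrix.of_apply]
    exact le_sum3 fun a => le_mul (hm i a j) (hy a)
  have hJi := inv_le hJle hd
  have hdet : IsUnit J.det := by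
    rw [isUnit_iff_ne_zero]
    intro h
    rw [h, norm_zero] at hd
    exact zero_ne_one hd
  have hJJ : ∀ v, J.mulVec (J⁻¹.mulVec v) = v := by
    intro v
    rw [Matrix.mulVec_mulVec, Matrix.mul_nonsing_inv J hdet, Matrix.one_mulVec]
  have hJJ' : ∀ v, J⁻¹.mulVec (J.mulVec v) = v := by
    intro v
    rw [Matrix.mulVec_mulVec, Matrix.nonsing_inv_mul J hdet, Matrix.one_mulVec]
  set T : (Fin 3 → L) → (Fin 3 → L) := fun z => z - J⁻¹.mulVec ((2 : L)⁻¹ • (bq m z z - c)) with hT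
  set δ : ℝ := ‖bq m y y - c‖ with hδ
  have hδ0 : 0 ≤ δ := norm_nonneg _
  have hδ1 : δ < 1 := by
    rw [hδ, pi_norm_lt_iff zero_lt_one]
    exact hq
  have hTT : ∀ z z', T z - T z' =
      J⁻¹.mulVec ((2 : L)⁻¹ • bq m (z - z') ((y - z) + (y - z'))) := by
    intro z z'
    rw [← diff hs, ← jm_mulVec, ← hJ]
    have h1 : (2 : L)⁻¹ • ((2 : L) • (J.mulVec (z - z')) - (bq m z z - bq m z' z')) =
        J.mulVec (z - z') - ((2 : L)⁻¹ • (bq m z z - c) - (2 : L)⁻¹ • (bq m z' z' - c)) := by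
      rw [smul_sub, smul_smul, inv_mul_cancel₀ h20, one_smul, ← smul_sub]
      congr 2
      abel
    rw [h1, Matrix.mulVec_sub, hJJ', Matrix.mulVec_sub]
    simp only [hT]
    abel
  have h2i : ‖(2 : L)⁻¹‖ = 1 := by rw [norm_inv, h2, inv_one]
  have hTle : ∀ z z', ‖z - y‖ ≤ δ → ‖z' - y‖ ≤ δ → ‖T z - T z'‖ ≤ δ * ‖z - z'‖ := by
    intro z z' hz hz'
    rw [hTT]
    calc _ ≤ ‖(2 : L)⁻¹ • bq m (z - z') ((y - z) + (y - z'))‖ := mulVec_le hJi _
      _ = ‖bq m (z - z') ((y - z) + (y - z'))‖ := by rw [norm_smul, h2i, one_mul]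
      _ ≤ ‖z - z'‖ * ‖(y - z) + (y - z')‖ := bq_le hm _ _
      _ ≤ ‖z - z'‖ * δ := by
        gcongr
        exact pi_add hδ0 (by rw [norm_sub_rev]; exact hz) (by rw [norm_sub_rev]; exact hz')
      _ = δ * ‖z - z'‖ := mul_comm _ _
  have hTy : ‖T y - y‖ ≤ δ := by
    have h1 : T y - y = -(J⁻¹.mulVec ((2 : L)⁻¹ • (bq m y y - c))) := by
      simp only [hT]
      abel
    rw [h1, norm_neg]
    calc _ ≤ ‖(2 : L)⁻¹ • (bq m y y - c)‖ := mulVec_le hJi _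
      _ = δ := by rw [norm_smul, h2i, one_mul]
  have hmaps : Set.MapsTo T (Metric.closedBall y δ) (Metric.closedBall y δ) := by
    intro z hz
    rw [mem_closedBall_iff_norm] at hz ⊢
    have h1 : T z - y = (T z - T y) + (T y - y) := by abel
    rw [h1]
    refine pi_add hδ0 ?_ hTy
    calc _ ≤ δ * ‖z - y‖ := hTle z y hz (by rw [sub_self, norm_zero]; exact hδ0)
      _ ≤ 1 * δ := mul_le_mul hδ1.le hz (norm_nonneg _) zero_le_one
      _ = δ := one_mul _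
  have hcon : ContractingWith ⟨δ, hδ0⟩ (hmaps.restrict T _ _) := by
    refine ⟨by exact_mod_cast hδ1, LipschitzWith.of_dist_le_mul ?_⟩
    rintro ⟨z, hz⟩ ⟨z', hz'⟩
    rw [mem_closedBall_iff_norm] at hz hz'
    show dist (T z) (T z') ≤ δ * dist z z'
    rw [dist_eq_norm, dist_eq_norm]
    exact hTle z z' hz hz'
  obtain ⟨z, hz, hfix, -⟩ := ContractingWith.exists_fixedPoint' (K := ⟨δ, hδ0⟩) (f := T)
    (Metric.isClosed_closedBall.isComplete) hmaps hcon (x := y) (Metric.mem_closedBall_self hδ0)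
    (edist_ne_top _ _)
  refine ⟨z, fun i => ?_, fun i => ?_⟩
  · rw [mem_closedBall_iff_norm] at hz
    exact ((norm_le_pi_norm (z - y) i).trans hz).trans_lt hδ1
  · have h1 : J⁻¹.mulVec ((2 : L)⁻¹ • (bq m z z - c)) = 0 := by
      have h3 : z - J⁻¹.mulVec ((2 : L)⁻¹ • (bq m z z - c)) = z := hfix
      exact sub_eq_self.1 h3
    have h3 : (2 : L)⁻¹ • (bq m z z - c) = 0 := by
      rw [← hJJ ((2 : L)⁻¹ • (bq m z z - c)), h1, Matrix.mulVec_zero]
    rcases smul_eq_zero.1 h3 with h4 | h4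
    · exact absurd h4 (inv_ne_zero h20)
    · exact sub_eq_zero.1 (congrFun h4 i)

end Pool.Agent.T6.H77.RK
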