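import Pool.Agent.T6.H77.RK.RED

/-!
# Points with the same general reduction are joined by moves (helper77)
-/

set_option autoImplicit false

namespace Pool.Agent.T6.H77.RK

namespace LC

section alg

variable {k : Type} [Field k] {m n : Fin 3 → Fin 3 → Fin 3 → k}

/-- the cross product -/
def cr (u v : Fin 3 → k) : Fin 3 → k :=
  ![u 1 * v 2 - u 2 * v 1, u 2 * v 0 - u 0 * v 2, u 0 * v 1 - u 1 * v 0]

theorem cr_left (u v : Fin 3 → k) : ∑ i, u i * cr u v i = 0 := by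
  simp [cr, Fin.sum_univ_three]; ring

theorem cr_right (u v : Fin 3 → k) : ∑ i, v i * cr u v i = 0 := by
  simp [cr, Fin.sum_univ_three]; ring

theorem cr_ne {u v : Fin 3 → k} (h : ¬ ∀ i j, u i * v j = u j * v i) : ∃ i, cr u v i ≠ 0 := by
  by_contra hc
  push Not at hc
  have c0 : u 1 * v 2 - u 2 * v 1 = 0 := hc 0
  have c1 : u 2 * v 0 - u 0 * v 2 = 0 := hc 1
  have c2 : u 0 * v 1 - u 1 * v 0 = 0 := hc 2
  apply h
  intro i j
  fin_cases i <;> fin_cases j <;> simp only [Fin.zero_eta, Fin.mk_one, Fin.reduceFinMk]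
  · linear_combination c2
  · linear_combination -c1
  · linear_combination -c2
  · linear_combination c0
  · linear_combination c1
  · linear_combination -c0

theorem cross2 {u v t : Fin 3 → k} (h : ¬ ∀ i j, u i * v j = u j * v i)
    (h1 : ∑ i, u i * t i = 0) (h2 : ∑ i, v i * t i = 0) : ∃ c : k, ∀ i, t i = c * cr u v i := by
  obtain ⟨i0, hi0⟩ := cr_ne h
  rw [Fin.sum_univ_three] at h1 h2
  have p : ∀ i j, t i * cr u v j = t j * cr u v i := by
    intro i j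
    fin_cases i <;> fin_cases j <;>
      simp only [cr, Fin.zero_eta, Fin.mk_one, Fin.reduceFinMk, Matrix.cons_val_zero,
        Matrix.cons_val_one, Matrix.cons_val]
    · linear_combination (u 2) * h2 - (v 2) * h1
    · linear_combination (v 1) * h1 - (u 1) * h2
    · linear_combination (v 2) * h1 - (u 2) * h2
    · linear_combination (u 0) * h2 - (v 0) * h1
    · linear_combination (u 1) * h2 - (v 1) * h1
    · linear_combination (v 0) * h1 - (u 0) * h2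
  refine ⟨t i0 / cr u v i0, fun i => ?_⟩
  rw [div_mul_eq_mul_div, eq_div_iff hi0]
  exact p i i0

theorem exP (h2 : (2 : k) ≠ 0) (hs : ∀ i a b, m i a b = m i b a) {x y : Fin 3 → k}
    (h : fm m n x y = 0) (hu : ∃ u, pl m n y x u ≠ 0) :
    ∃ u, fm m n u y = 0 ∧ pl m n y x u ≠ 0 := by
  obtain ⟨u, hu⟩ := hu
  refine ⟨_, fm_ref hs h u 1, ?_⟩
  rw [one_smul, pl_add_right, pl_smul_right, pl_smul_right, pl_self, h, mul_zero, zero_add]
  exact mul_ne_zero (neg_ne_zero.2 (mul_ne_zero h2 hu)) hu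

theorem bq_jm (x z : Fin 3 → k) (i : Fin 3) : bq m x z i = ((jm m x).mulVec z) i := by
  simp [bq, jm, Matrix.mulVec, dotProduct, Fin.sum_univ_three]; ring

theorem pl_dm (y x z : Fin 3 → k) : pl m n y x z = dotProduct (Matrix.vecMul x (dm m n y)) z := by
  simp [pl, bq, dm, Matrix.vecMul, dotProduct, Fin.sum_univ_three]; ring

theorem ne_of_dm {y x : Fin 3 → k} (hd : (dm m n y).det ≠ 0) (hx : x ≠ 0) :
    ∃ z, pl m n y x z ≠ 0 := by
  by_contra hc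
  push Not at hc
  apply hx
  apply Matrix.eq_zero_of_vecMul_eq_zero hd
  funext i
  have := hc (Pi.single i 1)
  rw [pl_dm, dotProduct_single, mul_one] at this
  exact this

theorem ne_of_jm {y x : Fin 3 → k} (hd : (jm n y).det ≠ 0) (hx : ∃ i, bq m x x i ≠ 0) :
    ∃ z, pl n m x y z ≠ 0 := by
  by_contra hc
  push Not at hc
  obtain ⟨i, hi⟩ := hx
  apply hi
  have h0 : (fun i => bq m x x i) = 0 := by
    apply Matrix.eq_zero_of_vecMul_eq_zero hd
    funext j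
    have := hc (Pi.single j 1)
    simp only [pl, bq_jm, Matrix.mulVec_single_one] at this
    simp only [Matrix.vecMul, dotProduct, Pi.zero_apply]
    rw [← this]
    refine Finset.sum_congr rfl fun a _ => ?_
    rw [bq_jm]
    simp only [Matrix.col_apply]
    ring
  exact congrFun h0 i

theorem anis [Fintype k] (hq : 9 ≤ Fintype.card k) (h : Gq m) {x : Fin 3 → k} (hx : x ≠ 0) :
    ∃ i, bq m x x i ≠ 0 := by
  by_contra hc
  push Not at hc
  have h1 := h.fib 0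
  have h2 : Set.range (fun c : k => c • x) ⊆ {x : Fin 3 → k | ∀ i, bq m x x i = (0 : Fin 3 → k) i} := by
    rintro _ ⟨c, rfl⟩ i
    simp only [bq_smul_left, bq_smul_right, hc i, mul_zero, Pi.zero_apply]
  have h3 := Set.ncard_le_ncard h2 (Set.toFinite _)
  have h4 : Function.Injective (fun c : k => c • x) := smul_left_injective k hx
  rw [← Set.image_univ, Set.ncard_image_of_injective _ h4, Set.ncard_univ,
    Nat.card_eq_fintype_card] at h3
  omega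

theorem card_prop [Fintype k] (h : Gq m) {u : Fin 3 → k} (hu : ∃ i, u i ≠ 0) :
    {x | ∀ i j, bq m x x i * u j = bq m x x j * u i}.ncard ≤ 8 * Fintype.card k := by
  classical
  obtain ⟨i0, hi0⟩ := hu
  have h1 : {x | ∀ i j, bq m x x i * u j = bq m x x j * u i} ⊆
      ⋃ c ∈ (Finset.univ : Finset k), {x : Fin 3 → k | ∀ i, bq m x x i = c * u i} := by
    intro x hx
    simp only [Finset.mem_univ, Set.iUnion_true, Set.mem_iUnion]
    change ∃ c : k, ∀ i, bq m x x i = c * u i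
    refine ⟨bq m x x i0 / u i0, fun i => ?_⟩
    rw [div_mul_eq_mul_div, eq_div_iff hi0]
    exact hx i i0
  refine (Set.ncard_le_ncard h1 (Set.toFinite _)).trans ?_
  refine (Finset.set_ncard_biUnion_le _ _).trans ?_
  calc ∑ c : k, {x : Fin 3 → k | ∀ i, bq m x x i = c * u i}.ncard ≤ ∑ c : k, 8 :=
        Finset.sum_le_sum fun c _ => h.fib fun i => c * u i
    _ = 8 * Fintype.card k := by
      rw [Finset.sum_const, Finset.card_univ, smul_eq_mul, mul_comm]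

end alg

section det

variable {L k : Type} [NontriviallyNormedField L] [IsUltrametricDist L] [Field k] {π : L → k}

theorem det_red (h : DW.Res π) (M : Matrix (Fin 3) (Fin 3) L) (hM : ∀ i j, ‖M i j‖ ≤ 1) :
    ‖M.det‖ ≤ 1 ∧ π M.det = (Matrix.of fun i j => π (M i j)).det := by
  have hm : ∀ x y : L, ‖x‖ ≤ 1 → ‖y‖ ≤ 1 → ‖x * y‖ ≤ 1 := fun x y hx hy => DW.mul_le1 hx hy
  have hsub : ∀ x y : L, ‖x‖ ≤ 1 → ‖y‖ ≤ 1 → ‖x - y‖ ≤ 1 := fun x y hx hy => DW.sub_le1 hx hy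
  have hadd : ∀ x y : L, ‖x‖ ≤ 1 → ‖y‖ ≤ 1 → ‖x + y‖ ≤ 1 := fun x y hx hy =>
    (IsUltrametricDist.norm_add_le_max _ _).trans (max_le hx hy)
  have n3 : ∀ x y z : L, ‖x‖ ≤ 1 → ‖y‖ ≤ 1 → ‖z‖ ≤ 1 → ‖x * y * z‖ ≤ 1 := fun x y z hx hy hz =>
    hm _ _ (hm _ _ hx hy) hz
  have m3 : ∀ x y z : L, ‖x‖ ≤ 1 → ‖y‖ ≤ 1 → ‖z‖ ≤ 1 → π (x * y * z) = π x * π y * π z :=
    fun x y z hx hy hz => by rw [h.mul _ _ (hm _ _ hx hy) hz, h.mul _ _ hx hy]
  have k1 := n3 _ _ _ (hM 0 0) (hM 1 1) (hM 2 2)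
  have k2 := n3 _ _ _ (hM 0 0) (hM 1 2) (hM 2 1)
  have k3 := n3 _ _ _ (hM 0 1) (hM 1 0) (hM 2 2)
  have k4 := n3 _ _ _ (hM 0 1) (hM 1 2) (hM 2 0)
  have k5 := n3 _ _ _ (hM 0 2) (hM 1 0) (hM 2 1)
  have k6 := n3 _ _ _ (hM 0 2) (hM 1 1) (hM 2 0)
  rw [Matrix.det_fin_three, Matrix.det_fin_three]
  simp only [Matrix.of_apply]
  refine ⟨hsub _ _ (hadd _ _ (hadd _ _ (hsub _ _ (hsub _ _ k1 k2) k3) k4) k5) k6, ?_⟩
  rw [h.sub (hadd _ _ (hadd _ _ (hsub _ _ (hsub _ _ k1 k2) k3) k4) k5) k6,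
    h.add _ _ (hadd _ _ (hsub _ _ (hsub _ _ k1 k2) k3) k4) k5,
    h.add _ _ (hsub _ _ (hsub _ _ k1 k2) k3) k4, h.sub (hsub _ _ k1 k2) k3, h.sub k1 k2,
    m3 _ _ _ (hM 0 0) (hM 1 1) (hM 2 2), m3 _ _ _ (hM 0 0) (hM 1 2) (hM 2 1),
    m3 _ _ _ (hM 0 1) (hM 1 0) (hM 2 2), m3 _ _ _ (hM 0 1) (hM 1 2) (hM 2 0),
    m3 _ _ _ (hM 0 2) (hM 1 0) (hM 2 1), m3 _ _ _ (hM 0 2) (hM 1 1) (hM 2 0)]

theorem jm_red (h : DW.Res π) {m : Fin 3 → Fin 3 → Fin 3 → L} (hm : ∀ i a b, ‖m i a b‖ ≤ 1)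
    {x : Fin 3 → L} (hx : ∀ i, ‖x i‖ ≤ 1) : ‖(jm m x).det‖ ≤ 1 ∧
    π (jm m x).det = (jm (fun i a b => π (m i a b)) (fun i => π (x i))).det := by
  have h1 : ∀ i b, ‖jm m x i b‖ ≤ 1 := by
    intro i b
    change ‖∑ a, m i a b * x a‖ ≤ 1
    exact DW.sum3_le fun a => DW.mul_le1 (hm i a b) (hx a)
  obtain ⟨h2, h3⟩ := det_red h (jm m x) h1
  refine ⟨h2, h3.trans ?_⟩
  congr 1
  ext i b
  simp only [jm, Matrix.of_apply]
  rw [h.sum3 fun a => DW.mul_le1 (hm _ _ _) (hx _)]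
  exact Finset.sum_congr rfl fun a _ => h.mul _ _ (hm _ _ _) (hx _)

theorem cr_le {u v : Fin 3 → L} (hu : ∀ i, ‖u i‖ ≤ 1) (hv : ∀ i, ‖v i‖ ≤ 1) (i : Fin 3) :
    ‖cr u v i‖ ≤ 1 := by
  fin_cases i <;> simp only [cr, Fin.zero_eta, Fin.mk_one, Fin.reduceFinMk, Matrix.cons_val_zero,
        Matrix.cons_val_one, Matrix.cons_val] <;>
    exact DW.sub_le1 (DW.mul_le1 (hu _) (hv _)) (DW.mul_le1 (hu _) (hv _))

theorem cr_red (h : DW.Res π) {u v : Fin 3 → L} (hu : ∀ i, ‖u i‖ ≤ 1) (hv : ∀ i, ‖v i‖ ≤ 1)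
    (i : Fin 3) : π (cr u v i) = cr (fun j => π (u j)) (fun j => π (v j)) i := by
  fin_cases i <;> simp only [cr, Fin.zero_eta, Fin.mk_one, Fin.reduceFinMk, Matrix.cons_val_zero,
        Matrix.cons_val_one, Matrix.cons_val] <;>
    rw [h.sub (DW.mul_le1 (hu _) (hv _)) (DW.mul_le1 (hu _) (hv _)), h.mul _ _ (hu _) (hv _),
      h.mul _ _ (hu _) (hv _)]

end det

end LC

open LC in
theorem lc (hC : StmCO) (hH : StmHEN) : StmLC := by
  refine ⟨20, ?_⟩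
  intro L k _ _ _ _ _ π h hq m n hm hn im iN hG x y x' y' hx hy hx' hy' hx0 exx eyy hF hF' hD hJ
  set m' : Fin 3 → Fin 3 → Fin 3 → k := fun i a b => π (m i a b) with hm'
  set n' : Fin 3 → Fin 3 → Fin 3 → k := fun i a b => π (n i a b) with hn'
  set z : Fin 3 → k := fun i => π (x i) with hz
  set w : Fin 3 → k := fun i => π (y i) with hw
  have ez : (fun i => π (x' i)) = z := funext fun i => (exx i).symm
  have ew : (fun i => π (y' i)) = w := funext fun i => (eyy i).symm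
  have h2 : (2 : k) ≠ 0 := hG.two
  have h2L : ‖(2 : L)‖ = 1 := h.norm_two h2
  have z0 : z ≠ 0 := fun h0 => by
    obtain ⟨i, hi⟩ := hx0
    exact hi (congrFun h0 i)
  have qz : ∃ i, bq m' z z i ≠ 0 := anis (by omega) hG.gm z0
  have Fzw : fm m' n' z w = 0 := by
    rw [hz, hw, ← fm_red h im iN hx hy, hF, h.zero]
  -- Step 1
  obtain ⟨x₁, hx₁F, hx₁b, hx₁p⟩ : ∃ x₁, fm m' n' x₁ w = 0 ∧ pl m' n' w z x₁ ≠ 0 ∧
      ¬ ∀ i j, bq m' x₁ x₁ i * bq m' z z j = bq m' x₁ x₁ j * bq m' z z i := by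
    by_contra hc
    push Not at hc
    have c1 := hC k m' n' h2 hG.gm.sym z w Fzw (ne_of_dm hD z0)
    have c2 := card_prop hG.gm qz
    have c3 : {x' | fm m' n' x' w = 0 ∧ pl m' n' w z x' ≠ 0} ⊆
        {x | ∀ i j, bq m' x x i * bq m' z z j = bq m' x x j * bq m' z z i} :=
      fun x hx => hc x hx.1 hx.2
    have c4 := Set.ncard_le_ncard c3 (Set.toFinite _)
    nlinarith
  have qx₁ : ∃ i, bq m' x₁ x₁ i ≠ 0 := by
    by_contra hc
    push Not at hc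
    exact hx₁p fun i j => by rw [hc i, hc j]; ring
  -- Step 2
  obtain ⟨X₁, iX₁, rX₁, FX₁, bX₁⟩ := liftX h h2 hm im iN hx hy hF x₁ hx₁F hx₁b
  have eX₁ : (fun i => π (X₁ i)) = x₁ := funext rX₁
  -- Step 3
  obtain ⟨ζ, hζF, hζa⟩ := exP (m := n') (n := m') h2 hG.gn.sym
    (x := w) (y := x₁) (by rw [fm_swap]; exact hx₁F) (ne_of_jm hJ qx₁)
  obtain ⟨Z, iZ, rZ, FZ, aZ⟩ := liftX h h2 hn iN im hy iX₁ (by rw [fm_swap]; exact FX₁) ζ
    (by rw [eX₁]; exact hζF) (by rw [eX₁]; exact hζa)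
  have eZ : (fun i => π (Z i)) = ζ := funext rZ
  -- Step 4
  have o1 : ∑ i, bq m' x₁ x₁ i * bq n' w w i = 0 := hx₁F
  have o2 : ∑ i, bq m' z z i * bq n' w w i = 0 := Fzw
  obtain ⟨lam, hlam⟩ := cross2 hx₁p o1 o2
  obtain ⟨lL, ilL, rlL⟩ := h.surj lam
  set qX : Fin 3 → L := fun i => bq m X₁ X₁ i with hqX
  set qx : Fin 3 → L := fun i => bq m x' x' i with hqx
  have iqX : ∀ i, ‖qX i‖ ≤ 1 := fun i => bq_le im iX₁ iX₁ i
  have iqx : ∀ i, ‖qx i‖ ≤ 1 := fun i => bq_le im hx' hx' i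
  have rqX : (fun i => π (qX i)) = fun i => bq m' x₁ x₁ i := by
    funext i
    rw [hqX]
    simp only
    rw [bq_red h im iX₁ iX₁, eX₁]
  have rqx : (fun i => π (qx i)) = fun i => bq m' z z i := by
    funext i
    rw [hqx]
    simp only
    rw [bq_red h im hx' hx', ez]
  obtain ⟨iJ, rJ⟩ := jm_red h iN hy
  have uJ : ‖(jm n y).det‖ = 1 := norm_one_of h iJ (by rw [rJ]; exact hJ)
  obtain ⟨Y, hY1, hY2⟩ := hH L n h2L hn iN y (fun i => lL * cr qX qx i) hy uJ (by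
    intro i
    have a1 : ‖lL * cr qX qx i‖ ≤ 1 := DW.mul_le1 ilL (cr_le iqX iqx i)
    have a2 := bq_le iN hy hy i
    refine (h.ker _ (DW.sub_le1 a2 a1)).1 ?_
    rw [h.sub a2 a1, bq_red h iN hy hy, h.mul _ _ ilL (cr_le iqX iqx i), cr_red h iqX iqx, rlL,
      rqX, rqx]
    change bq n' w w i - lam * cr (fun j => bq m' x₁ x₁ j) (fun j => bq m' z z j) i = 0
    rw [hlam i]
    exact sub_self _)
  have iY : ∀ i, ‖Y i‖ ≤ 1 := by
    intro i
    have : Y i = (Y i - y i) + y i := by ring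
    rw [this]
    exact (IsUltrametricDist.norm_add_le_max _ _).trans (max_le (hY1 i).le (hy i))
  have eY : (fun i => π (Y i)) = w := by
    funext i
    have : Y i = (Y i - y i) + y i := by ring
    rw [this, h.add _ _ (hY1 i).le (hy i), (h.ker _ (hY1 i).le).2 (hY1 i), zero_add]
  have F1 : fm m n X₁ Y = 0 := by
    change ∑ i, bq m X₁ X₁ i * bq n Y Y i = 0
    have : ∑ i, bq m X₁ X₁ i * bq n Y Y i = lL * ∑ i, qX i * cr qX qx i := by
      rw [Finset.mul_sum]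
      refine Finset.sum_congr rfl fun i _ => ?_
      rw [hY2 i, hqX]; ring
    rw [this, cr_left, mul_zero]
  have F2 : fm m n x' Y = 0 := by
    change ∑ i, bq m x' x' i * bq n Y Y i = 0
    have : ∑ i, bq m x' x' i * bq n Y Y i = lL * ∑ i, qx i * cr qX qx i := by
      rw [Finset.mul_sum]
      refine Finset.sum_congr rfl fun i _ => ?_
      rw [hY2 i, hqx]; ring
    rw [this, cr_right, mul_zero]
  -- Step 5
  obtain ⟨ξ, hξF, hξa⟩ := exP (m := n') (n := m') h2 hG.gn.sym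
    (x := w) (y := z) (by rw [fm_swap]; exact Fzw) (ne_of_jm hJ qz)
  obtain ⟨Ξ, iΞ, rΞ, FΞ, aΞ⟩ := liftX h h2 hn iN im iY hx' (by rw [fm_swap]; exact F2) ξ
    (by rw [ez]; exact hξF) (by rw [ez, eY]; exact hξa)
  have eΞ : (fun i => π (Ξ i)) = ξ := funext rΞ
  refine ⟨(X₁, y), FX₁, ?_, (X₁, Z), by rw [fm_swap] at FZ; exact FZ, ?_, (X₁, Y), F1, ?_,
    (x', Y), F2, ?_, (x', Ξ), by rw [fm_swap] at FΞ; exact FΞ, ?_, (x', y'), hF', ?_, rfl⟩
  · simp only [St, ↓reduceIte]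
    exact ⟨trivial, bX₁⟩
  · simp only [St, Bool.false_eq_true, ↓reduceIte]
    exact ⟨trivial, aZ⟩
  · simp only [St, Bool.false_eq_true, ↓reduceIte]
    refine ⟨trivial, fun h0 => ?_⟩
    have := pl_red h iN im iX₁ iZ iY
    rw [h0, h.zero, eX₁, eZ, eY, pl_symm hG.gn.sym] at this
    exact hζa this.symm
  · simp only [St, ↓reduceIte]
    refine ⟨trivial, fun h0 => ?_⟩
    have := pl_red h im iN iY iX₁ hx'
    rw [h0, h.zero, eX₁, ez, eY, pl_symm hG.gm.sym] at this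
    exact hx₁b this.symm
  · simp only [St, Bool.false_eq_true, ↓reduceIte]
    exact ⟨trivial, aΞ⟩
  · simp only [St, Bool.false_eq_true, ↓reduceIte]
    refine ⟨trivial, fun h0 => ?_⟩
    have := pl_red h iN im hx' iΞ hy'
    rw [h0, h.zero, ez, eΞ, ew, pl_symm hG.gn.sym] at this
    exact hξa this.symm

end Pool.Agent.T6.H77.RK
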