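import Pool.Agent.T6.H77.RK.Stm

/-!
# The closure of the rational points is stable under moves (helper94, module CLO)
-/

set_option autoImplicit false

open Filter Topology

namespace Pool.Agent.T6.H77.RK

namespace CLO

section alg

variable {k : Type} [Field k] (m n : Fin 3 → Fin 3 → Fin 3 → k)

/-- a bilinear form given by a matrix -/
def bl (D : Matrix (Fin 3) (Fin 3) k) (x x' : Fin 3 → k) : k := ∑ a, ∑ b, D a b * x a * x' b

theorem pl_bl (y x x' : Fin 3 → k) : pl m n y x x' = bl (dm m n y) x x' := by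
  unfold pl bl dm bq
  simp only [Matrix.of_apply]
  generalize (fun i => ∑ a, ∑ b, n i a b * y a * y b) = c
  simp only [Fin.sum_univ_three]
  ring

theorem fm_bl (x y : Fin 3 → k) : fm m n x y = bl (dm m n y) x x := pl_bl m n y x x

theorem fm_swap (x y : Fin 3 → k) : fm n m y x = fm m n x y := by
  unfold fm
  exact Finset.sum_congr rfl fun i _ => mul_comm _ _

variable {m} in
theorem dm_symm (hm : ∀ i a b, m i a b = m i b a) (y : Fin 3 → k) (a b : Fin 3) :
    dm m n y a b = dm m n y b a := by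
  unfold dm
  simp only [Matrix.of_apply]
  exact Finset.sum_congr rfl fun i _ => by rw [hm i a b]

variable {D : Matrix (Fin 3) (Fin 3) k}

theorem bl_add (hD : ∀ a b, D a b = D b a) (x u : Fin 3 → k) (c : k) :
    bl D (x + c • u) (x + c • u) = bl D x x + c * (2 * bl D x u) + c ^ 2 * bl D u u := by
  simp only [bl, Fin.sum_univ_three, Pi.add_apply, Pi.smul_apply, smul_eq_mul]
  rw [hD 1 0, hD 2 0, hD 2 1]
  ring

theorem bl_sub_r (x x' : Fin 3 → k) : bl D x (x - x') = bl D x x - bl D x x' := by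
  simp only [bl, Fin.sum_univ_three, Pi.sub_apply]; ring

theorem bl_sub (hD : ∀ a b, D a b = D b a) (x x' : Fin 3 → k) :
    bl D (x - x') (x - x') = bl D x x + bl D x' x' - 2 * bl D x x' := by
  simp only [bl, Fin.sum_univ_three, Pi.sub_apply]
  rw [hD 1 0, hD 2 0, hD 2 1]
  ring

/-- the second point of the line through `x` in direction `u` -/
noncomputable def rf (y u x : Fin 3 → k) : Fin 3 → k := x + (-(2 * pl m n y x u) / fm m n u y) • u

variable {m}

theorem rf_on (hm : ∀ i a b, m i a b = m i b a) {x u y : Fin 3 → k} (h : fm m n x y = 0)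
    (hu : fm m n u y ≠ 0) : fm m n (rf m n y u x) y = 0 := by
  rw [fm_bl] at h hu ⊢
  rw [rf, bl_add (dm_symm n hm y), h, fm_bl, pl_bl]
  field_simp
  ring

theorem rf_eq (hm : ∀ i a b, m i a b = m i b a) {x x' y : Fin 3 → k} (h2 : (2 : k) ≠ 0)
    (h : fm m n x y = 0) (h' : fm m n x' y = 0) (hp : pl m n y x x' ≠ 0) :
    fm m n (x - x') y ≠ 0 ∧ rf m n y (x - x') x = x' := by
  have h1 : fm m n (x - x') y = - (2 * pl m n y x x') := by
    rw [fm_bl] at h h' ⊢
    rw [bl_sub (dm_symm n hm y), h, h', pl_bl]; ring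
  have h3 : pl m n y x (x - x') = - pl m n y x x' := by
    rw [fm_bl] at h
    rw [pl_bl, pl_bl, bl_sub_r, h]; ring
  refine ⟨?_, ?_⟩
  · rw [h1]
    exact neg_ne_zero.2 (mul_ne_zero h2 hp)
  · rw [rf, h1, h3]
    have : -(2 * -pl m n y x x') / -(2 * pl m n y x x') = -1 := by
      have h4 : 2 * pl m n y x x' ≠ 0 := mul_ne_zero h2 hp
      field_simp
    rw [this]
    funext i
    simp

theorem bl_stay (hD : ∀ a b, D a b = D b a) (hdet : D.det ≠ 0) {x : Fin 3 → k} (hx : x ≠ 0)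
    (h : bl D x x = 0) : ∃ u, bl D u u ≠ 0 ∧ bl D x u = 0 := by
  have hDx : D.mulVec x ≠ 0 := fun hc => hx (Matrix.eq_zero_of_mulVec_eq_zero hdet hc)
  obtain ⟨j, hj⟩ : ∃ j, D.mulVec x j ≠ 0 := by
    by_contra hc
    push Not at hc
    exact hDx (funext hc)
  have e10 := hD 1 0
  have e20 := hD 2 0
  have e21 := hD 2 1
  simp only [bl, Fin.sum_univ_three, e10, e20, e21] at h
  simp only [Matrix.det_fin_three, e10, e20, e21] at hdet
  fin_cases j
  · simp only [Matrix.mulVec, dotProduct, Fin.sum_univ_three, Fin.zero_eta, e10, e20, e21] at hj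
    refine ⟨![(D 0 1 * x 0 + D 1 1 * x 1 + D 1 2 * x 2) * D 0 2 -
      (D 0 2 * x 0 + D 1 2 * x 1 + D 2 2 * x 2) * D 0 1,
      (D 0 2 * x 0 + D 1 2 * x 1 + D 2 2 * x 2) * D 0 0 -
      (D 0 0 * x 0 + D 0 1 * x 1 + D 0 2 * x 2) * D 0 2,
      (D 0 0 * x 0 + D 0 1 * x 1 + D 0 2 * x 2) * D 0 1 -
      (D 0 1 * x 0 + D 1 1 * x 1 + D 1 2 * x 2) * D 0 0], ?_, ?_⟩
    · have := neg_ne_zero.2 (mul_ne_zero hdet (pow_ne_zero 2 hj))
      intro h0
      apply this
      simp only [bl, Fin.sum_univ_three, e10, e20, e21, Matrix.cons_val_zero, Matrix.cons_val_one,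
        Matrix.cons_val] at h0
      linear_combination h0 - D 0 0 * (D 0 0 * D 1 1 * D 2 2 - D 0 0 * D 1 2 * D 1 2 -
        D 0 1 * D 0 1 * D 2 2 + D 0 1 * D 1 2 * D 0 2 + D 0 2 * D 0 1 * D 1 2 -
        D 0 2 * D 1 1 * D 0 2) * h
    · simp only [bl, Fin.sum_univ_three, e10, e20, e21, Matrix.cons_val_zero, Matrix.cons_val_one,
        Matrix.cons_val]
      ring
  · simp only [Matrix.mulVec, dotProduct, Fin.sum_univ_three, Fin.mk_one, e10, e20, e21] at hj
    refine ⟨![(D 0 1 * x 0 + D 1 1 * x 1 + D 1 2 * x 2) * D 1 2 -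
      (D 0 2 * x 0 + D 1 2 * x 1 + D 2 2 * x 2) * D 1 1,
      (D 0 2 * x 0 + D 1 2 * x 1 + D 2 2 * x 2) * D 0 1 -
      (D 0 0 * x 0 + D 0 1 * x 1 + D 0 2 * x 2) * D 1 2,
      (D 0 0 * x 0 + D 0 1 * x 1 + D 0 2 * x 2) * D 1 1 -
      (D 0 1 * x 0 + D 1 1 * x 1 + D 1 2 * x 2) * D 0 1], ?_, ?_⟩
    · have := neg_ne_zero.2 (mul_ne_zero hdet (pow_ne_zero 2 hj))
      intro h0
      apply this
      simp only [bl, Fin.sum_univ_three, e10, e20, e21, Matrix.cons_val_zero, Matrix.cons_val_one,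
        Matrix.cons_val] at h0
      linear_combination h0 - D 1 1 * (D 0 0 * D 1 1 * D 2 2 - D 0 0 * D 1 2 * D 1 2 -
        D 0 1 * D 0 1 * D 2 2 + D 0 1 * D 1 2 * D 0 2 + D 0 2 * D 0 1 * D 1 2 -
        D 0 2 * D 1 1 * D 0 2) * h
    · simp only [bl, Fin.sum_univ_three, e10, e20, e21, Matrix.cons_val_zero, Matrix.cons_val_one,
        Matrix.cons_val]
      ring
  · simp only [Matrix.mulVec, dotProduct, Fin.sum_univ_three, Fin.reduceFinMk, e10, e20, e21] at hj
    refine ⟨![(D 0 1 * x 0 + D 1 1 * x 1 + D 1 2 * x 2) * D 2 2 -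
      (D 0 2 * x 0 + D 1 2 * x 1 + D 2 2 * x 2) * D 1 2,
      (D 0 2 * x 0 + D 1 2 * x 1 + D 2 2 * x 2) * D 0 2 -
      (D 0 0 * x 0 + D 0 1 * x 1 + D 0 2 * x 2) * D 2 2,
      (D 0 0 * x 0 + D 0 1 * x 1 + D 0 2 * x 2) * D 1 2 -
      (D 0 1 * x 0 + D 1 1 * x 1 + D 1 2 * x 2) * D 0 2], ?_, ?_⟩
    · have := neg_ne_zero.2 (mul_ne_zero hdet (pow_ne_zero 2 hj))
      intro h0
      apply this
      simp only [bl, Fin.sum_univ_three, e10, e20, e21, Matrix.cons_val_zero, Matrix.cons_val_one,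
        Matrix.cons_val] at h0
      linear_combination h0 - D 2 2 * (D 0 0 * D 1 1 * D 2 2 - D 0 0 * D 1 2 * D 1 2 -
        D 0 1 * D 0 1 * D 2 2 + D 0 1 * D 1 2 * D 0 2 + D 0 2 * D 0 1 * D 1 2 -
        D 0 2 * D 1 1 * D 0 2) * h
    · simp only [bl, Fin.sum_univ_three, e10, e20, e21, Matrix.cons_val_zero, Matrix.cons_val_one,
        Matrix.cons_val]
      ring

theorem rf_stay (hm : ∀ i a b, m i a b = m i b a) {x y : Fin 3 → k} (hx : x ≠ 0)
    (h : fm m n x y = 0) (hd : (dm m n y).det ≠ 0) :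
    ∃ u, fm m n u y ≠ 0 ∧ rf m n y u x = x := by
  rw [fm_bl] at h
  obtain ⟨u, hu, hp⟩ := bl_stay (dm_symm n hm y) hd hx h
  refine ⟨u, by rwa [fm_bl], ?_⟩
  rw [rf, pl_bl, hp]
  simp

variable (m)

/-- an `X`-step -/
def XS (p q : (Fin 3 → k) × (Fin 3 → k)) : Prop :=
  ∃ u, fm m n u p.2 ≠ 0 ∧ q = (rf m n p.2 u p.1, p.2)

/-- a `Y`-step -/
def YS (p q : (Fin 3 → k) × (Fin 3 → k)) : Prop := XS n m p.swap q.swap

variable {m n}

theorem xs_stay (hm : ∀ i a b, m i a b = m i b a) {p : (Fin 3 → k) × (Fin 3 → k)}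
    (h1 : p.1 ≠ 0) (h : fm m n p.1 p.2 = 0) (hd : (dm m n p.2).det ≠ 0) : XS m n p p := by
  obtain ⟨u, hu, he⟩ := rf_stay n hm h1 h hd
  exact ⟨u, hu, by rw [he]⟩

theorem ys_stay (hn : ∀ i a b, n i a b = n i b a) {p : (Fin 3 → k) × (Fin 3 → k)}
    (h1 : p.2 ≠ 0) (h : fm m n p.1 p.2 = 0) (hd : (dm n m p.1).det ≠ 0) : YS m n p p :=
  xs_stay (m := n) (n := m) (p := p.swap) hn h1 (by rw [fm_swap]; exact h) hd

theorem xs_st (hm : ∀ i a b, m i a b = m i b a) (h2 : (2 : k) ≠ 0)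
    {p r : (Fin 3 → k) × (Fin 3 → k)} (hp : fm m n p.1 p.2 = 0) (hr : fm m n r.1 r.2 = 0)
    (h : St m n true p r) : XS m n p r := by
  obtain ⟨h1, h3⟩ := h
  have h4 := rf_eq n hm h2 hp (by rw [h1]; exact hr) h3
  refine ⟨p.1 - r.1, h4.1, ?_⟩
  rw [h4.2, h1]

theorem ys_st (hn : ∀ i a b, n i a b = n i b a) (h2 : (2 : k) ≠ 0)
    {p r : (Fin 3 → k) × (Fin 3 → k)} (hp : fm m n p.1 p.2 = 0) (hr : fm m n r.1 r.2 = 0)
    (h : St m n false p r) : YS m n p r := by
  have h' : p.1 = r.1 ∧ pl n m p.1 p.2 r.2 ≠ 0 := by simpa [St] using h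
  refine xs_st (m := n) (n := m) (p := p.swap) (r := r.swap) hn h2 (by rw [fm_swap]; exact hp)
    (by rw [fm_swap]; exact hr) ?_
  simpa [St] using h'

end alg

section clo

variable {K : Type} [Field K] {ι : Type} {L : ι → Type} [∀ v, NontriviallyNormedField (L v)]
  (σ : ∀ v, K →+* L v) (m n : Fin 3 → Fin 3 → Fin 3 → K)

/-- the rational points -/
def kp : Set (∀ v, (Fin 3 → L v) × (Fin 3 → L v)) :=
  {S | ∃ x y : Fin 3 → K, fm m n x y = 0 ∧ S = fun v => (fun i => σ v (x i), fun i => σ v (y i))}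

theorem fm_map {k l : Type} [Field k] [Field l] (f : k →+* l) (m n : Fin 3 → Fin 3 → Fin 3 → k)
    (x y : Fin 3 → k) :
    fm (fun i a b => f (m i a b)) (fun i a b => f (n i a b)) (fun i => f (x i))
      (fun i => f (y i)) = f (fm m n x y) := by
  simp only [fm, bq, map_sum, map_mul]

theorem pl_map {k l : Type} [Field k] [Field l] (f : k →+* l) (m n : Fin 3 → Fin 3 → Fin 3 → k)
    (y x x' : Fin 3 → k) :
    pl (fun i a b => f (m i a b)) (fun i a b => f (n i a b)) (fun i => f (y i))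
      (fun i => f (x i)) (fun i => f (x' i)) = f (pl m n y x x') := by
  simp only [pl, bq, map_sum, map_mul]

theorem pl_cont {X k : Type} [TopologicalSpace X] [NontriviallyNormedField k]
    (m n : Fin 3 → Fin 3 → Fin 3 → k) {f g h : X → Fin 3 → k} (hf : Continuous f)
    (hg : Continuous g) (hh : Continuous h) : Continuous fun x => pl m n (f x) (g x) (h x) := by
  unfold pl bq
  fun_prop

theorem fm_cont {X k : Type} [TopologicalSpace X] [NontriviallyNormedField k]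
    (m n : Fin 3 → Fin 3 → Fin 3 → k) {f g : X → Fin 3 → k} (hf : Continuous f)
    (hg : Continuous g) : Continuous fun x => fm m n (f x) (g x) :=
  pl_cont m n hg hf hf

theorem dens3 (hσ : DenseRange fun (b : K) (v : ι) => σ v b) (u : ∀ v, Fin 3 → L v) :
    u ∈ closure {S : ∀ v, Fin 3 → L v | ∃ w : Fin 3 → K, S = fun v i => σ v (w i)} := by
  have h1 : DenseRange (Pi.map fun (_ : Fin 3) (b : K) (v : ι) => σ v b) :=
    DenseRange.piMap fun _ => hσ
  let Φ : (Fin 3 → ∀ v, L v) → ∀ v, Fin 3 → L v := fun c v i => c i v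
  have hΦ : Continuous Φ := by
    refine continuous_pi fun v => continuous_pi fun i => ?_
    change Continuous fun c : Fin 3 → ∀ v, L v => c i v
    fun_prop
  have h2 : u = Φ fun i v => u v i := rfl
  rw [h2]
  refine map_mem_closure hΦ (h1 fun i v => u v i) ?_
  rintro _ ⟨w, rfl⟩
  exact ⟨w, rfl⟩

theorem rf_contAt {k : Type} [NontriviallyNormedField k] (m n : Fin 3 → Fin 3 → Fin 3 → k)
    {u x y : Fin 3 → k} (hu : fm m n u y ≠ 0) :
    ContinuousAt (fun q : (Fin 3 → k) × (Fin 3 → k) × (Fin 3 → k) => rf m n q.2.2 q.1 q.2.1)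
      (u, x, y) := by
  have c1 : Continuous fun q : (Fin 3 → k) × (Fin 3 → k) × (Fin 3 → k) => q.1 := by fun_prop
  have c2 : Continuous fun q : (Fin 3 → k) × (Fin 3 → k) × (Fin 3 → k) => q.2.1 := by fun_prop
  have c3 : Continuous fun q : (Fin 3 → k) × (Fin 3 → k) × (Fin 3 → k) => q.2.2 := by fun_prop
  have h1 : ContinuousAt (fun q : (Fin 3 → k) × (Fin 3 → k) × (Fin 3 → k) =>
      -(2 * pl m n q.2.2 q.2.1 q.1) / fm m n q.1 q.2.2) (u, x, y) :=
    (continuous_const.mul (pl_cont m n c3 c2 c1)).neg.continuousAt.div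
      (fm_cont m n c1 c3).continuousAt hu
  have h2 : ContinuousAt (fun q : (Fin 3 → k) × (Fin 3 → k) × (Fin 3 → k) =>
      (-(2 * pl m n q.2.2 q.2.1 q.1) / fm m n q.1 q.2.2) • q.1) (u, x, y) :=
    h1.smul c1.continuousAt
  exact c2.continuousAt.add h2

/-- **`X`-steps preserve the closure.** -/
theorem xst (hm : ∀ i a b, m i a b = m i b a) (hσ : DenseRange fun (b : K) (v : ι) => σ v b)
    {P Q : ∀ v, (Fin 3 → L v) × (Fin 3 → L v)} (hP : P ∈ closure (kp σ m n))
    (hPQ : ∀ v, XS (fun i a b => σ v (m i a b)) (fun i a b => σ v (n i a b)) (P v) (Q v)) :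
    Q ∈ closure (kp σ m n) := by
  classical
  rcases isEmpty_or_nonempty ι with hι | ⟨⟨v₀⟩⟩
  · have : Q = P := Subsingleton.elim _ _
    rwa [this]
  choose u hu hQ using hPQ
  let Ψ : (∀ v, Fin 3 → L v) × (∀ v, (Fin 3 → L v) × (Fin 3 → L v)) →
      (∀ v, (Fin 3 → L v) × (Fin 3 → L v)) := fun q v =>
    (rf (fun i a b => σ v (m i a b)) (fun i a b => σ v (n i a b)) (q.2 v).2 (q.1 v) (q.2 v).1,
      (q.2 v).2)
  have hQ' : Q = Ψ (u, P) := funext hQ
  have c1 : ∀ v, Continuous fun q : (∀ v, Fin 3 → L v) ×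
      (∀ v, (Fin 3 → L v) × (Fin 3 → L v)) => q.1 v := fun v => by fun_prop
  have c2 : ∀ v, Continuous fun q : (∀ v, Fin 3 → L v) ×
      (∀ v, (Fin 3 → L v) × (Fin 3 → L v)) => q.2 v := fun v => by fun_prop
  have hΨc : ContinuousAt Ψ (u, P) := by
    refine continuousAt_pi.2 fun v => ?_
    have h1 := rf_contAt (fun i a b => σ v (m i a b)) (fun i a b => σ v (n i a b))
      (x := (P v).1) (hu v)
    have h2 : ContinuousAt (fun q : (∀ v, Fin 3 → L v) ×
        (∀ v, (Fin 3 → L v) × (Fin 3 → L v)) => (q.1 v, q.2 v)) (u, P) :=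
      ((c1 v).prodMk (c2 v)).continuousAt
    have h3 : ContinuousAt (fun q : (Fin 3 → L v) × (Fin 3 → L v) × (Fin 3 → L v) =>
        (rf (fun i a b => σ v (m i a b)) (fun i a b => σ v (n i a b)) q.2.2 q.1 q.2.1, q.2.2))
        (u v, (P v).1, (P v).2) := by
      refine h1.prodMk ?_
      have : Continuous fun q : (Fin 3 → L v) × (Fin 3 → L v) × (Fin 3 → L v) => q.2.2 := by
        fun_prop
      exact this.continuousAt
    exact ContinuousAt.comp (g := fun q : (Fin 3 → L v) × (Fin 3 → L v) × (Fin 3 → L v) =>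
        (rf (fun i a b => σ v (m i a b)) (fun i a b => σ v (n i a b)) q.2.2 q.1 q.2.1, q.2.2))
      (f := fun q : (∀ v, Fin 3 → L v) × (∀ v, (Fin 3 → L v) × (Fin 3 → L v)) =>
        (q.1 v, q.2 v)) h3 h2
  rw [hQ', mem_closure_iff_nhds]
  intro O hO
  have hW : Ψ ⁻¹' O ∩ {q | fm (fun i a b => σ v₀ (m i a b)) (fun i a b => σ v₀ (n i a b))
      (q.1 v₀) (q.2 v₀).2 ≠ 0} ∈ 𝓝 (u, P) :=
    Filter.inter_mem (hΨc hO)
      ((fm_cont _ _ (c1 v₀) (continuous_snd.comp (c2 v₀))).continuousAt.eventually_ne (hu v₀))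
  have hcl : (u, P) ∈ closure ({S : ∀ v, Fin 3 → L v | ∃ w : Fin 3 → K,
      S = fun v i => σ v (w i)} ×ˢ kp σ m n) := by
    rw [closure_prod_eq]
    exact ⟨dens3 σ hσ u, hP⟩
  obtain ⟨⟨_, _⟩, ⟨hq1, hq2⟩, ⟨w, rfl⟩, ⟨x, y, hz, rfl⟩⟩ := mem_closure_iff_nhds.1 hcl _ hW
  have hne : fm m n w y ≠ 0 := by
    intro h
    apply hq2
    change fm (fun i a b => σ v₀ (m i a b)) (fun i a b => σ v₀ (n i a b))
      (fun i => σ v₀ (w i)) (fun i => σ v₀ (y i)) = 0
    rw [fm_map, h, map_zero]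
  refine ⟨_, hq1, rf m n y w x, y, rf_on n hm hz hne, ?_⟩
  funext v
  refine Prod.ext ?_ rfl
  funext i
  change (rf (fun i a b => σ v (m i a b)) (fun i a b => σ v (n i a b)) (fun i => σ v (y i))
    (fun i => σ v (w i)) (fun i => σ v (x i))) i = σ v (rf m n y w x i)
  simp only [rf, Pi.add_apply, Pi.smul_apply, smul_eq_mul]
  rw [fm_map, pl_map, map_add, map_mul, map_div₀, map_neg, map_mul, map_ofNat]

theorem swap_cl {P : ∀ v, (Fin 3 → L v) × (Fin 3 → L v)} (hP : P ∈ closure (kp σ m n)) :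
    (fun v => (P v).swap) ∈ closure (kp σ n m) := by
  have hc : Continuous fun (P : ∀ v, (Fin 3 → L v) × (Fin 3 → L v)) v => (P v).swap :=
    continuous_pi fun v => continuous_swap.comp (continuous_apply v)
  refine map_mem_closure hc hP ?_
  rintro _ ⟨x, y, h, rfl⟩
  exact ⟨y, x, by rw [fm_swap]; exact h, rfl⟩

/-- **`Y`-steps preserve the closure.** -/
theorem yst (hn : ∀ i a b, n i a b = n i b a) (hσ : DenseRange fun (b : K) (v : ι) => σ v b)
    {P Q : ∀ v, (Fin 3 → L v) × (Fin 3 → L v)} (hP : P ∈ closure (kp σ m n))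
    (hPQ : ∀ v, YS (fun i a b => σ v (m i a b)) (fun i a b => σ v (n i a b)) (P v) (Q v)) :
    Q ∈ closure (kp σ m n) := by
  have h1 := xst σ n m hn hσ (swap_cl σ m n hP) (Q := fun v => (Q v).swap) hPQ
  exact swap_cl σ n m h1

end clo

end CLO

open CLO in
theorem clo : StmCLO := by
  classical
  intro K ι _ L _ σ hσ m n h2 hm hn w
  induction w with
  | nil =>
    intro G P Q hG hN hcl
    have : P = Q := by
      funext v
      by_cases hv : v ∈ G
      · exact (hG v hv).2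
      · exact (hN v hv).1
    rwa [← this]
  | cons b w ih =>
    intro G P Q hG hN hcl
    have h2v : ∀ v, (2 : L v) ≠ 0 := fun v hc => h2 ((σ v).injective (by rw [map_ofNat, map_zero, hc]))
    have h : ∀ v, ∃ r, (v ∈ G → fm (fun i a b => σ v (m i a b)) (fun i a b => σ v (n i a b))
        r.1 r.2 = 0 ∧ St (fun i a b => σ v (m i a b)) (fun i a b => σ v (n i a b)) b (P v) r ∧
        Wd (fun i a b => σ v (m i a b)) (fun i a b => σ v (n i a b)) w r (Q v)) ∧
        (v ∉ G → r = P v) := by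
      intro v
      by_cases hv : v ∈ G
      · obtain ⟨r, hr⟩ := (hG v hv).2
        exact ⟨r, fun _ => hr, fun h => absurd hv h⟩
      · exact ⟨P v, fun h => absurd h hv, fun _ => rfl⟩
    choose R hR1 hR2 using h
    refine ih G R Q (fun v hv => ⟨(hR1 v hv).1, (hR1 v hv).2.2⟩) ?_ ?_
    · intro v hv
      rw [hR2 v hv]
      exact hN v hv
    · change R ∈ closure (kp σ m n)
      change P ∈ closure (kp σ m n) at hcl
      cases b with
      | true =>
        refine xst σ m n hm hσ hcl fun v => ?_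
        by_cases hv : v ∈ G
        · exact xs_st (fun i a b => by rw [hm i a b]) (h2v v) (hG v hv).1 (hR1 v hv).1
            (hR1 v hv).2.1
        · rw [hR2 v hv]
          obtain ⟨-, h1, h3, h4, h5, h6⟩ := hN v hv
          exact xs_stay (fun i a b => by rw [hm i a b]) h1 h4 h5
      | false =>
        refine yst σ m n hn hσ hcl fun v => ?_
        by_cases hv : v ∈ G
        · exact ys_st (fun i a b => by rw [hn i a b]) (h2v v) (hG v hv).1 (hR1 v hv).1
            (hR1 v hv).2.1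
        · rw [hR2 v hv]
          obtain ⟨-, h1, h3, h4, h5, h6⟩ := hN v hv
          exact ys_stay (fun i a b => by rw [hn i a b]) h3 h4 h6

end Pool.Agent.T6.H77.RK
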