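import Pool.Agent.T6.H77.DW.Defs

/-!
# Hypersurfaces of bidegree (2, 2) of rank three: definitions (helper77)
-/

set_option autoImplicit false

namespace Pool.Agent.T6.H77.RK

/-- the three bilinear forms `q_i(x, x') = ∑ a, ∑ b, m_iab x_a x'_b`; `q_i(x) = q_i(x, x)` -/
def bq {k : Type} [Field k] (m : Fin 3 → Fin 3 → Fin 3 → k) (x x' : Fin 3 → k) (i : Fin 3) : k :=
  ∑ a, ∑ b, m i a b * x a * x' b

/-- `F(x, y) = ∑ i, q_i(x) Q_i(y)`, `q` given by `m` and `Q` by `n` -/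
def fm {k : Type} [Field k] (m n : Fin 3 → Fin 3 → Fin 3 → k) (x y : Fin 3 → k) : k :=
  ∑ i, bq m x x i * bq n y y i

/-- the bilinear form `∑ i, q_i(x, x') Q_i(y)` of the quadratic form `F(·, y)` -/
def pl {k : Type} [Field k] (m n : Fin 3 → Fin 3 → Fin 3 → k) (y x x' : Fin 3 → k) : k :=
  ∑ i, bq m x x' i * bq n y y i

/-- the matrix of the linear map `x' ↦ q(x, x')` -/
def jm {k : Type} [Field k] (m : Fin 3 → Fin 3 → Fin 3 → k) (x : Fin 3 → k) :
    Matrix (Fin 3) (Fin 3) k := Matrix.of fun i b => ∑ a, m i a b * x a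

/-- the matrix of the quadratic form `F(·, y)` -/
def dm {k : Type} [Field k] (m n : Fin 3 → Fin 3 → Fin 3 → k) (y : Fin 3 → k) :
    Matrix (Fin 3) (Fin 3) k := Matrix.of fun a b => ∑ i, m i a b * bq n y y i

/-- Good triples of ternary quadratic forms over a finite field `k`: symmetric, the map
`q : k³ → k³` has fibres with at most `8` elements, `q(x, ·)` has rank at least two for all `x ≠ 0`,
and rank three for some `x`. -/
structure Gq {k : Type} [Field k] (m : Fin 3 → Fin 3 → Fin 3 → k) : Prop where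
  sym : ∀ i a b, m i a b = m i b a
  fib : ∀ c : Fin 3 → k, {x : Fin 3 → k | ∀ i, bq m x x i = c i}.ncard ≤ 8
  rk : ∀ x : Fin 3 → k, x ≠ 0 → ∀ u v : Fin 3 → k, (∀ z, ∑ i, u i * bq m x z i = 0) →
    (∀ z, ∑ i, v i * bq m x z i = 0) → ∀ i j, u i * v j = u j * v i
  jac : ∃ x : Fin 3 → k, (jm m x).det ≠ 0

/-- Good hypersurfaces over a finite field `k`: `2 ≠ 0`, `q` and `Q` are good, some of the conics
`F(·, y) = 0` and some of the conics `F(x, ·) = 0` are smooth, and `F(x, y) = 0` is smooth at its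
`k`-points. -/
structure Gd {k : Type} [Field k] (m n : Fin 3 → Fin 3 → Fin 3 → k) : Prop where
  two : (2 : k) ≠ 0
  gm : Gq m
  gn : Gq n
  dx : ∃ y : Fin 3 → k, (dm m n y).det ≠ 0
  dy : ∃ x : Fin 3 → k, (dm n m x).det ≠ 0
  sm : ∀ x y : Fin 3 → k, x ≠ 0 → y ≠ 0 → fm m n x y = 0 →
    (∃ x', pl m n y x x' ≠ 0) ∨ ∃ y', pl n m x y y' ≠ 0

/-- a move: `true` along the conic `F(·, y) = 0`, `false` along the conic `F(x, ·) = 0` -/
def St {k : Type} [Field k] (m n : Fin 3 → Fin 3 → Fin 3 → k) (b : Bool)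
    (p q : (Fin 3 → k) × (Fin 3 → k)) : Prop :=
  if b then p.2 = q.2 ∧ pl m n p.2 p.1 q.1 ≠ 0 else p.1 = q.1 ∧ pl n m p.1 p.2 q.2 ≠ 0

/-- a chain of moves through points of `F = 0`, of the types given by a word -/
def Wd {k : Type} [Field k] (m n : Fin 3 → Fin 3 → Fin 3 → k) :
    List Bool → (Fin 3 → k) × (Fin 3 → k) → (Fin 3 → k) × (Fin 3 → k) → Prop
  | [], p, q => p = q
  | b :: w, p, q => ∃ r, fm m n r.1 r.2 = 0 ∧ St m n b p r ∧ Wd m n w r q

end Pool.Agent.T6.H77.RK
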