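import Pool.Agent.T6.H77.RK.Stm

/-!
# Hypersurfaces of bidegree (2, 2) of rank three: large finite fields (helper40)
-/

set_option autoImplicit false

namespace Pool.Agent.T6.H77.RK

namespace FQ

variable {k : Type} [Field k]

lemma fm_comm (m n : Fin 3 → Fin 3 → Fin 3 → k) (x y : Fin 3 → k) :
    fm n m y x = fm m n x y := by
  unfold fm
  exact Finset.sum_congr rfl fun i _ => mul_comm _ _

lemma bq_symm {m : Fin 3 → Fin 3 → Fin 3 → k} (hm : ∀ i a b, m i a b = m i b a)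
    (x x' : Fin 3 → k) (i : Fin 3) : bq m x x' i = bq m x' x i := by
  unfold bq
  rw [Finset.sum_comm]
  refine Finset.sum_congr rfl fun b _ => Finset.sum_congr rfl fun a _ => ?_
  rw [hm i a b]
  ring

lemma pl_symm {m : Fin 3 → Fin 3 → Fin 3 → k} (n : Fin 3 → Fin 3 → Fin 3 → k)
    (hm : ∀ i a b, m i a b = m i b a) (y x x' : Fin 3 → k) : pl m n y x x' = pl m n y x' x := by
  unfold pl
  exact Finset.sum_congr rfl fun i _ => by rw [bq_symm hm]

lemma bq_zero_left (m : Fin 3 → Fin 3 → Fin 3 → k) (x' : Fin 3 → k) (i : Fin 3) :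
    bq m 0 x' i = 0 := by simp [bq]

lemma bq_zero_right (m : Fin 3 → Fin 3 → Fin 3 → k) (x : Fin 3 → k) (i : Fin 3) :
    bq m x 0 i = 0 := by simp [bq]

lemma ne_y {m n : Fin 3 → Fin 3 → Fin 3 → k} {y x x' : Fin 3 → k} (h : pl m n y x x' ≠ 0) :
    y ≠ 0 := by
  rintro rfl
  exact h (by simp [pl, bq_zero_left])

lemma ne_x {m n : Fin 3 → Fin 3 → Fin 3 → k} {y x x' : Fin 3 → k} (h : pl m n y x x' ≠ 0) :
    x ≠ 0 := by
  rintro rfl
  exact h (by simp [pl, bq_zero_left])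

lemma ne_x' {m n : Fin 3 → Fin 3 → Fin 3 → k} {y x x' : Fin 3 → k} (h : pl m n y x x' ≠ 0) :
    x' ≠ 0 := by
  rintro rfl
  exact h (by simp [pl, bq_zero_right])

omit [Field k] in
/-- a large set without a small set -/
lemma large [Fintype k] {B Z : Set (Fin 3 → k)} {c : ℕ} (hq : 256 * c + 256 * c ≤ Fintype.card k)
    (hB : Fintype.card k ^ 3 ≤ 256 * B.ncard) (hZ : Z.ncard ≤ c * Fintype.card k ^ 2) :
    Fintype.card k ^ 3 ≤ 512 * (B \ Z).ncard := by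
  have h1 : B.ncard ≤ (B \ Z).ncard + Z.ncard := by
    have h2 : B ⊆ (B \ Z) ∪ Z := by
      intro x hx
      by_cases h : x ∈ Z
      · exact Or.inr h
      · exact Or.inl ⟨hx, h⟩
    exact (Set.ncard_le_ncard h2 (Set.toFinite _)).trans (Set.ncard_union_le _ _)
  have h3 : (256 * c + 256 * c) * Fintype.card k ^ 2 ≤ Fintype.card k * Fintype.card k ^ 2 :=
    Nat.mul_le_mul hq le_rfl
  have h4 : Fintype.card k * Fintype.card k ^ 2 = Fintype.card k ^ 3 := by ring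
  nlinarith

end FQ

open FQ in
theorem fq (hJ : StmZJ) (hD : StmZD) (hC : StmCO) (hB : StmBAD) (hG : StmGX) (hM : StmMIX)
    (hT : StmTW) : StmFQ := by
  obtain ⟨q1, hG⟩ := hG
  obtain ⟨q2, hM⟩ := hM 512
  refine ⟨max (max q1 q2) 4608, ?_⟩
  intro k _ _ m n hq hd x y x' y' hF hsm hF' hsm'
  have hq1 : q1 ≤ Fintype.card k := ((le_max_left _ _).trans (le_max_left _ _)).trans hq
  have hq2 : q2 ≤ Fintype.card k := ((le_max_right _ _).trans (le_max_left _ _)).trans hq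
  have hq3 : 4608 ≤ Fintype.card k := (le_max_right _ _).trans hq
  have hm := hd.gm
  have hn := hd.gn
  -- the chains from the first point
  have hB1 := hG k n m hq1 hd.two hn hm y x (by rw [fm_comm]; exact hF) hsm
  set B : Set (Fin 3 → k) := {x₂ | ∃ x₁ y₁ : Fin 3 → k, fm n m x₁ x = 0 ∧ pl n m x y x₁ ≠ 0 ∧
    fm n m x₁ y₁ = 0 ∧ pl m n x₁ x y₁ ≠ 0 ∧ fm n m x₂ y₁ = 0 ∧ pl n m y₁ x₁ x₂ ≠ 0} with hBdef
  -- the first move from the second point
  have hx'0 : x' ≠ 0 := by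
    obtain ⟨z, hz⟩ := hsm'
    exact ne_y hz
  obtain ⟨y'', hF'', hmv, hsm''⟩ : ∃ y'' : Fin 3 → k, fm m n x' y'' = 0 ∧
      pl n m x' y' y'' ≠ 0 ∧ ∃ z, pl m n y'' x' z ≠ 0 := by
    have h1 := hC k n m hd.two hn.sym y' x' (by rw [fm_comm]; exact hF') hsm'
    have h2 := hB k n m hn hm x' hx'0
    by_contra hcon
    push Not at hcon
    have h3 : {x'_1 | fm n m x'_1 x' = 0 ∧ pl n m x' y' x'_1 ≠ 0} ⊆
        {x | ∀ y', pl m n x x' y' = 0} := by
      rintro u ⟨hu1, hu2⟩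
      rw [fm_comm] at hu1
      exact hcon u hu1 hu2
    have h4 := Set.ncard_le_ncard h3 (Set.toFinite _)
    have h5 : Fintype.card k ^ 2 ≤ 9 * Fintype.card k := by omega
    have h6 : 4608 * Fintype.card k ≤ Fintype.card k * Fintype.card k :=
      Nat.mul_le_mul hq3 le_rfl
    nlinarith
  -- the chains from the second point
  have hA1 := hG k m n hq1 hd.two hm hn x' y'' hF'' hsm''
  set A : Set (Fin 3 → k) := {x₂ | ∃ x₁ y₁ : Fin 3 → k, fm m n x₁ y'' = 0 ∧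
    pl m n y'' x' x₁ ≠ 0 ∧ fm m n x₁ y₁ = 0 ∧ pl n m x₁ y'' y₁ ≠ 0 ∧ fm m n x₂ y₁ = 0 ∧
    pl m n y₁ x₁ x₂ ≠ 0} with hAdef
  -- the exceptional sets
  have hZ1 : ({w | (dm m n w).det = 0} ∪ {w | (jm n w).det = 0} : Set (Fin 3 → k)).ncard ≤
      9 * Fintype.card k ^ 2 := by
    have h1 := hD k m n hd.dx
    have h2 := hJ k n hn.jac
    refine (Set.ncard_union_le _ _).trans ?_
    omega
  have hZ2 : ({z | (dm n m z).det = 0} : Set (Fin 3 → k)).ncard ≤ 9 * Fintype.card k ^ 2 := by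
    have h1 := hD k n m hd.dy
    omega
  have hB2 := large (by omega) hB1 hZ1
  have hA2 := large (by omega) hA1 hZ2
  obtain ⟨z, hz, w, hw, hzw⟩ := hM k m n hq2 hm hn _ _ hA2 hB2
  obtain ⟨⟨a1, b1, hz1, hz2, hz3, hz4, hz5, hz6⟩, hz0⟩ := hz
  obtain ⟨⟨y1, x1, hw1, hw2, hw3, hw4, hw5, hw6⟩, hw0⟩ := hw
  have hdw : (dm m n w).det ≠ 0 := fun h => hw0 (Or.inl h)
  have hjw : (jm n w).det ≠ 0 := fun h => hw0 (Or.inr h)
  have hdz : (dm n m z).det ≠ 0 := fun h => hz0 h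
  rw [fm_comm] at hw1 hw3 hw5
  obtain ⟨u, hu1, hu2, hu3⟩ := hT k m n hd.two hm.sym w hdw x1 z (ne_x' hw4) (ne_x' hz6) hw5 hzw
  obtain ⟨v, hv1, hv2, hv3⟩ := hT k n m hd.two hn.sym z hdz b1 w (ne_x' hz4) (ne_x' hw6)
    (by rw [fm_comm]; exact hz5) (by rw [fm_comm]; exact hzw)
  rw [fm_comm] at hv1
  rw [pl_symm n hm.sym] at hu3
  rw [pl_symm m hn.sym] at hv3
  refine ⟨z, w, hzw, hdw, hdz, hjw, ?_, ?_⟩
  · refine ⟨(x, y1), hw1, ?_, (x1, y1), hw3, ?_, (x1, w), hw5, ?_, (u, w), hu1, ?_, (z, w), hzw,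
      ?_, rfl⟩
    · simpa [St] using hw2
    · simpa [St] using hw4
    · simpa [St] using hw6
    · simpa [St] using hu2
    · simpa [St] using hu3
  · refine ⟨(x', y''), hF'', ?_, (a1, y''), hz1, ?_, (a1, b1), hz3, ?_, (z, b1), hz5, ?_,
      (z, v), hv1, ?_, (z, w), hzw, ?_, rfl⟩
    · simpa [St] using hmv
    · simpa [St] using hz2
    · simpa [St] using hz4
    · simpa [St] using hz6
    · simpa [St] using hv2
    · simpa [St] using hv3

end Pool.Agent.T6.H77.RK
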