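import Pool.Agent.T6.H77.RK.Stm
import Pool.Agent.T6.H77.DW.MX

/-!
# Hypersurfaces of bidegree (2, 2) of rank three: growth (helper75)
-/

set_option autoImplicit false

open Finset
open scoped Classical

namespace Pool.Agent.T6.H77.RK

namespace GX

variable {k : Type} [Field k] [Fintype k]

lemma card_pre {V W : Type} [Fintype V] [Fintype W] (g : V → W) (N : ℕ)
    (hg : ∀ w, {v | g v = w}.ncard ≤ N) (P : W → Prop) [DecidablePred P]
    [DecidablePred (fun v => P (g v))] :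
    (univ.filter (fun v => P (g v))).card ≤ N * (univ.filter P).card := by
  apply Finset.card_le_mul_card_image_of_maps_to (f := g)
  · intro a ha
    simp only [mem_filter, mem_univ, true_and] at ha ⊢
    exact ha
  · intro b _
    have h1 := hg b
    rw [DW.MX.ncard_eq] at h1
    refine le_trans (Finset.card_le_card ?_) h1
    intro a ha
    simp only [mem_filter, mem_univ, true_and] at ha ⊢
    exact ha.2

lemma fib_le {m : Fin 3 → Fin 3 → Fin 3 → k} (hm : Gq m) (w : Fin 3 → k) :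
    {v : Fin 3 → k | bq m v v = w}.ncard ≤ 8 := by
  refine le_trans (Set.ncard_le_ncard ?_ (Set.toFinite _)) (hm.fib w)
  intro v hv i
  exact congrFun hv i

/-- vectors proportional to a non zero vector -/
lemma card_prop {u : Fin 3 → k} (hu : ∃ i, u i ≠ 0)
    [DecidablePred (fun v : Fin 3 → k => ∀ i j, u i * v j = u j * v i)] :
    (univ.filter (fun v : Fin 3 → k => ∀ i j, u i * v j = u j * v i)).card ≤ Fintype.card k := by
  obtain ⟨i, hi⟩ := hu
  rw [← Finset.card_univ (α := k)]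
  apply Finset.card_le_card_of_injOn (fun v => v i)
  · intro v _
    simp
  · intro v hv w hw hvw
    simp only [coe_filter, mem_univ, true_and, Set.mem_ofPred_eq] at hv hw
    ext j
    have h1 := hv i j
    have h2 := hw i j
    have h3 : v i = w i := hvw
    rw [h3, ← h2] at h1
    exact mul_left_cancel₀ hi h1

lemma card_one {v : Fin 3 → k} (hv : ∃ i, v i ≠ 0)
    [DecidablePred (fun X : Fin 3 → k => ∑ i, X i * v i = 0)] :
    (univ.filter (fun X : Fin 3 → k => ∑ i, X i * v i = 0)).card = Fintype.card k ^ 2 := by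
  rw [← DW.MX.card_one hv]
  congr

lemma card_two {v w : Fin 3 → k} (h : ∃ i j, v i * w j ≠ v j * w i)
    [DecidablePred (fun X : Fin 3 → k => ∑ i, X i * v i = 0 ∧ ∑ i, X i * w i = 0)] :
    (univ.filter (fun X : Fin 3 → k => ∑ i, X i * v i = 0 ∧ ∑ i, X i * w i = 0)).card =
      Fintype.card k := by
  rw [← DW.MX.card_two h]
  congr

omit [Fintype k] in
lemma bq_smul (m : Fin 3 → Fin 3 → Fin 3 → k) (c : k) (x : Fin 3 → k) (i : Fin 3) :
    bq m (c • x) (c • x) i = c ^ 2 * bq m x x i := by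
  unfold bq
  rw [Finset.mul_sum]
  refine Finset.sum_congr rfl fun a _ => ?_
  rw [Finset.mul_sum]
  refine Finset.sum_congr rfl fun b _ => ?_
  simp only [Pi.smul_apply, smul_eq_mul]
  ring

omit [Fintype k] in
lemma bq_zero_left (m : Fin 3 → Fin 3 → Fin 3 → k) (x : Fin 3 → k) (i : Fin 3) :
    bq m 0 x i = 0 := by
  unfold bq
  simp

omit [Fintype k] in
lemma bq_zero_right (m : Fin 3 → Fin 3 → Fin 3 → k) (x : Fin 3 → k) (i : Fin 3) :
    bq m x 0 i = 0 := by
  unfold bq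
  simp

lemma q_ne {m : Fin 3 → Fin 3 → Fin 3 → k} (hm : Gq m) (hq : 100 ≤ Fintype.card k)
    {x : Fin 3 → k} (hx : x ≠ 0) : ∃ i, bq m x x i ≠ 0 := by
  by_contra hc
  push Not at hc
  have h1 := hm.fib 0
  rw [DW.MX.ncard_eq] at h1
  have h2 : (univ : Finset k).card ≤
      (univ.filter (fun x : Fin 3 → k => ∀ i, bq m x x i = (0 : Fin 3 → k) i)).card := by
    apply Finset.card_le_card_of_injOn (fun c => c • x)
    · intro c _
      simp only [coe_filter, mem_univ, true_and, Set.mem_ofPred_eq]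
      intro i
      rw [bq_smul, hc i]
      simp
    · intro c _ d _ hcd
      obtain ⟨i, hi⟩ : ∃ i, x i ≠ 0 := by
        by_contra hh
        push Not at hh
        exact hx (funext hh)
      have h3 := congrFun hcd i
      simp only [Pi.smul_apply, smul_eq_mul] at h3
      exact mul_right_cancel₀ hi h3
  rw [Finset.card_univ] at h2
  omega

omit [Fintype k] in
lemma fm_comm (m n : Fin 3 → Fin 3 → Fin 3 → k) (x y : Fin 3 → k) :
    fm m n x y = fm n m y x := by
  unfold fm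
  exact Finset.sum_congr rfl fun i _ => mul_comm _ _

omit [Fintype k] in
lemma pl_zero_x (m n : Fin 3 → Fin 3 → Fin 3 → k) (y x' : Fin 3 → k) :
    pl m n y 0 x' = 0 := by
  unfold pl
  exact Finset.sum_eq_zero fun i _ => by rw [bq_zero_left, zero_mul]

omit [Fintype k] in
lemma pl_zero_x' (m n : Fin 3 → Fin 3 → Fin 3 → k) (y x : Fin 3 → k) :
    pl m n y x 0 = 0 := by
  unfold pl
  exact Finset.sum_eq_zero fun i _ => by rw [bq_zero_right, zero_mul]

omit [Fintype k] in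
lemma pl_zero_y (m n : Fin 3 → Fin 3 → Fin 3 → k) (x x' : Fin 3 → k) :
    pl m n 0 x x' = 0 := by
  unfold pl
  exact Finset.sum_eq_zero fun i _ => by rw [bq_zero_left, mul_zero]

/-- number of pairs with the same end point -/
lemma card_pairs {m n : Fin 3 → Fin 3 → Fin 3 → k} (hm : Gq m) (hn : Gq n)
    (hq : 100 ≤ Fintype.card k) {y x₂ : Fin 3 → k} (hy : y ≠ 0) (hx₂ : x₂ ≠ 0) :
    ((univ.filter (fun y₁ : Fin 3 → k => fm m n x₂ y₁ = 0)).sigma
      (fun y₁ => univ.filter (fun x₁ : Fin 3 → k => fm m n x₁ y = 0 ∧ fm m n x₁ y₁ = 0))).card ≤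
      128 * Fintype.card k ^ 3 := by
  set q := Fintype.card k with hqd
  have hQy := q_ne hn hq hy
  have hqx := q_ne hm hq hx₂
  rw [Finset.card_sigma]
  -- the plane of the y₁
  have h1 : (univ.filter (fun y₁ : Fin 3 → k => fm m n x₂ y₁ = 0)).card ≤ 8 * q ^ 2 := by
    have h := card_pre (fun v => bq n v v) 8 (fib_le hn)
      (fun w => ∑ i, w i * bq m x₂ x₂ i = 0)
    rw [card_one hqx] at h
    refine le_trans (Finset.card_le_card ?_) h
    intro v hv
    simp only [mem_filter, mem_univ, true_and] at hv ⊢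
    rw [← hv]
    unfold fm
    exact Finset.sum_congr rfl fun i _ => mul_comm _ _
  -- the plane of the x₁
  have h2 : ∀ y₁ : Fin 3 → k, (univ.filter (fun x₁ : Fin 3 → k => fm m n x₁ y = 0 ∧
      fm m n x₁ y₁ = 0)).card ≤ 8 * q ^ 2 := by
    intro y₁
    have h := card_pre (fun v => bq m v v) 8 (fib_le hm)
      (fun w => ∑ i, w i * bq n y y i = 0)
    rw [card_one hQy] at h
    refine le_trans (Finset.card_le_card ?_) h
    intro v hv
    simp only [mem_filter, mem_univ, true_and] at hv ⊢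
    exact hv.1
  -- the line of the x₁
  have h3 : ∀ y₁ : Fin 3 → k, (¬ ∀ i j, bq n y y i * bq n y₁ y₁ j = bq n y y j * bq n y₁ y₁ i) →
      (univ.filter (fun x₁ : Fin 3 → k => fm m n x₁ y = 0 ∧ fm m n x₁ y₁ = 0)).card ≤ 8 * q := by
    intro y₁ hne
    push Not at hne
    have h := card_pre (fun v => bq m v v) 8 (fib_le hm)
      (fun w => ∑ i, w i * bq n y y i = 0 ∧ ∑ i, w i * bq n y₁ y₁ i = 0)
    rw [card_two hne] at h
    refine le_trans (Finset.card_le_card ?_) h
    intro v hv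
    simp only [mem_filter, mem_univ, true_and] at hv ⊢
    exact hv
  -- the y₁ with proportional Q
  have h4 : (univ.filter (fun y₁ : Fin 3 → k =>
      ∀ i j, bq n y y i * bq n y₁ y₁ j = bq n y y j * bq n y₁ y₁ i)).card ≤ 8 * q := by
    have h := card_pre (fun v => bq n v v) 8 (fib_le hn)
      (fun w => ∀ i j, bq n y y i * w j = bq n y y j * w i)
    exact le_trans h (Nat.mul_le_mul_left 8 (card_prop hQy))
  have h5 : ∀ y₁ ∈ univ.filter (fun y₁ : Fin 3 → k => fm m n x₂ y₁ = 0),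
      (univ.filter (fun x₁ : Fin 3 → k => fm m n x₁ y = 0 ∧ fm m n x₁ y₁ = 0)).card ≤
      8 * q + if (∀ i j, bq n y y i * bq n y₁ y₁ j = bq n y y j * bq n y₁ y₁ i) then
        8 * q ^ 2 else 0 := by
    intro y₁ _
    by_cases h : ∀ i j, bq n y y i * bq n y₁ y₁ j = bq n y y j * bq n y₁ y₁ i
    · rw [if_pos h]
      exact le_trans (h2 y₁) (Nat.le_add_left _ _)
    · rw [if_neg h, add_zero]
      exact h3 y₁ h
  refine le_trans (Finset.sum_le_sum h5) ?_
  rw [Finset.sum_add_distrib, Finset.sum_const, smul_eq_mul, ← Finset.sum_filter,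
    Finset.sum_const, smul_eq_mul]
  have h6 : ((univ.filter (fun y₁ : Fin 3 → k => fm m n x₂ y₁ = 0)).filter
      (fun y₁ => ∀ i j, bq n y y i * bq n y₁ y₁ j = bq n y y j * bq n y₁ y₁ i)).card ≤ 8 * q :=
    le_trans (Finset.card_le_card (Finset.filter_subset_filter _ (Finset.subset_univ _))) h4
  calc _ ≤ (8 * q ^ 2) * (8 * q) + (8 * q) * (8 * q ^ 2) :=
        Nat.add_le_add (Nat.mul_le_mul_right _ h1) (Nat.mul_le_mul_right _ h6)
    _ = 128 * q ^ 3 := by ring

end GX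

theorem bad : StmBAD := by
  intro k _ _ m n hm hn y hy
  have hrk := hn.rk y hy
  rw [DW.MX.ncard_eq]
  have hS : ∀ x : Fin 3 → k, (∀ y', pl n m x y y' = 0) → ∀ z, ∑ i, bq m x x i * bq n y z i = 0 := by
    intro x hx z
    rw [← hx z]
    unfold pl
    exact Finset.sum_congr rfl fun i _ => mul_comm _ _
  by_cases h0 : ∃ x₀ : Fin 3 → k, (∀ y', pl n m x₀ y y' = 0) ∧ ∃ i, bq m x₀ x₀ i ≠ 0
  · obtain ⟨x₀, hx₀, hi⟩ := h0
    have h := GX.card_pre (fun v => bq m v v) 8 (GX.fib_le hm)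
      (fun w => ∀ i j, bq m x₀ x₀ i * w j = bq m x₀ x₀ j * w i)
    refine le_trans (Finset.card_le_card ?_) (le_trans h (Nat.mul_le_mul_left 8 (GX.card_prop hi)))
    intro x hx
    simp only [mem_filter, mem_univ, true_and] at hx ⊢
    exact hrk _ _ (hS x₀ hx₀) (hS x hx)
  · push Not at h0
    have h1 := hm.fib 0
    rw [DW.MX.ncard_eq] at h1
    have h2 : 0 < Fintype.card k := Fintype.card_pos
    refine le_trans (Finset.card_le_card ?_) (le_trans h1 (by omega))
    intro x hx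
    simp only [mem_filter, mem_univ, true_and] at hx ⊢
    exact h0 x hx

theorem gx (hC : StmCO) (hB : StmBAD) : StmGX := by
  refine ⟨100, ?_⟩
  intro k _ _ m n hq h2 hm hn x y hxy hx'
  set q := Fintype.card k with hqd
  have hy : y ≠ 0 := by
    rintro rfl
    obtain ⟨x', hx'⟩ := hx'
    exact hx' (GX.pl_zero_y m n x x')
  -- first step
  let A₁ : Finset (Fin 3 → k) := univ.filter (fun x₁ => fm m n x₁ y = 0 ∧ pl m n y x x₁ ≠ 0 ∧
    ∃ y', pl n m x₁ y y' ≠ 0)
  let A₂ : (Fin 3 → k) → Finset (Fin 3 → k) := fun x₁ => univ.filter (fun y₁ =>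
    fm m n x₁ y₁ = 0 ∧ pl n m x₁ y y₁ ≠ 0 ∧ ∃ x', pl m n y₁ x₁ x' ≠ 0)
  let A₃ : (Fin 3 → k) → (Fin 3 → k) → Finset (Fin 3 → k) := fun x₁ y₁ => univ.filter (fun x₂ =>
    fm m n x₂ y₁ = 0 ∧ pl m n y₁ x₁ x₂ ≠ 0)
  have c1 : q ^ 2 ≤ A₁.card + 9 * q := by
    have h1 := hC k m n h2 hm.sym x y hxy hx'
    have h3 := hB k m n hm hn y hy
    rw [DW.MX.ncard_eq] at h1 h3
    have h4 : (univ.filter (fun x' => fm m n x' y = 0 ∧ pl m n y x x' ≠ 0)).card ≤
        (A₁ ∪ univ.filter (fun x => ∀ y', pl n m x y y' = 0)).card := by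
      apply Finset.card_le_card
      intro x₁ hx₁
      simp only [mem_union, mem_filter, mem_univ, true_and, A₁] at hx₁ ⊢
      by_cases h : ∀ y', pl n m x₁ y y' = 0
      · exact Or.inr h
      · push Not at h
        exact Or.inl ⟨hx₁.1, hx₁.2, h⟩
    have h5 := Finset.card_union_le A₁ (univ.filter (fun x => ∀ y', pl n m x y y' = 0))
    rw [← hqd] at h1 h3
    omega
  have c2 : ∀ x₁ ∈ A₁, q ^ 2 ≤ (A₂ x₁).card + 9 * q := by
    intro x₁ hx₁
    simp only [mem_filter, mem_univ, true_and, A₁] at hx₁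
    obtain ⟨hf, hp, he⟩ := hx₁
    have hx₁0 : x₁ ≠ 0 := by
      rintro rfl
      exact hp (GX.pl_zero_x' m n y x)
    have h1 := hC k n m h2 hn.sym y x₁ (by rw [GX.fm_comm]; exact hf) he
    have h3 := hB k n m hn hm x₁ hx₁0
    rw [DW.MX.ncard_eq] at h1 h3
    have h4 : (univ.filter (fun x' => fm n m x' x₁ = 0 ∧ pl n m x₁ y x' ≠ 0)).card ≤
        (A₂ x₁ ∪ univ.filter (fun x => ∀ y', pl m n x x₁ y' = 0)).card := by
      apply Finset.card_le_card
      intro y₁ hy₁
      simp only [mem_union, mem_filter, mem_univ, true_and, A₂] at hy₁ ⊢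
      by_cases h : ∀ y', pl m n y₁ x₁ y' = 0
      · exact Or.inr h
      · push Not at h
        exact Or.inl ⟨by rw [GX.fm_comm]; exact hy₁.1, hy₁.2, h⟩
    have h5 := Finset.card_union_le (A₂ x₁) (univ.filter (fun x => ∀ y', pl m n x x₁ y' = 0))
    rw [← hqd] at h1 h3
    omega
  have c3 : ∀ x₁ ∈ A₁, ∀ y₁ ∈ A₂ x₁, q ^ 2 ≤ (A₃ x₁ y₁).card + q := by
    intro x₁ hx₁ y₁ hy₁
    simp only [mem_filter, mem_univ, true_and, A₂] at hy₁
    obtain ⟨hf, hp, he⟩ := hy₁
    have h1 := hC k m n h2 hm.sym x₁ y₁ hf he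
    rw [DW.MX.ncard_eq] at h1
    exact h1
  let T : Finset (Σ _ : Fin 3 → k, Σ _ : Fin 3 → k, (Fin 3 → k)) :=
    A₁.sigma (fun x₁ => (A₂ x₁).sigma (fun y₁ => A₃ x₁ y₁))
  rw [DW.MX.ncard_eq]
  set N := (univ.filter (fun x₂ : Fin 3 → k => ∃ x₁ y₁ : Fin 3 → k, fm m n x₁ y = 0 ∧
    pl m n y x x₁ ≠ 0 ∧ fm m n x₁ y₁ = 0 ∧ pl n m x₁ y y₁ ≠ 0 ∧ fm m n x₂ y₁ = 0 ∧
    pl m n y₁ x₁ x₂ ≠ 0)) with hN
  obtain ⟨r, hr⟩ : ∃ r, q = r + 100 := ⟨q - 100, by omega⟩
  -- lower bound
  have l3 : ∀ x₁ ∈ A₁, ∀ y₁ ∈ A₂ x₁, (r + 100) * (r + 99) ≤ (A₃ x₁ y₁).card := by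
    intro x₁ hx₁ y₁ hy₁
    have := c3 x₁ hx₁ y₁ hy₁
    rw [hr] at this
    nlinarith
  have l2 : ∀ x₁ ∈ A₁, (r + 100) * (r + 91) ≤ (A₂ x₁).card := by
    intro x₁ hx₁
    have := c2 x₁ hx₁
    rw [hr] at this
    nlinarith
  have l1 : (r + 100) * (r + 91) ≤ A₁.card := by
    have := c1
    rw [hr] at this
    nlinarith
  have hT : (r + 100) * (r + 91) * ((r + 100) * (r + 91) * ((r + 100) * (r + 99))) ≤ T.card := by
    rw [Finset.card_sigma]
    calc _ ≤ A₁.card * ((r + 100) * (r + 91) * ((r + 100) * (r + 99))) :=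
          Nat.mul_le_mul_right _ l1
      _ = A₁.card • ((r + 100) * (r + 91) * ((r + 100) * (r + 99))) := rfl
      _ ≤ _ := by
          apply Finset.card_nsmul_le_sum
          intro x₁ hx₁
          rw [Finset.card_sigma]
          calc _ ≤ (A₂ x₁).card * ((r + 100) * (r + 99)) := Nat.mul_le_mul_right _ (l2 x₁ hx₁)
            _ = (A₂ x₁).card • ((r + 100) * (r + 99)) := rfl
            _ ≤ _ := Finset.card_nsmul_le_sum _ _ _ fun y₁ hy₁ => l3 x₁ hx₁ y₁ hy₁
  -- upper bound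
  have hU : T.card ≤ 128 * q ^ 3 * N.card := by
    apply Finset.card_le_mul_card_image_of_maps_to (f := fun t => t.2.2)
    · intro t ht
      simp only [Finset.mem_sigma, mem_filter, mem_univ, true_and, T, A₁, A₂, A₃] at ht
      simp only [hN, mem_filter, mem_univ, true_and]
      exact ⟨t.1, t.2.1, ht.1.1, ht.1.2.1, ht.2.1.1, ht.2.1.2.1, ht.2.2.1, ht.2.2.2⟩
    · intro x₂ hx₂
      simp only [hN, mem_filter, mem_univ, true_and] at hx₂
      obtain ⟨x₁, y₁, -, -, -, -, -, hne⟩ := hx₂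
      have hx₂0 : x₂ ≠ 0 := by
        rintro rfl
        exact hne (GX.pl_zero_x' m n y₁ x₁)
      refine le_trans ?_ (GX.card_pairs hm hn hq hy hx₂0)
      apply Finset.card_le_card_of_injOn (fun t => ⟨t.2.1, t.1⟩)
      · intro t ht
        simp only [Finset.mem_sigma, coe_filter, mem_filter, mem_univ, true_and, T, A₁, A₂, A₃,
          Set.mem_ofPred_eq] at ht
        simp only [Finset.coe_sigma, Set.mem_sigma_iff, coe_filter, mem_univ, true_and,
          Set.mem_ofPred_eq]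
        refine ⟨?_, ht.1.1.1, ht.1.2.1.1⟩
        rw [← ht.2]
        exact ht.1.2.2.1
      · intro t ht s hs hts
        simp only [coe_filter, Set.mem_ofPred_eq] at ht hs
        obtain ⟨t1, t2, t3⟩ := t
        obtain ⟨s1, s2, s3⟩ := s
        simp only [Sigma.mk.injEq, heq_eq_eq] at hts
        have e3 : t3 = s3 := by
          have e1 := ht.2
          have e2 := hs.2
          exact e1.trans e2.symm
        rw [hts.1, hts.2, e3]
  -- conclusion
  rw [hr] at hU ⊢
  have h7 : (r + 100) ^ 3 * ((r + 91) ^ 2 * (r + 99)) ≤ (r + 100) ^ 3 * (128 * N.card) := by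
    calc (r + 100) ^ 3 * ((r + 91) ^ 2 * (r + 99)) =
          (r + 100) * (r + 91) * ((r + 100) * (r + 91) * ((r + 100) * (r + 99))) := by ring
      _ ≤ _ := hT
      _ ≤ _ := hU
      _ = _ := by ring
  have h8 := Nat.le_of_mul_le_mul_left h7 (by positivity)
  nlinarith

end Pool.Agent.T6.H77.RK
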