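import Pool.Agent.T6.H77.RK.LC
import Pool.Agent.T6.H77.DW.LOC

/-!
# Connectivity over local fields with large residue fields (helper77)
-/

set_option autoImplicit false

namespace Pool.Agent.T6.H77.RK

namespace LOC

variable {L k : Type} [NontriviallyNormedField L] [IsUltrametricDist L] [CompleteSpace L]
  [Field k] [Fintype k] {π : L → k} {m n : Fin 3 → Fin 3 → Fin 3 → L}

/-- the first move -/
theorem start (hC : StmCO) (hB : StmBAD) (hNS : StmNS) (h : DW.Res π)
    (hq : 20 ≤ Fintype.card k) (hm : ∀ i a b, m i a b = m i b a)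
    (im : ∀ i a b, ‖m i a b‖ ≤ 1) (iN : ∀ i a b, ‖n i a b‖ ≤ 1)
    (hG : Gd (fun i a b => π (m i a b)) (fun i a b => π (n i a b))) (x y : Fin 3 → L)
    (hx : ∀ i, ‖x i‖ ≤ 1) (hy : ∀ i, ‖y i‖ ≤ 1) (hx0 : ∃ i, x i = 1) (hy0 : ∃ i, y i = 1)
    (hF : fm m n x y = 0) (hb : ∃ x', pl m n y x x' ≠ 0) :
    ∃ x' : Fin 3 → L, (∀ i, ‖x' i‖ ≤ 1) ∧ fm m n x' y = 0 ∧ pl m n y x x' ≠ 0 ∧
      ∃ z, pl (fun i a b => π (n i a b)) (fun i a b => π (m i a b)) (fun i => π (x' i))
        (fun i => π (y i)) z ≠ 0 := by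
  set m' : Fin 3 → Fin 3 → Fin 3 → k := fun i a b => π (m i a b) with hm'
  set n' : Fin 3 → Fin 3 → Fin 3 → k := fun i a b => π (n i a b) with hn'
  set z : Fin 3 → k := fun i => π (x i) with hz
  set w : Fin 3 → k := fun i => π (y i) with hw
  have z0 : z ≠ 0 := fun h0 => by
    obtain ⟨i, hi⟩ := hx0
    have := congrFun h0 i
    simp only [hz, hi, h.one] at this
    exact one_ne_zero this
  have w0 : w ≠ 0 := fun h0 => by
    obtain ⟨i, hi⟩ := hy0
    have := congrFun h0 i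
    simp only [hw, hi, h.one] at this
    exact one_ne_zero this
  have Fzw : fm m' n' z w = 0 := by
    rw [hz, hw, ← fm_red h im iN hx hy, hF, h.zero]
  by_cases hc : ∃ u, pl m' n' w z u ≠ 0
  · obtain ⟨x₁, hx₁F, hx₁b, hx₁a⟩ : ∃ x₁, fm m' n' x₁ w = 0 ∧ pl m' n' w z x₁ ≠ 0 ∧
        ∃ u, pl n' m' x₁ w u ≠ 0 := by
      by_contra hcc
      push Not at hcc
      have c1 := hC k m' n' hG.two hG.gm.sym z w Fzw hc
      have c2 := hB k m' n' hG.gm hG.gn w w0
      have c3 : {x' | fm m' n' x' w = 0 ∧ pl m' n' w z x' ≠ 0} ⊆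
          {x | ∀ y', pl n' m' x w y' = 0} := fun x hx => hcc x hx.1 hx.2
      have c4 := Set.ncard_le_ncard c3 (Set.toFinite _)
      nlinarith
    obtain ⟨X₁, iX₁, rX₁, FX₁, bX₁⟩ := liftX h hG.two hm im iN hx hy hF x₁ hx₁F hx₁b
    refine ⟨X₁, iX₁, FX₁, bX₁, ?_⟩
    rw [funext rX₁]
    exact hx₁a
  · push Not at hc
    have ha : ∃ u, pl n' m' z w u ≠ 0 := by
      rcases hG.sm z w z0 w0 Fzw with hs | hs
      · obtain ⟨u, hu⟩ := hs
        exact absurd (hc u) hu
      · exact hs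
    obtain ⟨x', h1, h2, h3, h4⟩ := hNS L k π h hG.two m n hm im iN x y hx hy hF hb hc (by
      by_contra hcc
      push Not at hcc
      obtain ⟨u, hu⟩ := hG.gm.jac
      have hpl : ∀ v, pl m' n' w u v = 0 := by
        intro v
        have e := fm_add (m := m') (n := n') hG.gm.sym u v w
        have e1 := hcc (u + v)
        have e2 := hcc u
        have e3 := hcc v
        change fm m' n' (u + v) w = 0 at e1
        change fm m' n' u w = 0 at e2
        change fm m' n' v w = 0 at e3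
        rw [e1, e2, e3] at e
        have : 2 * pl m' n' w u v = 0 := by linear_combination -e
        exact (mul_eq_zero.1 this).resolve_left hG.two
      obtain ⟨v, hv⟩ := LC.ne_of_jm (m := n') (n := m') hu (LC.anis (by omega) hG.gn w0)
      exact hv (hpl v))
    refine ⟨x', h1, h3, h4, ?_⟩
    rw [funext h2]
    exact ha

end LOC

open LOC in
theorem loc (hC : StmCO) (hB : StmBAD) (hNS : StmNS) (hFQ : StmFQ) (hLC : StmLC) : StmLOC := by
  obtain ⟨q₁, hFQ⟩ := hFQ
  obtain ⟨q₂, hLC⟩ := hLC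
  refine ⟨max 20 (max q₁ q₂), true :: ([false, true, false, true, true] ++
    ([true, false, false, true, false, false] ++
    ([false, true, false, true, false, false].reverse ++ [true]))), ?_⟩
  intro L k _ _ _ _ _ π h hq m n hm hn im iN hG p q hFp hbp hFq hbq
  have hq0 : 20 ≤ Fintype.card k := (le_max_left _ _).trans hq
  have hq1 : q₁ ≤ Fintype.card k := ((le_max_left _ _).trans (le_max_right _ _)).trans hq
  have hq2 : q₂ ≤ Fintype.card k := ((le_max_right _ _).trans (le_max_right _ _)).trans hq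
  have key : ∀ p : (Fin 3 → L) × (Fin 3 → L), fm m n p.1 p.2 = 0 →
      (∃ x', pl m n p.2 p.1 x' ≠ 0) → ∃ (b c : L) (x y X : Fin 3 → L), b ≠ 0 ∧ c ≠ 0 ∧
      p = (b • x, c • y) ∧ (∀ i, ‖X i‖ ≤ 1) ∧ (∀ i, ‖y i‖ ≤ 1) ∧ fm m n x y = 0 ∧
      fm m n X y = 0 ∧ pl m n y x X ≠ 0 ∧
      ∃ z, pl (fun i a b => π (n i a b)) (fun i a b => π (m i a b)) (fun i => π (X i))
        (fun i => π (y i)) z ≠ 0 := by
    intro p hFp hbp
    obtain ⟨u, hu⟩ := hbp
    have p1 : p.1 ≠ 0 := by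
      intro h0
      apply hu
      rw [h0]
      simp [pl, bq]
    have p2 : p.2 ≠ 0 := by
      intro h0
      apply hu
      rw [h0]
      simp [pl, bq]
    obtain ⟨b, x, hb, hbx, ix, hx1⟩ := DW.LOC.prim p.1 p1
    obtain ⟨c, y, hc, hcy, iy, hy1⟩ := DW.LOC.prim p.2 p2
    have hF : fm m n x y = 0 := by
      have : fm m n p.1 p.2 = (b * c) ^ 2 * fm m n x y := by rw [hbx, hcy, fm_smul]
      rw [hFp] at this
      exact (mul_eq_zero.1 this.symm).resolve_left (pow_ne_zero _ (mul_ne_zero hb hc))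
    have hbu : pl m n y x u ≠ 0 := by
      intro h0
      apply hu
      have := pl_smul (m := m) (n := n) b 1 c y x u
      rw [one_smul] at this
      rw [hbx, hcy, this, h0, mul_zero]
    obtain ⟨X, h1, h2, h3, h4⟩ := start hC hB hNS h hq0 hm im iN hG x y ix iy hx1 hy1 hF ⟨u, hbu⟩
    exact ⟨b, c, x, y, X, hb, hc, Prod.ext hbx hcy, h1, iy, hF, h2, h3, h4⟩
  obtain ⟨b, c, x, y, X, hb, hc, hp, iX, iy, hF, FX, bX, aX⟩ := key p hFp hbp
  obtain ⟨b', c', x', y', X', hb', hc', hq', iX', iy', hF', FX', bX', aX'⟩ := key q hFq hbq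
  have rFX : fm (fun i a b => π (m i a b)) (fun i a b => π (n i a b)) (fun i => π (X i))
      (fun i => π (y i)) = 0 := by rw [← fm_red h im iN iX iy, FX, h.zero]
  have rFX' : fm (fun i a b => π (m i a b)) (fun i a b => π (n i a b)) (fun i => π (X' i))
      (fun i => π (y' i)) = 0 := by rw [← fm_red h im iN iX' iy', FX', h.zero]
  obtain ⟨z, w, hzw, hD, hD', hJ, hW, hW'⟩ := hFQ k _ _ hq1 hG _ _ _ _ rFX aX rFX' aX'
  obtain ⟨R, hR1, hR2, hR3⟩ := liftW (P := (X, y)) h hG.two hm hn im iN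
    ⟨iX, iy, fun _ => rfl, fun _ => rfl⟩ FX hW
  obtain ⟨R', hR1', hR2', hR3'⟩ := liftW (P := (X', y')) h hG.two hm hn im iN
    ⟨iX', iy', fun _ => rfl, fun _ => rfl⟩ FX' hW'
  have hz0 : ∃ i, π (R.1 i) ≠ 0 := by
    by_contra hcc
    push Not at hcc
    apply hD'
    have : z = 0 := funext fun i => by
      have := hR1.e1 i
      rw [hcc i] at this
      exact this.symm
    rw [this]
    have h0 : dm (fun i a b => π (n i a b)) (fun i a b => π (m i a b)) (0 : Fin 3 → k) = 0 := by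
      ext a b
      simp [dm, bq]
    rw [h0, Matrix.det_zero]
  have eR2 : (fun i => π (R.2 i)) = w := funext hR1.e2
  have hmid := hLC L k π h hq2 m n hm hn im iN hG R.1 R.2 R'.1 R'.2 hR1.h1 hR1.h2 hR1'.h1
    hR1'.h2 hz0 (fun i => by rw [hR1.e1, hR1'.e1]) (fun i => by rw [hR1.e2, hR1'.e2]) hR2 hR2'
    (by rw [eR2]; exact hD) (by rw [eR2]; exact hJ)
  have hlast : Wd m n [true] (X', y') (x', y') := by
    refine ⟨(x', y'), hF', ?_, rfl⟩
    simp only [St, ↓reduceIte]
    exact ⟨trivial, by rw [pl_symm hm]; exact bX'⟩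
  have htot := ((hR3.append (hmid.append ((hR3'.rev hm hn FX').append hlast))))
  have hall : Wd m n (true :: ([false, true, false, true, true] ++
    ([true, false, false, true, false, false] ++
    ([false, true, false, true, false, false].reverse ++ [true])))) (x, y) (x', y') := by
    refine ⟨(X, y), FX, ?_, htot⟩
    simp only [St, ↓reduceIte]
    exact ⟨trivial, bX⟩
  rw [hp, hq']
  exact hall.scale b c b' c' hb hc hb' hc' (Or.inl (by simp)) (Or.inl (by simp))

end Pool.Agent.T6.H77.RK
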