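import Pool.Agent.T6.H77.RK.LOC

/-!
# Weak weak approximation for hypersurfaces of bidegree (2, 2) of rank three: assembly (helper77)
-/

set_option autoImplicit false

open Filter Topology

namespace Pool.Agent.T6.H77.RK

/-- the points of `F(x, y) = 0` with `x ≠ 0`, `y ≠ 0` -/
def Pt {k : Type} [Field k] (m n : Fin 3 → Fin 3 → Fin 3 → k) (S : (Fin 3 → k) × (Fin 3 → k)) :
    Prop := S.1 ≠ 0 ∧ S.2 ≠ 0 ∧ fm m n S.1 S.2 = 0

/-- the points of `F(x, y) = 0` such that both conics through the point are smooth -/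
def Sm {k : Type} [Field k] (m n : Fin 3 → Fin 3 → Fin 3 → k) (S : (Fin 3 → k) × (Fin 3 → k)) :
    Prop := Pt m n S ∧ (dm m n S.2).det ≠ 0 ∧ (dm n m S.1).det ≠ 0

/-- `X(K)` in the product of the `L v` -/
def XK {K ι : Type} [Field K] {L : ι → Type} [∀ v, Field (L v)] (σ : ∀ v, K →+* L v)
    (m n : Fin 3 → Fin 3 → Fin 3 → K) : Set (∀ v, (Fin 3 → L v) × (Fin 3 → L v)) :=
  {S | ∃ x y : Fin 3 → K, x ≠ 0 ∧ y ≠ 0 ∧ fm m n x y = 0 ∧
    S = fun v => (fun i => σ v (x i), fun i => σ v (y i))}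

/-- Good places: `L` is a complete ultrametric field with finite residue field `k` (via `π`) with at
least `q₀` elements, `m` and `n` are integral and their reductions are good. -/
structure GoodPlace (q₀ : ℕ) {L k : Type} [NontriviallyNormedField L] [Field k] [Fintype k]
    (π : L → k) (m n : Fin 3 → Fin 3 → Fin 3 → L) : Prop where
  um : IsUltrametricDist L
  cs : CompleteSpace L
  res : DW.Res π
  card : q₀ ≤ Fintype.card k
  im : ∀ i a b, ‖m i a b‖ ≤ 1
  iN : ∀ i a b, ‖n i a b‖ ≤ 1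
  gd : Gd (fun i a b => π (m i a b)) (fun i a b => π (n i a b))

theorem Gd.symm {k : Type} [Field k] {m n : Fin 3 → Fin 3 → Fin 3 → k} (h : Gd m n) : Gd n m :=
  ⟨h.two, h.gn, h.gm, h.dy, h.dx, fun x y hx hy hF =>
    (h.sm y x hy hx (by rw [fm_swap]; exact hF)).symm⟩

theorem GoodPlace.symm {q₀ : ℕ} {L k : Type} [NontriviallyNormedField L] [Field k] [Fintype k]
    {π : L → k} {m n : Fin 3 → Fin 3 → Fin 3 → L} (h : GoodPlace q₀ π m n) :
    GoodPlace q₀ π n m := ⟨h.um, h.cs, h.res, h.card, h.iN, h.im, h.gd.symm⟩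

section loc

variable {L k : Type} [NontriviallyNormedField L] [Field k] [Fintype k] {π : L → k}
  {m n : Fin 3 → Fin 3 → Fin 3 → L} {q₀ : ℕ}

theorem GoodPlace.norm_two (h : GoodPlace q₀ π m n) : ‖(2 : L)‖ = 1 := by
  have := h.um
  exact h.res.norm_two h.gd.two

/-- `X` is smooth at its `L`-points -/
theorem GoodPlace.smooth (h : GoodPlace q₀ π m n) {x y : Fin 3 → L} (hx : x ≠ 0) (hy : y ≠ 0)
    (hF : fm m n x y = 0) : (∃ j, pl m n y x (Pi.single j 1) ≠ 0) ∨
      ∃ j, pl n m x y (Pi.single j 1) ≠ 0 := by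
  have := h.um
  have := h.cs
  obtain ⟨b, x₀, hb, hbx, ix, i₁, hx1⟩ := DW.LOC.prim x hx
  obtain ⟨c, y₀, hc, hcy, iy, i₂, hy1⟩ := DW.LOC.prim y hy
  have hF0 : fm m n x₀ y₀ = 0 := by
    have : fm m n x y = (b * c) ^ 2 * fm m n x₀ y₀ := by rw [hbx, hcy, fm_smul]
    rw [hF] at this
    exact (mul_eq_zero.1 this.symm).resolve_left (pow_ne_zero _ (mul_ne_zero hb hc))
  have is : ∀ j i : Fin 3, ‖(Pi.single j 1 : Fin 3 → L) i‖ ≤ 1 := by
    intro j i
    by_cases hji : i = j
    · rw [hji, Pi.single_eq_same, norm_one]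
    · rw [Pi.single_eq_of_ne hji, norm_zero]; exact zero_le_one
  have rs : ∀ j : Fin 3, (fun i => π ((Pi.single j 1 : Fin 3 → L) i)) = Pi.single j 1 := by
    intro j
    funext i
    by_cases hji : i = j
    · rw [hji, Pi.single_eq_same, Pi.single_eq_same, h.res.one]
    · rw [Pi.single_eq_of_ne hji, Pi.single_eq_of_ne hji, h.res.zero]
  have lin : ∀ (m' n' : Fin 3 → Fin 3 → Fin 3 → k) (y x z : Fin 3 → k),
      (∀ j, pl m' n' y x (Pi.single j 1) = 0) → pl m' n' y x z = 0 := by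
    intro m' n' y x z h0
    have e : z = z 0 • Pi.single 0 1 + (z 1 • Pi.single 1 1 + z 2 • Pi.single 2 1) := by
      funext i
      fin_cases i <;> simp
    rw [e, pl_add_right, pl_add_right, pl_smul_right, pl_smul_right, pl_smul_right, h0, h0, h0]
    ring
  by_contra hc'
  push Not at hc'
  obtain ⟨c1, c2⟩ := hc'
  rcases h.gd.sm (fun i => π (x₀ i)) (fun i => π (y₀ i))
    (fun h0 => by
      have := congrFun h0 i₁
      simp only [hx1, h.res.one] at this
      exact one_ne_zero this)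
    (fun h0 => by
      have := congrFun h0 i₂
      simp only [hy1, h.res.one] at this
      exact one_ne_zero this)
    (by rw [← fm_red h.res h.im h.iN ix iy, hF0, h.res.zero]) with ⟨z, hz⟩ | ⟨z, hz⟩
  · apply hz
    refine lin _ _ _ _ _ fun j => ?_
    have e1 := c1 j
    rw [hbx, hcy] at e1
    have e2 := pl_smul (m := m) (n := n) b 1 c y₀ x₀ (Pi.single j 1)
    rw [one_smul] at e2
    rw [e2] at e1
    have e3 : pl m n y₀ x₀ (Pi.single j 1) = 0 :=
      (mul_eq_zero.1 e1).resolve_left (mul_ne_zero (mul_ne_zero hb one_ne_zero)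
        (pow_ne_zero _ hc))
    rw [← rs j, ← pl_red h.res h.im h.iN iy ix (is j), e3, h.res.zero]
  · apply hz
    refine lin _ _ _ _ _ fun j => ?_
    have e1 := c2 j
    rw [hbx, hcy] at e1
    have e2 := pl_smul (m := n) (n := m) c 1 b x₀ y₀ (Pi.single j 1)
    rw [one_smul] at e2
    rw [e2] at e1
    have e3 : pl n m x₀ y₀ (Pi.single j 1) = 0 :=
      (mul_eq_zero.1 e1).resolve_left (mul_ne_zero (mul_ne_zero hc one_ne_zero)
        (pow_ne_zero _ hb))
    rw [← rs j, ← pl_red h.res h.iN h.im ix iy (is j), e3, h.res.zero]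

theorem GoodPlace.jac (h : GoodPlace q₀ π m n) : ∃ x, (jm m x).det ≠ 0 := by
  have := h.um
  obtain ⟨u, hu⟩ := h.gd.gm.jac
  choose x hx hxu using fun i => h.res.surj (u i)
  refine ⟨x, fun h0 => hu ?_⟩
  have := (LC.jm_red h.res h.im hx).2
  rw [h0, h.res.zero, funext hxu] at this
  exact this.symm

theorem GoodPlace.aniso (hq : 9 ≤ q₀) (h : GoodPlace q₀ π m n) (y : Fin 3 → L)
    (hy : ∀ i, bq n y y i = 0) : y = 0 := by
  have := h.um
  have := h.cs
  by_contra hy0
  obtain ⟨c, y₀, hc, hcy, iy, i₂, hy1⟩ := DW.LOC.prim y hy0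
  obtain ⟨i, hi⟩ := LC.anis (hq.trans h.card) h.gd.gn (x := fun i => π (y₀ i)) (fun h0 => by
      have := congrFun h0 i₂
      simp only [hy1, h.res.one] at this
      exact one_ne_zero this)
  apply hi
  have e := hy i
  rw [hcy, bq_smul_left, bq_smul_right] at e
  have e3 : bq n y₀ y₀ i = 0 :=
    (mul_eq_zero.1 ((mul_eq_zero.1 e).resolve_left hc)).resolve_left hc
  rw [← bq_red h.res h.iN iy iy, e3, h.res.zero]

end loc

section map

variable {K L : Type} [Field K] [Field L] (σ : K →+* L) (m n : Fin 3 → Fin 3 → Fin 3 → K)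

theorem bq_map (x x' : Fin 3 → K) (i : Fin 3) :
    σ (bq m x x' i) = bq (fun i a b => σ (m i a b)) (fun i => σ (x i)) (fun i => σ (x' i)) i := by
  simp only [bq, map_sum, map_mul]

theorem pl_map (y x x' : Fin 3 → K) : σ (pl m n y x x') =
    pl (fun i a b => σ (m i a b)) (fun i a b => σ (n i a b)) (fun i => σ (y i))
      (fun i => σ (x i)) (fun i => σ (x' i)) := by
  simp only [pl, map_sum, map_mul, bq_map]

theorem fm_map (x y : Fin 3 → K) : σ (fm m n x y) =
    fm (fun i a b => σ (m i a b)) (fun i a b => σ (n i a b)) (fun i => σ (x i))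
      (fun i => σ (y i)) := pl_map σ m n y x x

theorem dm_map (y : Fin 3 → K) : σ (dm m n y).det =
    (dm (fun i a b => σ (m i a b)) (fun i a b => σ (n i a b)) (fun i => σ (y i))).det := by
  rw [RingHom.map_det]
  congr 1
  ext a b
  simp only [RingHom.mapMatrix_apply, Matrix.map_apply, dm, Matrix.of_apply, map_sum, map_mul,
    bq_map]

end map

/-- the closure in terms of all solutions -/
def KP {K ι : Type} [Field K] {L : ι → Type} [∀ v, Field (L v)] (σ : ∀ v, K →+* L v)
    (m n : Fin 3 → Fin 3 → Fin 3 → K) : Set (∀ v, (Fin 3 → L v) × (Fin 3 → L v)) :=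
  {S | ∃ x y : Fin 3 → K, fm m n x y = 0 ∧
    S = fun v => (fun i => σ v (x i), fun i => σ v (y i))}

section glob

variable {K ι : Type} [Field K] {L k : ι → Type} [∀ v, NontriviallyNormedField (L v)]
  [∀ v, Field (k v)] [∀ v, Fintype (k v)] {σ : ∀ v, K →+* L v} {π : ∀ v, L v → k v}
  {m n : Fin 3 → Fin 3 → Fin 3 → K}

theorem mem_xk (S : ∀ v, (Fin 3 → L v) × (Fin 3 → L v))
    (w : ι) (h1 : (S w).1 ≠ 0) (h2 : (S w).2 ≠ 0) (h : S ∈ closure (KP σ m n)) :
    S ∈ closure (XK σ m n) := by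
  have hO : IsOpen {S : ∀ v, (Fin 3 → L v) × (Fin 3 → L v) | (S w).1 ≠ 0 ∧ (S w).2 ≠ 0} := by
    refine IsOpen.inter ?_ ?_
    · exact isOpen_ne.preimage (continuous_fst.comp (continuous_apply w))
    · exact isOpen_ne.preimage (continuous_snd.comp (continuous_apply w))
  rw [mem_closure_iff] at h ⊢
  intro o ho hSo
  obtain ⟨R, ⟨hR1, hR2, hR3⟩, x, y, hxy, rfl⟩ := h _ (ho.inter hO) ⟨hSo, h1, h2⟩
  refine ⟨_, hR1, x, y, ?_, ?_, hxy, rfl⟩
  · rintro rfl
    exact hR2 (funext fun i => by simp)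
  · rintro rfl
    exact hR3 (funext fun i => by simp)

theorem swap_kp (P : ∀ v, (Fin 3 → L v) × (Fin 3 → L v)) (hP : P ∈ closure (KP σ m n)) :
    (fun v => (P v).swap) ∈ closure (KP σ n m) := by
  have hc : Continuous fun (P : ∀ v, (Fin 3 → L v) × (Fin 3 → L v)) v => (P v).swap :=
    continuous_pi fun v => continuous_swap.comp (continuous_apply v)
  refine map_mem_closure hc hP ?_
  rintro _ ⟨x, y, h, rfl⟩
  exact ⟨y, x, by rw [fm_swap]; exact h, rfl⟩

/-- approximation from a rational point which is smooth on the first conic -/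
theorem approx {q₀ : ℕ} (hq9 : 9 ≤ q₀) {w : List Bool}
    (hLOC : ∀ (L k : Type) [NontriviallyNormedField L]
      [IsUltrametricDist L] [CompleteSpace L] [Field k] [Fintype k] (π : L → k), DW.Res π →
      q₀ ≤ Fintype.card k → ∀ m n : Fin 3 → Fin 3 → Fin 3 → L, (∀ i a b, m i a b = m i b a) →
      (∀ i a b, n i a b = n i b a) → (∀ i a b, ‖m i a b‖ ≤ 1) → (∀ i a b, ‖n i a b‖ ≤ 1) →
      Gd (fun i a b => π (m i a b)) (fun i a b => π (n i a b)) →
      ∀ p q : (Fin 3 → L) × (Fin 3 → L), fm m n p.1 p.2 = 0 → (∃ x', pl m n p.2 p.1 x' ≠ 0) →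
      fm m n q.1 q.2 = 0 → (∃ x', pl m n q.2 q.1 x' ≠ 0) → Wd m n w p q)
    (hDEN : StmDEN) (hCLO : StmCLO) (hσ : DenseRange fun (b : K) (v : ι) => σ v b)
    (h2 : (2 : K) ≠ 0) (hm : ∀ i a b, m i a b = m i b a) (hn : ∀ i a b, n i a b = n i b a)
    (G : Set ι)
    (hG : ∀ v ∈ G, GoodPlace q₀ (π v) (fun i a b => σ v (m i a b)) (fun i a b => σ v (n i a b)))
    (x y : Fin 3 → K) (hxy : fm m n x y = 0) (hb : ∃ x', pl m n y x x' ≠ 0)
    (hS : ∀ v ∉ G, Sm (fun i a b => σ v (m i a b)) (fun i a b => σ v (n i a b))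
      (fun i => σ v (x i), fun i => σ v (y i)))
    (S : ∀ v, (Fin 3 → L v) × (Fin 3 → L v))
    (hS1 : ∀ v ∉ G, S v = (fun i => σ v (x i), fun i => σ v (y i)))
    (hS2 : ∀ v ∈ G, Pt (fun i a b => σ v (m i a b)) (fun i a b => σ v (n i a b)) (S v)) :
    S ∈ closure (KP σ m n) := by
  classical
  have key : ∀ S : ∀ v, (Fin 3 → L v) × (Fin 3 → L v),
      (∀ v ∉ G, S v = (fun i => σ v (x i), fun i => σ v (y i))) →
      (∀ v ∈ G, fm (fun i a b => σ v (m i a b)) (fun i a b => σ v (n i a b)) (S v).1 (S v).2 = 0 ∧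
        ∃ z, pl (fun i a b => σ v (m i a b)) (fun i a b => σ v (n i a b)) (S v).2 (S v).1 z ≠ 0) →
      S ∈ closure (KP σ m n) := by
    intro S hS1 hS2
    refine hCLO K ι L σ hσ m n h2 hm hn w G
      (fun v => (fun i => σ v (x i), fun i => σ v (y i))) S ?_ ?_ ?_
    · intro v hv
      have := (hG v hv).um
      have := (hG v hv).cs
      have hF : fm (fun i a b => σ v (m i a b)) (fun i a b => σ v (n i a b)) (fun i => σ v (x i))
          (fun i => σ v (y i)) = 0 := by rw [← fm_map, hxy, map_zero]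
      refine ⟨hF, ?_⟩
      obtain ⟨u, hu⟩ := hb
      exact hLOC (L v) (k v) (π v) (hG v hv).res (hG v hv).card _ _
        (fun i a b => by rw [hm]) (fun i a b => by rw [hn]) (hG v hv).im (hG v hv).iN
        (hG v hv).gd _ _ hF ⟨fun i => σ v (u i), by
          change pl _ _ (fun i => σ v (y i)) (fun i => σ v (x i)) _ ≠ 0
          rw [← pl_map]
          exact (map_ne_zero (σ v)).2 hu⟩ (hS2 v hv).1 (hS2 v hv).2
    · intro v hv
      obtain ⟨⟨s1, s2, s3⟩, s4, s5⟩ := hS v hv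
      exact ⟨(hS1 v hv).symm, s1, s2, s3, s4, s5⟩
    · exact subset_closure ⟨x, y, hxy, rfl⟩
  have happ : ∀ (N : ℕ) (v : ι), ∃ R : (Fin 3 → L v) × (Fin 3 → L v),
      (v ∉ G → R = S v) ∧ (v ∈ G →
        (fm (fun i a b => σ v (m i a b)) (fun i a b => σ v (n i a b)) R.1 R.2 = 0 ∧
        ∃ z, pl (fun i a b => σ v (m i a b)) (fun i a b => σ v (n i a b)) R.2 R.1 z ≠ 0) ∧
        ∀ i, ‖R.1 i - (S v).1 i‖ < 1 / (N + 1) ∧ ‖R.2 i - (S v).2 i‖ < 1 / (N + 1)) := by
    intro N v
    by_cases hv : v ∈ G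
    · have := (hG v hv).um
      have := (hG v hv).cs
      obtain ⟨s1, s2, s3⟩ := hS2 v hv
      rcases (hG v hv).smooth s1 s2 s3 with ⟨j, hj⟩ | ⟨j, hj⟩
      · refine ⟨S v, fun _ => rfl, fun _ => ⟨⟨s3, _, hj⟩, fun i => ?_⟩⟩
        rw [sub_self, sub_self, norm_zero]
        constructor <;> positivity
      · obtain ⟨x', y', h1, h3, h4⟩ := hDEN (L v) _ _ (hG v hv).norm_two
          (fun i a b => by rw [hn]) (hG v hv).jac ((hG v hv).aniso hq9) (S v).1 (S v).2 s3
          ⟨_, hj⟩ (1 / (N + 1)) (by positivity)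
        exact ⟨(x', y'), fun h => absurd hv h, fun _ => ⟨⟨h1, h3⟩, h4⟩⟩
    · exact ⟨S v, fun _ => rfl, fun h => absurd h hv⟩
  choose R hR1 hR2 using happ
  have hRcl : ∀ N, (fun v => R N v) ∈ closure (KP σ m n) := by
    intro N
    refine key _ (fun v hv => ?_) (fun v hv => (hR2 N v hv).1)
    rw [hR1 N v hv, hS1 v hv]
  have hlim : Tendsto (fun N v => R N v) atTop (𝓝 S) := by
    rw [tendsto_pi_nhds]
    intro v
    by_cases hv : v ∈ G
    · have key : ∀ (f : ℕ → Fin 3 → L v) (s : Fin 3 → L v),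
          (∀ n i, ‖f n i - s i‖ < 1 / ((n : ℝ) + 1)) → Tendsto f atTop (𝓝 s) := by
        intro f s hf
        rw [tendsto_pi_nhds]
        intro i
        rw [tendsto_iff_norm_sub_tendsto_zero]
        exact squeeze_zero (fun n => norm_nonneg _) (fun n => (hf n i).le)
          tendsto_one_div_add_atTop_nhds_zero_nat
      exact (key _ _ fun n i => ((hR2 n v hv).2 i).1).prodMk_nhds
        (key _ _ fun n i => ((hR2 n v hv).2 i).2)
    · have : (fun n => R n v) = fun _ => S v := funext fun n => by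
        rw [hR1 n v hv]
      rw [this]
      exact tendsto_const_nhds
  have := mem_closure_of_tendsto hlim (Eventually.of_forall hRcl)
  rwa [closure_closure] at this

end glob

theorem main (hLOC : StmLOC) (hDEN : StmDEN) (hCLO : StmCLO) : ∃ q₀ : ℕ,
    ∀ (K ι : Type) [Field K] (L k : ι → Type) [∀ v, NontriviallyNormedField (L v)]
      [∀ v, Field (k v)] [∀ v, Fintype (k v)] (σ : ∀ v, K →+* L v) (π : ∀ v, L v → k v)
      (m n : Fin 3 → Fin 3 → Fin 3 → K), (∀ i a b, m i a b = m i b a) →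
      (∀ i a b, n i a b = n i b a) → (DenseRange fun (b : K) (v : ι) => σ v b) → ∀ G : Set ι,
      (∀ v ∈ G, GoodPlace q₀ (π v) (fun i a b => σ v (m i a b)) fun i a b => σ v (n i a b)) →
      ∀ T ∈ closure (XK σ m n),
      (∀ v ∉ G, Sm (fun i a b => σ v (m i a b)) (fun i a b => σ v (n i a b)) (T v)) →
      ∀ S : ∀ v, (Fin 3 → L v) × (Fin 3 → L v), (∀ v ∉ G, S v = T v) →
      (∀ v ∈ G, Pt (fun i a b => σ v (m i a b)) (fun i a b => σ v (n i a b)) (S v)) →
      S ∈ closure (XK σ m n) := by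
  classical
  obtain ⟨q₁, w, hloc⟩ := hLOC
  refine ⟨max 9 q₁, ?_⟩
  intro K ι _ L k _ _ _ σ π m n hm hn hσ G hG T hT hTo S hSG hS
  have hloc' : ∀ (L k : Type) [NontriviallyNormedField L]
      [IsUltrametricDist L] [CompleteSpace L] [Field k] [Fintype k] (π : L → k), DW.Res π →
      max 9 q₁ ≤ Fintype.card k → ∀ m n : Fin 3 → Fin 3 → Fin 3 → L,
      (∀ i a b, m i a b = m i b a) →
      (∀ i a b, n i a b = n i b a) → (∀ i a b, ‖m i a b‖ ≤ 1) → (∀ i a b, ‖n i a b‖ ≤ 1) →
      Gd (fun i a b => π (m i a b)) (fun i a b => π (n i a b)) →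
      ∀ p q : (Fin 3 → L) × (Fin 3 → L), fm m n p.1 p.2 = 0 → (∃ x', pl m n p.2 p.1 x' ≠ 0) →
      fm m n q.1 q.2 = 0 → (∃ x', pl m n q.2 q.1 x' ≠ 0) → Wd m n w p q :=
    fun L k _ _ _ _ _ π h1 h2 => hloc L k π h1 ((le_max_right _ _).trans h2)
  by_cases hne : G.Nonempty
  swap
  · have : S = T := funext fun v => hSG v fun hv => hne ⟨v, hv⟩
    rw [this]
    exact hT
  obtain ⟨v₀, hv₀⟩ := hne
  refine mem_xk S v₀ (hS v₀ hv₀).1 (hS v₀ hv₀).2.1 ?_
  have h2 : (2 : K) ≠ 0 := by
    have h3 := (hG v₀ hv₀).norm_two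
    intro h0
    rw [← map_ofNat (σ v₀) 2, h0, map_zero, norm_zero] at h3
    exact zero_ne_one h3
  -- the rational points
  have main1 : ∀ x y : Fin 3 → K, x ≠ 0 → y ≠ 0 → fm m n x y = 0 →
      (∀ v ∉ G, Sm (fun i a b => σ v (m i a b)) (fun i a b => σ v (n i a b))
        (fun i => σ v (x i), fun i => σ v (y i))) →
      (fun v => if v ∈ G then S v else (fun i => σ v (x i), fun i => σ v (y i))) ∈
        closure (KP σ m n) := by
    intro x y hx hy hF hSm
    have hx' : (fun i => σ v₀ (x i)) ≠ 0 := by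
      intro h0
      apply hx
      funext i
      exact (map_eq_zero (σ v₀)).1 (congrFun h0 i)
    have hy' : (fun i => σ v₀ (y i)) ≠ 0 := by
      intro h0
      apply hy
      funext i
      exact (map_eq_zero (σ v₀)).1 (congrFun h0 i)
    have es : ∀ j : Fin 3, (fun i => σ v₀ ((Pi.single j 1 : Fin 3 → K) i)) = Pi.single j 1 := by
      intro j
      funext i
      by_cases hji : i = j
      · rw [hji, Pi.single_eq_same, Pi.single_eq_same, map_one]
      · rw [Pi.single_eq_of_ne hji, Pi.single_eq_of_ne hji, map_zero]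
    have e1 : ∀ v ∉ G, (fun v => if v ∈ G then S v else
        (fun i => σ v (x i), fun i => σ v (y i))) v = (fun i => σ v (x i), fun i => σ v (y i)) :=
      fun v hv => if_neg hv
    have e2 : ∀ v ∈ G, (fun v => if v ∈ G then S v else
        (fun i => σ v (x i), fun i => σ v (y i))) v = S v := fun v hv => if_pos hv
    rcases (hG v₀ hv₀).smooth hx' hy' (by rw [← fm_map, hF, map_zero]) with ⟨j, hj⟩ | ⟨j, hj⟩
    · refine approx (le_max_left _ _) hloc' hDEN hCLO hσ h2 hm hn G hG x y hF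
        ⟨Pi.single j 1, fun h0 => ?_⟩ hSm _ e1 (fun v hv => by rw [if_pos hv]; exact hS v hv)
      apply hj
      rw [← es j, ← pl_map, h0, map_zero]
    · have hsw := approx (m := n) (n := m) (le_max_left _ _) hloc' hDEN hCLO hσ h2 hn hm G
        (fun v hv => (hG v hv).symm) y x (by rw [fm_swap]; exact hF)
        ⟨Pi.single j 1, fun h0 => ?_⟩ (fun v hv => ?_)
        (fun v => ((fun v => if v ∈ G then S v else
        (fun i => σ v (x i), fun i => σ v (y i))) v).swap) (fun v hv => by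
          simp only [if_neg hv]; rfl) (fun v hv => ?_)
      · exact swap_kp _ hsw
      · apply hj
        rw [← es j, ← pl_map, h0, map_zero]
      · obtain ⟨⟨s1, s2, s3⟩, s4, s5⟩ := hSm v hv
        exact ⟨⟨s2, s1, by rw [fm_swap]; exact s3⟩, s5, s4⟩
      · obtain ⟨s1, s2, s3⟩ := hS v hv
        simp only [if_pos hv]
        exact ⟨s2, s1, by rw [Prod.fst_swap, Prod.snd_swap, fm_swap]; exact s3⟩
  -- the limit
  have hΘ : Continuous fun (R : ∀ v, (Fin 3 → L v) × (Fin 3 → L v)) v =>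
      if v ∈ G then S v else R v := by
    refine continuous_pi fun v => ?_
    by_cases hv : v ∈ G
    · simp only [if_pos hv]
      exact continuous_const
    · simp only [if_neg hv]
      exact continuous_apply v
  have hST : S = (fun (R : ∀ v, (Fin 3 → L v) × (Fin 3 → L v)) v =>
      if v ∈ G then S v else R v) T := by
    funext v
    by_cases hv : v ∈ G
    · simp only [if_pos hv]
    · simp only [if_neg hv]
      exact hSG v hv
  have hfin : ∀ U : Set (∀ v, (Fin 3 → L v) × (Fin 3 → L v)), IsOpen U → T ∈ U →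
      (∀ x y : Fin 3 → K, x ≠ 0 → y ≠ 0 → fm m n x y = 0 →
        (fun v => (fun i => σ v (x i), fun i => σ v (y i))) ∈ U →
        ∀ v ∉ G, Sm (fun i a b => σ v (m i a b)) (fun i a b => σ v (n i a b))
        (fun i => σ v (x i), fun i => σ v (y i))) → S ∈ closure (KP σ m n) := by
    intro U hU hTU hUU
    have h3 : T ∈ closure (XK σ m n ∩ U) := by
      rw [Set.inter_comm]
      exact hU.inter_closure ⟨hTU, hT⟩
    rw [hST]
    have h4 := map_mem_closure hΘ h3 (t := closure (KP σ m n)) (by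
      rintro R ⟨⟨x, y, hx, hy, hF, rfl⟩, hRU⟩
      exact main1 x y hx hy hF (hUU x y hx hy hF hRU))
    rwa [closure_closure] at h4
  by_cases hne' : ∃ v₁, v₁ ∉ G
  · obtain ⟨v₁, hv₁⟩ := hne'
    obtain ⟨-, t4, t5⟩ := hTo v₁ hv₁
    have hc1 : Continuous fun R : ∀ v, (Fin 3 → L v) × (Fin 3 → L v) =>
        (dm (fun i a b => σ v₁ (m i a b)) (fun i a b => σ v₁ (n i a b)) (R v₁).2).det := by
      have : Continuous fun y : Fin 3 → L v₁ =>
          (dm (fun i a b => σ v₁ (m i a b)) (fun i a b => σ v₁ (n i a b)) y).det := by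
        refine Continuous.matrix_det (continuous_matrix fun a b => ?_)
        simp only [dm, Matrix.of_apply, bq]
        fun_prop
      exact this.comp (continuous_snd.comp (continuous_apply v₁))
    have hc2 : Continuous fun R : ∀ v, (Fin 3 → L v) × (Fin 3 → L v) =>
        (dm (fun i a b => σ v₁ (n i a b)) (fun i a b => σ v₁ (m i a b)) (R v₁).1).det := by
      have : Continuous fun y : Fin 3 → L v₁ =>
          (dm (fun i a b => σ v₁ (n i a b)) (fun i a b => σ v₁ (m i a b)) y).det := by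
        refine Continuous.matrix_det (continuous_matrix fun a b => ?_)
        simp only [dm, Matrix.of_apply, bq]
        fun_prop
      exact this.comp (continuous_fst.comp (continuous_apply v₁))
    refine hfin ({R | (dm (fun i a b => σ v₁ (m i a b)) (fun i a b => σ v₁ (n i a b))
      (R v₁).2).det ≠ 0} ∩ {R | (dm (fun i a b => σ v₁ (n i a b)) (fun i a b => σ v₁ (m i a b))
      (R v₁).1).det ≠ 0}) ((isOpen_ne.preimage hc1).inter (isOpen_ne.preimage hc2)) ⟨t4, t5⟩ ?_
    rintro x y hx hy hF ⟨u1, u2⟩ v hv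
    have d1 : (dm m n y).det ≠ 0 := by
      intro h0
      apply u1
      change (dm _ _ fun i => σ v₁ (y i)).det = 0
      rw [← dm_map, h0, map_zero]
    have d2 : (dm n m x).det ≠ 0 := by
      intro h0
      apply u2
      change (dm _ _ fun i => σ v₁ (x i)).det = 0
      rw [← dm_map, h0, map_zero]
    refine ⟨⟨?_, ?_, ?_⟩, ?_, ?_⟩
    · intro h0
      apply hx
      funext i
      exact (map_eq_zero (σ v)).1 (congrFun h0 i)
    · intro h0
      apply hy
      funext i
      exact (map_eq_zero (σ v)).1 (congrFun h0 i)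
    · change fm _ _ (fun i => σ v (x i)) (fun i => σ v (y i)) = 0
      rw [← fm_map, hF, map_zero]
    · change (dm _ _ fun i => σ v (y i)).det ≠ 0
      rw [← dm_map]
      exact (map_ne_zero (σ v)).2 d1
    · change (dm _ _ fun i => σ v (x i)).det ≠ 0
      rw [← dm_map]
      exact (map_ne_zero (σ v)).2 d2
  · push Not at hne'
    exact hfin Set.univ isOpen_univ (Set.mem_univ _)
      (fun x y _ _ _ _ v hv => absurd (hne' v) hv)

end Pool.Agent.T6.H77.RK
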