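import Pool.Agent.T6.H77.RK.Stm
import Pool.Agent.T6.H77.DW.MX

/-!
# Hypersurfaces of bidegree (2, 2) of rank three: mixing (helper40)
-/

set_option autoImplicit false

open Finset
open scoped Classical

namespace Pool.Agent.T6.H77.RK

namespace MIX

open Pool.Agent.T6.H77.DW.MX (ncard_eq gg sum_gg_indep sum_gg_le)

variable {k : Type} [Field k] [Fintype k]

lemma card_prop {n : Fin 3 → Fin 3 → Fin 3 → k} (hn : Gq n) {y : Fin 3 → k}
    (hy : ∃ i, bq n y y i ≠ 0) :
    (univ.filter (fun y' : Fin 3 → k =>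
      ¬ ∃ i j, bq n y y i * bq n y' y' j ≠ bq n y y j * bq n y' y' i)).card ≤
      8 * Fintype.card k := by
  obtain ⟨i0, hi0⟩ := hy
  have h1 : (univ.filter (fun y' : Fin 3 → k =>
      ¬ ∃ i j, bq n y y i * bq n y' y' j ≠ bq n y y j * bq n y' y' i)) ⊆
      (univ : Finset k).biUnion (fun c =>
        univ.filter (fun y' : Fin 3 → k => ∀ i, bq n y' y' i = c * bq n y y i)) := by
    intro y' hy'
    simp only [mem_filter, mem_univ, true_and] at hy'
    push Not at hy'
    simp only [mem_biUnion, mem_univ, true_and, mem_filter]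
    refine ⟨bq n y' y' i0 / bq n y y i0, ?_⟩
    intro i
    have := hy' i0 i
    field_simp
    linear_combination this
  refine (Finset.card_le_card h1).trans (Finset.card_biUnion_le.trans ?_)
  calc ∑ c : k, (univ.filter (fun y' : Fin 3 → k => ∀ i, bq n y' y' i = c * bq n y y i)).card
      ≤ ∑ c : k, 8 := Finset.sum_le_sum fun c _ => by
        rw [← ncard_eq]
        exact hn.fib (fun i => c * bq n y y i)
    _ = 8 * Fintype.card k := by
      rw [Finset.sum_const, Finset.card_univ, smul_eq_mul, mul_comm]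

/-- the second moment -/
lemma moment {n : Fin 3 → Fin 3 → Fin 3 → k} (hn : Gq n) (B' : Finset (Fin 3 → k))
    (hB0 : ∀ y ∈ B', ∃ i, bq n y y i ≠ 0) :
    ∑ X : Fin 3 → k, (∑ y ∈ B', gg (bq n y y) X) ^ 2 ≤
      8 * (Fintype.card k : ℤ) ^ 5 * (B'.card : ℤ) := by
  set q : ℤ := (Fintype.card k : ℤ) with hq
  have hqpos : 0 < q := by
    rw [hq]
    exact_mod_cast Fintype.card_pos
  have h1 : ∑ X : Fin 3 → k, (∑ y ∈ B', gg (bq n y y) X) ^ 2 =
      ∑ y ∈ B', ∑ y' ∈ B', ∑ X : Fin 3 → k, gg (bq n y y) X * gg (bq n y' y') X := by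
    simp_rw [sq, Finset.sum_mul_sum]
    rw [Finset.sum_comm]
    refine Finset.sum_congr rfl fun y _ => ?_
    rw [Finset.sum_comm]
  rw [h1]
  have h2 : ∀ y ∈ B', ∑ y' ∈ B', ∑ X : Fin 3 → k, gg (bq n y y) X * gg (bq n y' y') X ≤
      8 * q ^ 5 := by
    intro y hy
    have h3 : ∀ y' ∈ B', ∑ X : Fin 3 → k, gg (bq n y y) X * gg (bq n y' y') X ≤
        q ^ 4 * (if ¬ ∃ i j, bq n y y i * bq n y' y' j ≠ bq n y y j * bq n y' y' i
          then 1 else 0) := by
      intro y' hy'
      by_cases hc : ∃ i j, bq n y y i * bq n y' y' j ≠ bq n y y j * bq n y' y' i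
      · rw [sum_gg_indep hc]
        simp only [hc, not_true_eq_false, if_false, mul_zero, le_refl]
      · rw [if_pos hc, mul_one]
        exact sum_gg_le (hB0 y hy) (hB0 y' hy')
    calc ∑ y' ∈ B', ∑ X : Fin 3 → k, gg (bq n y y) X * gg (bq n y' y') X
        ≤ ∑ y' ∈ B', q ^ 4 *
          (if ¬ ∃ i j, bq n y y i * bq n y' y' j ≠ bq n y y j * bq n y' y' i then 1 else 0) :=
          Finset.sum_le_sum h3
      _ ≤ ∑ y' : Fin 3 → k, q ^ 4 *
          (if ¬ ∃ i j, bq n y y i * bq n y' y' j ≠ bq n y y j * bq n y' y' i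
            then 1 else 0) := by
          refine Finset.sum_le_sum_of_subset_of_nonneg (Finset.subset_univ _) ?_
          intro y' _ _
          split_ifs <;> simp <;> positivity
      _ = q ^ 4 * ((univ.filter (fun y' : Fin 3 → k =>
            ¬ ∃ i j, bq n y y i * bq n y' y' j ≠ bq n y y j * bq n y' y' i)).card : ℤ) := by
          rw [← Finset.mul_sum, Finset.sum_boole]
      _ ≤ q ^ 4 * (8 * q) := by
          refine mul_le_mul_of_nonneg_left ?_ (by positivity)
          have := card_prop hn (hB0 y hy)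
          rw [hq]
          exact_mod_cast this
      _ = 8 * q ^ 5 := by ring
  calc ∑ y ∈ B', ∑ y' ∈ B', ∑ X : Fin 3 → k, gg (bq n y y) X * gg (bq n y' y') X
      ≤ ∑ y ∈ B', 8 * q ^ 5 := Finset.sum_le_sum h2
    _ = 8 * q ^ 5 * (B'.card : ℤ) := by
      rw [Finset.sum_const, nsmul_eq_mul]
      ring

end MIX

open MIX in
open Pool.Agent.T6.H77.DW.MX (ncard_eq gg sum_gg_indep sum_gg_le) in
theorem mix : StmMIX := by
  intro C
  refine ⟨64 * C ^ 2 + 1, ?_⟩
  intro k _ _ m n hq0 hm hn A B hA hB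
  by_contra hcon
  push Not at hcon
  have hcard : 0 < Fintype.card k := Fintype.card_pos
  set A' : Finset (Fin 3 → k) := univ.filter (fun y => y ∈ A) with hA'
  set B' : Finset (Fin 3 → k) := univ.filter (fun y => y ∈ B) with hB'
  have hAc : A.ncard = A'.card := by
    rw [hA', ← ncard_eq]
    rfl
  have hBc : B.ncard = B'.card := by
    rw [hB', ← ncard_eq]
    rfl
  have hmemB : ∀ y, y ∈ B' ↔ y ∈ B := fun y => by rw [hB', mem_filter]; simp
  have hmemA : ∀ y, y ∈ A' ↔ y ∈ A := fun y => by rw [hA', mem_filter]; simp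
  have hAne : A'.Nonempty := by
    rw [← Finset.card_pos, ← hAc]
    rcases Nat.eq_zero_or_pos A.ncard with h | h
    · rw [h, mul_zero] at hA
      have : 0 < Fintype.card k ^ 3 := by positivity
      omega
    · exact h
  have hB0 : ∀ y ∈ B', ∃ i, bq n y y i ≠ 0 := by
    intro y hy
    obtain ⟨x, hx⟩ := hAne
    by_contra hc
    push Not at hc
    apply hcon x ((hmemA x).1 hx) y ((hmemB y).1 hy)
    unfold fm
    exact Finset.sum_eq_zero fun i _ => by rw [hc i, mul_zero]
  have hmom := moment hn B' hB0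
  set q : ℤ := (Fintype.card k : ℤ) with hq
  set T : Finset (Fin 3 → k) := A'.image (fun x => bq m x x) with hT
  have hTA : A'.card ≤ 8 * T.card := by
    have h1 : A'.card ≤ ∑ X ∈ T, (A'.filter (fun x => bq m x x = X)).card := by
      rw [← Finset.card_eq_sum_card_fiberwise]
      intro x hx
      exact Finset.mem_image_of_mem _ hx
    refine h1.trans ?_
    calc ∑ X ∈ T, (A'.filter (fun x => bq m x x = X)).card ≤ ∑ X ∈ T, 8 := by
          refine Finset.sum_le_sum fun X _ => ?_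
          have h2 := hm.fib X
          rw [ncard_eq] at h2
          refine (Finset.card_le_card ?_).trans h2
          intro x hx
          rw [mem_filter] at hx
          rw [mem_filter]
          exact ⟨mem_univ _, fun i => by rw [hx.2]⟩
      _ = 8 * T.card := by rw [Finset.sum_const, smul_eq_mul, mul_comm]
  have hval : ∀ X ∈ T, (∑ y ∈ B', gg (bq n y y) X) ^ 2 = (B'.card : ℤ) ^ 2 := by
    intro X hX
    rw [hT, mem_image] at hX
    obtain ⟨x, hx, rfl⟩ := hX
    have h1 : ∑ y ∈ B', gg (bq n y y) (bq m x x) = ∑ y ∈ B', (-1 : ℤ) := by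
      refine Finset.sum_congr rfl fun y hy => ?_
      unfold gg
      rw [if_neg, mul_zero, zero_sub]
      exact hcon x ((hmemA x).1 hx) y ((hmemB y).1 hy)
    rw [h1, Finset.sum_const, nsmul_eq_mul]
    ring
  have h4 : (T.card : ℤ) * (B'.card : ℤ) ^ 2 ≤ 8 * q ^ 5 * (B'.card : ℤ) := by
    calc (T.card : ℤ) * (B'.card : ℤ) ^ 2 = ∑ X ∈ T, (∑ y ∈ B', gg (bq n y y) X) ^ 2 := by
          rw [Finset.sum_congr rfl hval, Finset.sum_const, nsmul_eq_mul]
      _ ≤ ∑ X : Fin 3 → k, (∑ y ∈ B', gg (bq n y y) X) ^ 2 :=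
          Finset.sum_le_sum_of_subset_of_nonneg (Finset.subset_univ _)
            (fun X _ _ => by positivity)
      _ ≤ _ := hmom
  have hBpos : 0 < B'.card := by
    rw [← hBc]
    rcases Nat.eq_zero_or_pos B.ncard with h | h
    · rw [h, mul_zero] at hB
      have : 0 < Fintype.card k ^ 3 := by positivity
      omega
    · exact h
  have h5 : (T.card : ℤ) * (B'.card : ℤ) ≤ 8 * q ^ 5 := by
    have hposZ : (0:ℤ) < (B'.card : ℤ) := by exact_mod_cast hBpos
    refine le_of_mul_le_mul_right ?_ hposZ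
    nlinarith
  have h6 : T.card * B'.card ≤ 8 * Fintype.card k ^ 5 := by
    rw [hq] at h5
    exact_mod_cast h5
  rw [hAc] at hA
  rw [hBc] at hB
  have h7 : Fintype.card k ^ 3 * Fintype.card k ^ 3 ≤ (C * A'.card) * (C * B'.card) :=
    Nat.mul_le_mul hA hB
  have h8 : (C * A'.card) * (C * B'.card) ≤ 64 * C ^ 2 * Fintype.card k ^ 5 := by
    calc (C * A'.card) * (C * B'.card) = C ^ 2 * (A'.card * B'.card) := by ring
      _ ≤ C ^ 2 * ((8 * T.card) * B'.card) :=
          Nat.mul_le_mul le_rfl (Nat.mul_le_mul hTA le_rfl)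
      _ = 8 * C ^ 2 * (T.card * B'.card) := by ring
      _ ≤ 8 * C ^ 2 * (8 * Fintype.card k ^ 5) := Nat.mul_le_mul le_rfl h6
      _ = 64 * C ^ 2 * Fintype.card k ^ 5 := by ring
  have h9 : Fintype.card k * Fintype.card k ^ 5 ≤ 64 * C ^ 2 * Fintype.card k ^ 5 := by
    calc Fintype.card k * Fintype.card k ^ 5 = Fintype.card k ^ 3 * Fintype.card k ^ 3 := by ring
      _ ≤ _ := h7.trans h8
  have h10 : Fintype.card k ≤ 64 * C ^ 2 := Nat.le_of_mul_le_mul_right h9 (by positivity)
  omega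

end Pool.Agent.T6.H77.RK
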