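import Pool.Agent.T6.H77.RK.Stm
import Pool.Agent.T6.H77.DW.HU
import Pool.Agent.T6.H77.DW.LINK

/-!
# Hypersurfaces of bidegree (2, 2) of rank three: small moves, limits of smooth points (helper43)
-/

set_option autoImplicit false

open Finset Filter Topology

namespace Pool.Agent.T6.H77.RK

namespace NSD

section alg

variable {k : Type} [Field k] (m n : Fin 3 → Fin 3 → Fin 3 → k)

lemma bq_symm (hs : ∀ i a b, m i a b = m i b a) (x z : Fin 3 → k) (i : Fin 3) :
    bq m x z i = bq m z x i := by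
  simp only [bq, Fin.sum_univ_three]
  rw [hs i 1 0, hs i 2 0, hs i 2 1]
  ring

lemma bq_right (x z u : Fin 3 → k) (c : k) (i : Fin 3) :
    bq m x (z + c • u) i = bq m x z i + c * bq m x u i := by
  simp only [bq, Fin.sum_univ_three, Pi.add_apply, Pi.smul_apply, smul_eq_mul]
  ring

lemma bq_left (x z u : Fin 3 → k) (c : k) (i : Fin 3) :
    bq m (z + c • u) x i = bq m z x i + c * bq m u x i := by
  simp only [bq, Fin.sum_univ_three, Pi.add_apply, Pi.smul_apply, smul_eq_mul]
  ring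

lemma pl_symm (hs : ∀ i a b, m i a b = m i b a) (y x z : Fin 3 → k) :
    pl m n y x z = pl m n y z x := by
  unfold pl
  exact Finset.sum_congr rfl fun i _ => by rw [bq_symm m hs]

lemma pl_right (y x z u : Fin 3 → k) (c : k) :
    pl m n y x (z + c • u) = pl m n y x z + c * pl m n y x u := by
  unfold pl
  rw [Finset.mul_sum, ← Finset.sum_add_distrib]
  exact Finset.sum_congr rfl fun i _ => by rw [bq_right]; ring

lemma pl_left (y x z u : Fin 3 → k) (c : k) :
    pl m n y (z + c • u) x = pl m n y z x + c * pl m n y u x := by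
  unfold pl
  rw [Finset.mul_sum, ← Finset.sum_add_distrib]
  exact Finset.sum_congr rfl fun i _ => by rw [bq_left]; ring

lemma fm_pl (x y : Fin 3 → k) : fm m n x y = pl m n y x x := rfl

lemma fm_swap (x y : Fin 3 → k) : fm m n x y = fm n m y x := by
  unfold fm
  exact Finset.sum_congr rfl fun i _ => mul_comm _ _

lemma pl_single (y x z : Fin 3 → k) :
    pl m n y x z = ∑ j, z j * pl m n y x (Pi.single j 1) := by
  have e : z = (0 : Fin 3 → k) + ∑ j, z j • Pi.single j (1 : k) := by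
    rw [zero_add]
    funext j
    simp [Finset.sum_apply, Pi.single_apply]
  have h0 : pl m n y x 0 = 0 := by
    simp [pl, bq]
  have h1 : ∀ s : Finset (Fin 3), pl m n y x (∑ j ∈ s, z j • Pi.single j (1 : k)) =
      ∑ j ∈ s, z j * pl m n y x (Pi.single j 1) := by
    intro s
    classical
    induction s using Finset.induction_on with
    | empty => simpa using h0
    | insert a s ha ih =>
      rw [Finset.sum_insert ha, Finset.sum_insert ha, add_comm (z a • _), pl_right, ih, add_comm]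
  rw [← h1 univ]
  congr 1
  rw [zero_add] at e
  exact e

end alg

section red

variable {L k : Type} [NontriviallyNormedField L] [IsUltrametricDist L] [Field k] {π : L → k}

lemma bq_le1 {m : Fin 3 → Fin 3 → Fin 3 → L} (hm : ∀ i a b, ‖m i a b‖ ≤ 1) {x z : Fin 3 → L}
    (hx : ∀ i, ‖x i‖ ≤ 1) (hz : ∀ i, ‖z i‖ ≤ 1) (i : Fin 3) : ‖bq m x z i‖ ≤ 1 :=
  DW.sum3_le fun a => DW.sum3_le fun b => DW.mul_le1 (DW.mul_le1 (hm i a b) (hx a)) (hz b)

lemma bq_red (h : DW.Res π) {m : Fin 3 → Fin 3 → Fin 3 → L} (hm : ∀ i a b, ‖m i a b‖ ≤ 1)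
    {x z : Fin 3 → L} (hx : ∀ i, ‖x i‖ ≤ 1) (hz : ∀ i, ‖z i‖ ≤ 1) (i : Fin 3) :
    π (bq m x z i) = bq (fun i a b => π (m i a b)) (fun j => π (x j)) (fun j => π (z j)) i := by
  unfold bq
  rw [h.sum3 fun a => DW.sum3_le fun b => DW.mul_le1 (DW.mul_le1 (hm i a b) (hx a)) (hz b)]
  refine Finset.sum_congr rfl fun a _ => ?_
  rw [h.sum3 fun b => DW.mul_le1 (DW.mul_le1 (hm i a b) (hx a)) (hz b)]
  exact Finset.sum_congr rfl fun b _ => by
    rw [h.mul _ _ (DW.mul_le1 (hm i a b) (hx a)) (hz b), h.mul _ _ (hm i a b) (hx a)]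

lemma pl_le1 {m n : Fin 3 → Fin 3 → Fin 3 → L} (hm : ∀ i a b, ‖m i a b‖ ≤ 1)
    (hn : ∀ i a b, ‖n i a b‖ ≤ 1) {y x z : Fin 3 → L} (hy : ∀ i, ‖y i‖ ≤ 1)
    (hx : ∀ i, ‖x i‖ ≤ 1) (hz : ∀ i, ‖z i‖ ≤ 1) : ‖pl m n y x z‖ ≤ 1 :=
  DW.sum3_le fun i => DW.mul_le1 (bq_le1 hm hx hz i) (bq_le1 hn hy hy i)

lemma pl_red (h : DW.Res π) {m n : Fin 3 → Fin 3 → Fin 3 → L} (hm : ∀ i a b, ‖m i a b‖ ≤ 1)
    (hn : ∀ i a b, ‖n i a b‖ ≤ 1) {y x z : Fin 3 → L} (hy : ∀ i, ‖y i‖ ≤ 1)
    (hx : ∀ i, ‖x i‖ ≤ 1) (hz : ∀ i, ‖z i‖ ≤ 1) :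
    π (pl m n y x z) = pl (fun i a b => π (m i a b)) (fun i a b => π (n i a b))
      (fun j => π (y j)) (fun j => π (x j)) (fun j => π (z j)) := by
  unfold pl
  rw [h.sum3 fun i => DW.mul_le1 (bq_le1 hm hx hz i) (bq_le1 hn hy hy i)]
  exact Finset.sum_congr rfl fun i _ => by
    rw [h.mul _ _ (bq_le1 hm hx hz i) (bq_le1 hn hy hy i), bq_red h hm hx hz, bq_red h hn hy hy]

end red

end NSD

open NSD in
theorem ns : StmNS := by
  intro L k _ _ _ _ π hπ h2 m n hs hm hn x y hx hy hF hx' hz hf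
  have h2L : ‖(2 : L)‖ = 1 := hπ.norm_two h2
  have h20 : (2 : L) ≠ 0 := by
    intro h; rw [h, norm_zero] at h2L; exact zero_ne_one h2L
  obtain ⟨z, hz'⟩ := hf
  choose u₀ hu₀ hu₀z using fun i => hπ.surj (z i)
  -- an index with a nonzero coordinate
  obtain ⟨j, hj⟩ : ∃ j, pl m n y x (Pi.single j 1) ≠ 0 := by
    by_contra hc
    push Not at hc
    obtain ⟨x', hx'⟩ := hx'
    apply hx'
    rw [pl_single]
    exact Finset.sum_eq_zero fun j _ => by rw [hc j, mul_zero]
  -- the vector `u`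
  obtain ⟨u, hu1, huz, hu⟩ : ∃ u : Fin 3 → L, (∀ i, ‖u i‖ ≤ 1) ∧ (∀ i, π (u i) = z i) ∧
      pl m n y x u ≠ 0 := by
    by_cases h0 : pl m n y x u₀ ≠ 0
    · exact ⟨u₀, hu₀, hu₀z, h0⟩
    · push Not at h0
      obtain ⟨c, hc0, hc1⟩ := NormedField.exists_norm_lt_one L
      have hc0' : c ≠ 0 := norm_pos_iff.1 hc0
      have key : ∀ i, ‖(u₀ + c • (Pi.single j (1 : L) : Fin 3 → L)) i - u₀ i‖ < 1 := by
        intro i
        rw [Pi.add_apply, add_sub_cancel_left, Pi.smul_apply, smul_eq_mul, norm_mul]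
        by_cases hij : i = j
        · rw [hij, Pi.single_eq_same, norm_one, mul_one]; exact hc1
        · rw [Pi.single_eq_of_ne hij, norm_zero, mul_zero]; exact one_pos
      refine ⟨u₀ + c • (Pi.single j (1 : L) : Fin 3 → L), fun i => (hπ.eq_of (hu₀ i) (key i)).1, fun i => ?_, ?_⟩
      · rw [(hπ.eq_of (hu₀ i) (key i)).2, hu₀z]
      · rw [pl_right, h0, zero_add]
        exact mul_ne_zero hc0' hj
  have hzu : (fun i => π (u i)) = z := funext huz
  have hq : ‖fm m n u y‖ = 1 := by
    rw [fm_pl]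
    refine hπ.norm_one_of (pl_le1 hm hn hy hu1 hu1) ?_
    rw [pl_red hπ hm hn hy hu1 hu1, hzu]
    exact hz'
  have hq0 : fm m n u y ≠ 0 := by
    intro h; rw [h, norm_zero] at hq; exact zero_ne_one hq
  have hb : ‖pl m n y x u‖ < 1 := by
    rw [← hπ.ker _ (pl_le1 hm hn hy hx hu1), pl_red hπ hm hn hy hx hu1]
    exact hz _
  set t := 2 * pl m n y x u / fm m n u y with ht
  have htn : ‖t‖ < 1 := by
    rw [ht, norm_div, hq, div_one, norm_mul, h2L, one_mul]; exact hb
  have htq : t * fm m n u y = 2 * pl m n y x u := by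
    rw [ht]; field_simp
  have hxi : ∀ i, ‖(x + (-t) • u) i - x i‖ < 1 := by
    intro i
    rw [Pi.add_apply, add_sub_cancel_left, Pi.smul_apply, smul_eq_mul, norm_mul, norm_neg]
    calc ‖t‖ * ‖u i‖ ≤ ‖t‖ * 1 := mul_le_mul_of_nonneg_left (hu1 i) (norm_nonneg _)
      _ < 1 := by rw [mul_one]; exact htn
  refine ⟨x + (-t) • u, fun i => (hπ.eq_of (hx i) (hxi i)).1, fun i =>
    (hπ.eq_of (hx i) (hxi i)).2, ?_, ?_⟩
  · rw [fm_pl, pl_right, pl_left, pl_left, pl_symm m n hs y u x, ← fm_pl m n x y, hF,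
      ← fm_pl m n u y]
    linear_combination t * htq
  · rw [pl_right, ← fm_pl m n x y, hF, zero_add]
    refine mul_ne_zero (neg_ne_zero.2 ?_) hu
    rw [ht]
    exact div_ne_zero (mul_ne_zero h20 hu) hq0

open NSD in
theorem den : StmDEN := by
  intro L _ _ _ m n h2 hs hj hQ x y hF hg ε hε
  have h20 : (2 : L) ≠ 0 := by
    intro h; rw [h, norm_zero] at h2; exact zero_ne_one h2
  obtain ⟨g, hg⟩ := hg
  obtain ⟨x₀, hx₀⟩ := hj
  obtain ⟨j, hyj⟩ : ∃ j, y j ≠ 0 := by
    by_contra hc
    push Not at hc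
    apply hg
    simp [pl, bq, hc]
  set X : L → (Fin 3 → L) := fun t => x + t • x₀ with hX
  have hXc : Continuous X := by
    rw [hX]
    exact continuous_const.add (continuous_id.smul continuous_const)
  have hbc : ∀ (p : Fin 3 → Fin 3 → Fin 3 → L) (f f' : L → (Fin 3 → L)), Continuous f →
      Continuous f' → ∀ i, Continuous fun t => bq p (f t) (f' t) i := by
    intro p f f' hf hf' i
    unfold bq
    refine continuous_finset_sum _ fun a _ => continuous_finset_sum _ fun b _ => ?_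
    exact (continuous_const.mul ((continuous_apply a).comp hf)).mul ((continuous_apply b).comp hf')
  have hc0c : Continuous fun t => fm m n (X t) y := by
    unfold fm
    exact continuous_finset_sum _ fun i _ => (hbc m X X hXc hXc i).mul continuous_const
  have hc1c : Continuous fun t => pl n m (X t) y g := by
    unfold pl
    exact continuous_finset_sum _ fun i _ => continuous_const.mul (hbc m X X hXc hXc i)
  have hc2c : Continuous fun t => fm m n (X t) g := by
    unfold fm
    exact continuous_finset_sum _ fun i _ => (hbc m X X hXc hXc i).mul continuous_const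
  have hX0 : X 0 = x := by rw [hX]; simp
  have hne : ∀ᶠ t in 𝓝 (0 : L), pl n m (X t) y g ≠ 0 := by
    refine hc1c.continuousAt.eventually_ne ?_
    rw [hX0]; exact hg
  have hd1 : ContinuousAt (fun t => fm m n (X t) y * fm m n (X t) g / pl n m (X t) y g ^ 2) 0 := by
    refine (hc0c.mul hc2c).continuousAt.div (hc1c.pow 2).continuousAt ?_
    rw [hX0]; exact pow_ne_zero _ hg
  have hd2 : ContinuousAt (fun t => fm m n (X t) y / pl n m (X t) y g) 0 := by
    refine hc0c.continuousAt.div hc1c.continuousAt ?_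
    rw [hX0]; exact hg
  have e1 : ∀ᶠ t in 𝓝 (0 : L),
      ‖fm m n (X t) y * fm m n (X t) g / pl n m (X t) y g ^ 2‖ < 1 := by
    have := hd1.norm
    refine this.eventually_lt_const ?_
    simp only
    rw [hX0, hF]; simp
  set ε' := min ε ‖y j‖ with hε'
  have hε'0 : 0 < ε' := lt_min hε (norm_pos_iff.2 hyj)
  have e2 : ∀ᶠ t in 𝓝 (0 : L), ∀ i, ‖fm m n (X t) y / pl n m (X t) y g * g i‖ < ε' := by
    rw [eventually_all]
    intro i
    have : ContinuousAt (fun t => ‖fm m n (X t) y / pl n m (X t) y g * g i‖) 0 :=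
      (hd2.mul (continuousAt_const (y := g i))).norm
    refine this.eventually_lt_const ?_
    simp only
    rw [hX0, hF]; simpa using hε'0
  have e3 : ∀ᶠ t in 𝓝 (0 : L), ∀ i, ‖X t i - x i‖ < ε := by
    rw [eventually_all]
    intro i
    have : Continuous fun t => ‖X t i - x i‖ := by
      exact (((continuous_apply i).comp hXc).sub continuous_const).norm
    refine this.continuousAt.eventually_lt_const ?_
    simp only
    rw [hX0]; simpa using hε
  have e4 : ∀ᶠ t in 𝓝[≠] (0 : L), (jm m (X t)).det ≠ 0 := by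
    classical
    set p : Polynomial L := ((Polynomial.X : Polynomial L) • (jm m x₀).map Polynomial.C +
      (jm m x).map Polynomial.C).det with hp
    have hp0 : p ≠ 0 := by
      intro h0
      have := Polynomial.coeff_det_X_add_C_card (jm m x₀) (jm m x)
      rw [← hp, h0, Polynomial.coeff_zero] at this
      exact hx₀ this.symm
    have hev : ∀ t, p.eval t = (jm m (X t)).det := by
      intro t
      rw [hp, ← Polynomial.coe_evalRingHom, RingHom.map_det]
      congr 1
      ext a b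
      simp only [RingHom.mapMatrix_apply, Matrix.map_apply, Matrix.add_apply, Matrix.smul_apply,
        smul_eq_mul, Polynomial.coe_evalRingHom, Polynomial.eval_add, Polynomial.eval_mul,
        Polynomial.eval_X, Polynomial.eval_C, jm, Matrix.of_apply, hX, Pi.add_apply, Pi.smul_apply,
        Fin.sum_univ_three]
      ring
    have hfin : (p.rootSet L).Finite := Polynomial.rootSet_finite p L
    have hcl : IsClosed ((p.rootSet L) \ {0} : Set L) := (hfin.subset Set.diff_subset).isClosed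
    have hop := hcl.isOpen_compl.mem_nhds (show (0 : L) ∈ ((p.rootSet L) \ {0} : Set L)ᶜ by simp)
    rw [eventually_nhdsWithin_iff]
    filter_upwards [hop] with t ht ht0 hdet
    apply ht
    refine ⟨?_, ht0⟩
    rw [Polynomial.mem_rootSet]
    refine ⟨hp0, ?_⟩
    rw [Polynomial.coe_aeval_eq_eval, hev, hdet]
  obtain ⟨t, ⟨⟨⟨h1, h3⟩, h4⟩, h5⟩, h6⟩ :=
    ((((hne.and e1).and e2).and e3).filter_mono nhdsWithin_le_nhds |>.and e4).exists
  set c0 := fm m n (X t) y with hc0
  set c1 := pl n m (X t) y g with hc1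
  set c2 := fm m n (X t) g with hc2
  obtain ⟨r, hr, hr1⟩ := DW.hens L h2 (1 - c0 * c2 / c1 ^ 2) (by
    rw [sub_sub_cancel_left, norm_neg]; exact h3)
  have hr1' : ‖r - 1‖ < 1 := by
    refine lt_of_le_of_lt hr1 ?_
    rw [sub_sub_cancel_left, norm_neg]; exact h3
  have h1r : ‖1 + r‖ = 1 := by
    have e : (1 + r) = 2 + (r - 1) := by ring
    rw [e, IsUltrametricDist.norm_add_eq_max_of_norm_ne_norm (by rw [h2]; exact hr1'.ne'), h2]
    exact max_eq_left hr1'.le
  have h1r0 : 1 + r ≠ 0 := by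
    intro h; rw [h, norm_zero] at h1r; exact zero_ne_one h1r
  set s := -c0 / (c1 * (1 + r)) with hs'
  have hroot : c0 + 2 * s * c1 + s ^ 2 * c2 = 0 := by
    have hc1' : c1 ≠ 0 := h1
    have hr2 : r ^ 2 * c1 ^ 2 = c1 ^ 2 - c0 * c2 := by
      rw [hr]; field_simp
    rw [hs']
    field_simp
    linear_combination (c0) * hr2
  have hsn : ∀ i, ‖s * g i‖ < ε' := by
    intro i
    have : ‖s * g i‖ = ‖c0 / c1 * g i‖ := by
      rw [hs', norm_mul, norm_mul, norm_div, norm_div, norm_mul, h1r, mul_one, norm_neg]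
    rw [this]
    exact h4 i
  have hyn : y + s • g ≠ 0 := by
    intro h
    have h7 := congrFun h j
    rw [Pi.add_apply, Pi.smul_apply, smul_eq_mul, Pi.zero_apply] at h7
    have h8 : ‖y j‖ = ‖s * g j‖ := by
      rw [← norm_neg (y j)]
      congr 1
      linear_combination -h7
    have h9 := hsn j
    rw [← h8] at h9
    exact absurd (min_le_right ε ‖y j‖) (not_le.2 h9)
  refine ⟨X t, y + s • g, ?_, ?_, ?_⟩
  · rw [fm_swap, fm_pl, pl_right, pl_left, pl_left, pl_symm n m hs (X t) g y, ← fm_pl n m y (X t),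
      ← fm_swap m n, ← fm_pl n m g (X t), ← fm_swap m n]
    linear_combination hroot
  · by_contra hc
    push Not at hc
    apply hyn
    apply hQ
    have hv : Matrix.vecMul (fun i => bq n (y + s • g) (y + s • g) i) (jm m (X t)) = 0 := by
      funext b
      have := hc (Pi.single b 1)
      rw [pl] at this
      rw [Matrix.vecMul, dotProduct, Pi.zero_apply, ← this]
      refine Finset.sum_congr rfl fun i _ => ?_
      rw [mul_comm]
      congr 1
      simp only [jm, Matrix.of_apply, bq]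
      refine Finset.sum_congr rfl fun a _ => ?_
      rw [Finset.sum_eq_single b]
      · rw [Pi.single_eq_same, mul_one]
      · intro b' _ hb'
        rw [Pi.single_eq_of_ne hb', mul_zero]
      · intro h; exact absurd (Finset.mem_univ b) h
    have := Matrix.eq_zero_of_vecMul_eq_zero h6 hv
    exact fun i => congrFun this i
  · intro i
    refine ⟨h5 i, ?_⟩
    rw [Pi.add_apply, add_sub_cancel_left, Pi.smul_apply, smul_eq_mul]
    exact (hsn i).trans_le (min_le_left _ _)

end Pool.Agent.T6.H77.RK
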