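import Pool.Agent.T6.H77.RK.Stm
import Pool.Agent.T6.H77.DW.LINK
import Pool.Agent.T6.H77.DW.LIFT

/-!
# Hypersurfaces of bidegree (2, 2) of rank three: basic lemmas (helper77)
-/

set_option autoImplicit false

namespace Pool.Agent.T6.H77.RK

section alg

variable {k : Type} [Field k] {m n : Fin 3 → Fin 3 → Fin 3 → k}

theorem bq_symm (hs : ∀ i a b, m i a b = m i b a) (x x' : Fin 3 → k) (i : Fin 3) :
    bq m x x' i = bq m x' x i := by
  unfold bq
  rw [Finset.sum_comm]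
  refine Finset.sum_congr rfl fun a _ => Finset.sum_congr rfl fun b _ => ?_
  rw [hs i b a]; ring

theorem fm_swap (x y : Fin 3 → k) : fm n m y x = fm m n x y := by
  unfold fm
  exact Finset.sum_congr rfl fun i _ => mul_comm _ _

theorem pl_self (x y : Fin 3 → k) : pl m n y x x = fm m n x y := rfl

theorem pl_symm (hs : ∀ i a b, m i a b = m i b a) (y x x' : Fin 3 → k) :
    pl m n y x x' = pl m n y x' x := by
  unfold pl
  exact Finset.sum_congr rfl fun i _ => by rw [bq_symm hs x x' i]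

theorem bq_add_left (x z x' : Fin 3 → k) (i : Fin 3) :
    bq m (x + z) x' i = bq m x x' i + bq m z x' i := by
  simp only [bq, Fin.sum_univ_three, Pi.add_apply]; ring

theorem bq_add_right (x x' z : Fin 3 → k) (i : Fin 3) :
    bq m x (x' + z) i = bq m x x' i + bq m x z i := by
  simp only [bq, Fin.sum_univ_three, Pi.add_apply]; ring

theorem bq_smul_left (c : k) (x x' : Fin 3 → k) (i : Fin 3) :
    bq m (c • x) x' i = c * bq m x x' i := by
  simp only [bq, Fin.sum_univ_three, Pi.smul_apply, smul_eq_mul]; ring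

theorem bq_smul_right (c : k) (x x' : Fin 3 → k) (i : Fin 3) :
    bq m x (c • x') i = c * bq m x x' i := by
  simp only [bq, Fin.sum_univ_three, Pi.smul_apply, smul_eq_mul]; ring

theorem fm_smul (b c : k) (x y : Fin 3 → k) :
    fm m n (b • x) (c • y) = (b * c) ^ 2 * fm m n x y := by
  simp only [fm, bq_smul_left, bq_smul_right, Fin.sum_univ_three]; ring

theorem pl_smul (b b' c : k) (y x x' : Fin 3 → k) :
    pl m n (c • y) (b • x) (b' • x') = b * b' * c ^ 2 * pl m n y x x' := by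
  simp only [pl, bq_smul_left, bq_smul_right, Fin.sum_univ_three]; ring

theorem pl_add_right (y x x' z : Fin 3 → k) :
    pl m n y x (x' + z) = pl m n y x x' + pl m n y x z := by
  simp only [pl, bq_add_right, Fin.sum_univ_three]; ring

theorem pl_smul_right (c : k) (y x x' : Fin 3 → k) :
    pl m n y x (c • x') = c * pl m n y x x' := by
  simp only [pl, bq_smul_right, Fin.sum_univ_three]; ring

theorem pl_smul_left (c : k) (y x x' : Fin 3 → k) :
    pl m n y (c • x) x' = c * pl m n y x x' := by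
  simp only [pl, bq_smul_left, Fin.sum_univ_three]; ring

theorem fm_add (hs : ∀ i a b, m i a b = m i b a) (x u y : Fin 3 → k) :
    fm m n (x + u) y = fm m n x y + 2 * pl m n y x u + fm m n u y := by
  simp only [fm, pl, bq_add_right, bq_add_left, Fin.sum_univ_three, bq_symm hs u x]; ring

/-- the reflected point -/
theorem fm_ref (hs : ∀ i a b, m i a b = m i b a) {x y : Fin 3 → k} (h : fm m n x y = 0)
    (u : Fin 3 → k) (c : k) :
    fm m n (c • (fm m n u y • x + (-(2 * pl m n y x u)) • u)) y = 0 := by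
  have h1 : fm m n (c • (fm m n u y • x + (-(2 * pl m n y x u)) • u)) y =
      c ^ 2 * fm m n (fm m n u y • x + (-(2 * pl m n y x u)) • u) y := by
    have := fm_smul (m := m) (n := n) c 1 (fm m n u y • x + (-(2 * pl m n y x u)) • u) y
    rw [one_smul] at this
    rw [this]; ring
  have h2 : ∀ (d : k) (z : Fin 3 → k), fm m n (d • z) y = d ^ 2 * fm m n z y := by
    intro d z
    have := fm_smul (m := m) (n := n) d 1 z y
    rw [one_smul] at this
    rw [this]; ring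
  rw [h1, fm_add hs, h2, h2, h, pl_smul_left, pl_smul_right]
  ring

theorem St.smul {t : Bool} {p q : (Fin 3 → k) × (Fin 3 → k)} (h : St m n t p q) {b c d : k}
    (hb : b ≠ 0) (hc : c ≠ 0) (hd : d ≠ 0) :
    St m n t (b • p.1, c • p.2) (if t then (d • q.1, c • q.2) else (b • q.1, d • q.2)) := by
  cases t
  · simp only [St, Bool.false_eq_true, ↓reduceIte] at h ⊢
    refine ⟨by rw [h.1], ?_⟩
    rw [pl_smul]
    exact mul_ne_zero (mul_ne_zero (mul_ne_zero hc hd) (pow_ne_zero _ hb)) h.2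
  · simp only [St, ↓reduceIte] at h ⊢
    refine ⟨by rw [h.1], ?_⟩
    rw [pl_smul]
    exact mul_ne_zero (mul_ne_zero (mul_ne_zero hb hd) (pow_ne_zero _ hc)) h.2

theorem St.symm (hm : ∀ i a b, m i a b = m i b a) (hn : ∀ i a b, n i a b = n i b a) {t : Bool}
    {p q : (Fin 3 → k) × (Fin 3 → k)} (h : St m n t p q) : St m n t q p := by
  cases t
  · simp only [St, Bool.false_eq_true, ↓reduceIte] at h ⊢
    exact ⟨h.1.symm, by rw [← h.1, pl_symm hn]; exact h.2⟩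
  · simp only [St, ↓reduceIte] at h ⊢
    exact ⟨h.1.symm, by rw [← h.1, pl_symm hm]; exact h.2⟩

theorem Wd.append {w w' : List Bool} {p q r : (Fin 3 → k) × (Fin 3 → k)} (h : Wd m n w p q)
    (h' : Wd m n w' q r) : Wd m n (w ++ w') p r := by
  induction w generalizing p with
  | nil =>
    change p = q at h
    rw [h]
    exact h'
  | cons b w ih =>
    obtain ⟨s, hs, hst, hw⟩ := h
    exact ⟨s, hs, hst, ih hw⟩

theorem Wd.fm0 {w : List Bool} {p q : (Fin 3 → k) × (Fin 3 → k)} (h : Wd m n w p q)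
    (hp : fm m n p.1 p.2 = 0) : fm m n q.1 q.2 = 0 := by
  induction w generalizing p with
  | nil =>
    change p = q at h
    rw [← h]
    exact hp
  | cons b w ih =>
    obtain ⟨s, hs, hst, hw⟩ := h
    exact ih hw hs

theorem Wd.rev (hm : ∀ i a b, m i a b = m i b a) (hn : ∀ i a b, n i a b = n i b a)
    {w : List Bool} {p q : (Fin 3 → k) × (Fin 3 → k)} (h : Wd m n w p q)
    (hp : fm m n p.1 p.2 = 0) : Wd m n w.reverse q p := by
  induction w generalizing p with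
  | nil =>
    change p = q at h
    change q = p
    exact h.symm
  | cons b w ih =>
    obtain ⟨s, hs, hst, hw⟩ := h
    rw [List.reverse_cons]
    exact (ih hw hs).append ⟨p, hp, hst.symm hm hn, rfl⟩

theorem Wd.scale {w : List Bool} {p q : (Fin 3 → k) × (Fin 3 → k)} (h : Wd m n w p q)
    (b c b' c' : k) (hb : b ≠ 0) (hc : c ≠ 0) (hb' : b' ≠ 0) (hc' : c' ≠ 0)
    (h1 : true ∈ w ∨ b = b') (h2 : false ∈ w ∨ c = c') :
    Wd m n w (b • p.1, c • p.2) (b' • q.1, c' • q.2) := by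
  induction w generalizing p b c with
  | nil =>
    change p = q at h
    have e1 : b = b' := h1.resolve_left (by simp)
    have e2 : c = c' := h2.resolve_left (by simp)
    rw [h, e1, e2]
    rfl
  | cons t w ih =>
    obtain ⟨s, hs, hst, hw⟩ := h
    cases t
    · refine ⟨(b • s.1, c' • s.2), ?_, ?_, ?_⟩
      · rw [fm_smul, hs, mul_zero]
      · have := hst.smul hb hc hc'
        simpa using this
      · exact ih hw b c' hb hc' (by simpa using h1) (Or.inr rfl)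
    · refine ⟨(b' • s.1, c • s.2), ?_, ?_, ?_⟩
      · rw [fm_smul, hs, mul_zero]
      · have := hst.smul hb hc hb'
        simpa using this
      · exact ih hw b' c hb' hc (Or.inr rfl) (by simpa using h2)

end alg

/-! ### reductions -/

section red

variable {L k : Type} [NontriviallyNormedField L] [IsUltrametricDist L] [Field k] {π : L → k}
  {m n : Fin 3 → Fin 3 → Fin 3 → L}

theorem bq_le (hm : ∀ i a b, ‖m i a b‖ ≤ 1) {x x' : Fin 3 → L} (hx : ∀ i, ‖x i‖ ≤ 1)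
    (hx' : ∀ i, ‖x' i‖ ≤ 1) (i : Fin 3) : ‖bq m x x' i‖ ≤ 1 :=
  DW.sum3_le fun a => DW.sum3_le fun b => DW.mul_le1 (DW.mul_le1 (hm _ _ _) (hx _)) (hx' _)

theorem bq_red (h : DW.Res π) (hm : ∀ i a b, ‖m i a b‖ ≤ 1) {x x' : Fin 3 → L}
    (hx : ∀ i, ‖x i‖ ≤ 1) (hx' : ∀ i, ‖x' i‖ ≤ 1) (i : Fin 3) :
    π (bq m x x' i) = bq (fun i a b => π (m i a b)) (fun j => π (x j)) (fun j => π (x' j)) i := by
  unfold bq
  rw [h.sum3 fun a => DW.sum3_le fun b => DW.mul_le1 (DW.mul_le1 (hm _ _ _) (hx _)) (hx' _)]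
  refine Finset.sum_congr rfl fun a _ => ?_
  rw [h.sum3 fun b => DW.mul_le1 (DW.mul_le1 (hm _ _ _) (hx _)) (hx' _)]
  refine Finset.sum_congr rfl fun b _ => ?_
  rw [h.mul _ _ (DW.mul_le1 (hm _ _ _) (hx _)) (hx' _), h.mul _ _ (hm _ _ _) (hx _)]

theorem pl_le (hm : ∀ i a b, ‖m i a b‖ ≤ 1) (hn : ∀ i a b, ‖n i a b‖ ≤ 1) {y x x' : Fin 3 → L}
    (hy : ∀ i, ‖y i‖ ≤ 1) (hx : ∀ i, ‖x i‖ ≤ 1) (hx' : ∀ i, ‖x' i‖ ≤ 1) :
    ‖pl m n y x x'‖ ≤ 1 :=
  DW.sum3_le fun i => DW.mul_le1 (bq_le hm hx hx' i) (bq_le hn hy hy i)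

theorem pl_red (h : DW.Res π) (hm : ∀ i a b, ‖m i a b‖ ≤ 1) (hn : ∀ i a b, ‖n i a b‖ ≤ 1)
    {y x x' : Fin 3 → L} (hy : ∀ i, ‖y i‖ ≤ 1) (hx : ∀ i, ‖x i‖ ≤ 1) (hx' : ∀ i, ‖x' i‖ ≤ 1) :
    π (pl m n y x x') = pl (fun i a b => π (m i a b)) (fun i a b => π (n i a b))
      (fun j => π (y j)) (fun j => π (x j)) (fun j => π (x' j)) := by
  unfold pl
  rw [h.sum3 fun i => DW.mul_le1 (bq_le hm hx hx' i) (bq_le hn hy hy i)]
  refine Finset.sum_congr rfl fun i _ => ?_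
  rw [h.mul _ _ (bq_le hm hx hx' i) (bq_le hn hy hy i), bq_red h hm hx hx', bq_red h hn hy hy]

theorem fm_red (h : DW.Res π) (hm : ∀ i a b, ‖m i a b‖ ≤ 1) (hn : ∀ i a b, ‖n i a b‖ ≤ 1)
    {x y : Fin 3 → L} (hx : ∀ i, ‖x i‖ ≤ 1) (hy : ∀ i, ‖y i‖ ≤ 1) :
    π (fm m n x y) = fm (fun i a b => π (m i a b)) (fun i a b => π (n i a b))
      (fun j => π (x j)) (fun j => π (y j)) := pl_red h hm hn hy hx hx

/-- integral points with reduction `p` -/
structure Rd (π : L → k) (P : (Fin 3 → L) × (Fin 3 → L)) (p : (Fin 3 → k) × (Fin 3 → k)) :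
    Prop where
  h1 : ∀ i, ‖P.1 i‖ ≤ 1
  h2 : ∀ i, ‖P.2 i‖ ≤ 1
  e1 : ∀ i, π (P.1 i) = p.1 i
  e2 : ∀ i, π (P.2 i) = p.2 i

theorem norm_one_of (h : DW.Res π) {x : L} (hx : ‖x‖ ≤ 1) (h0 : π x ≠ 0) : ‖x‖ = 1 :=
  le_antisymm hx (not_lt.1 fun hl => h0 ((h.ker x hx).2 hl))

theorem red_div (h : DW.Res π) {x y : L} (hx : ‖x‖ ≤ 1) (hy : ‖y‖ ≤ 1) (h0 : π y ≠ 0) :
    ‖x / y‖ ≤ 1 ∧ π (x / y) = π x / π y := by
  have h1 := norm_one_of h hy h0
  have h2 : ‖x / y‖ ≤ 1 := by rw [norm_div, h1, div_one]; exact hx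
  refine ⟨h2, ?_⟩
  have hy0 : y ≠ 0 := by
    rintro rfl
    rw [norm_zero] at h1
    exact zero_ne_one h1
  rw [eq_div_iff h0, ← h.mul _ _ h2 hy, div_mul_cancel₀ _ hy0]

/-- the lift of a point of a conic -/
theorem liftX (h : DW.Res π) (h2 : (2 : k) ≠ 0) (hs : ∀ i a b, m i a b = m i b a)
    (hm : ∀ i a b, ‖m i a b‖ ≤ 1) (hn : ∀ i a b, ‖n i a b‖ ≤ 1) {x y : Fin 3 → L}
    (hx : ∀ i, ‖x i‖ ≤ 1) (hy : ∀ i, ‖y i‖ ≤ 1) (hF : fm m n x y = 0) (z : Fin 3 → k)
    (hz : fm (fun i a b => π (m i a b)) (fun i a b => π (n i a b)) z (fun j => π (y j)) = 0)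
    (hb : pl (fun i a b => π (m i a b)) (fun i a b => π (n i a b)) (fun j => π (y j))
      (fun j => π (x j)) z ≠ 0) :
    ∃ x' : Fin 3 → L, (∀ i, ‖x' i‖ ≤ 1) ∧ (∀ i, π (x' i) = z i) ∧ fm m n x' y = 0 ∧
      pl m n y x x' ≠ 0 := by
  choose u hu huz using fun i => h.surj (z i)
  have hzu : (fun j => π (u j)) = z := funext huz
  have e1 : π (pl m n y x u) ≠ 0 := by
    rw [pl_red h hm hn hy hx hu, hzu]
    exact hb
  have e2 : π (fm m n u y) = 0 := by
    rw [fm_red h hm hn hu hy, hzu]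
    exact hz
  have l1 := pl_le hm hn hy hx hu
  have l2 : ‖fm m n u y‖ ≤ 1 := pl_le hm hn hy hu hu
  have n1 : ‖pl m n y x u‖ = 1 := norm_one_of h l1 e1
  have h2L : ‖(2 : L)‖ = 1 := h.norm_two h2
  have hp0 : pl m n y x u ≠ 0 := by
    intro h0
    rw [h0, norm_zero] at n1
    exact zero_ne_one n1
  have h20 : (2 : L) ≠ 0 := by
    intro h0
    rw [h0, norm_zero] at h2L
    exact zero_ne_one h2L
  set c : L := -(2 * pl m n y x u) with hc
  have hcn : ‖c‖ = 1 := by rw [hc, norm_neg, norm_mul, h2L, n1, mul_one]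
  have hc0 : c ≠ 0 := by
    intro h0
    rw [h0, norm_zero] at hcn
    exact zero_ne_one hcn
  have key : ∀ i, (c⁻¹ • (fm m n u y • x + c • u)) i = fm m n u y * x i / c + u i := by
    intro i
    simp only [Pi.smul_apply, Pi.add_apply, smul_eq_mul]
    field_simp
  have hsm : ∀ i, ‖fm m n u y * x i / c‖ < 1 := by
    intro i
    rw [norm_div, hcn, div_one, norm_mul]
    have hlt : ‖fm m n u y‖ < 1 := (h.ker _ l2).1 e2
    calc ‖fm m n u y‖ * ‖x i‖ ≤ ‖fm m n u y‖ * 1 := by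
          exact mul_le_mul_of_nonneg_left (hx i) (norm_nonneg _)
      _ < 1 := by rw [mul_one]; exact hlt
  refine ⟨c⁻¹ • (fm m n u y • x + c • u), ?_, ?_, fm_ref hs hF u c⁻¹, ?_⟩
  · intro i
    rw [key i]
    exact (IsUltrametricDist.norm_add_le_max _ _).trans (max_le (hsm i).le (hu i))
  · intro i
    rw [key i, h.add _ _ (hsm i).le (hu i), (h.ker _ (hsm i).le).2 (hsm i), zero_add, huz i]
  · rw [pl_smul_right, pl_add_right, pl_smul_right, pl_smul_right, pl_self, hF, mul_zero, zero_add]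
    exact mul_ne_zero (inv_ne_zero hc0) (mul_ne_zero hc0 hp0)

theorem liftS (h : DW.Res π) (h2 : (2 : k) ≠ 0) (hs : ∀ i a b, m i a b = m i b a)
    (hs' : ∀ i a b, n i a b = n i b a) (hm : ∀ i a b, ‖m i a b‖ ≤ 1)
    (hn : ∀ i a b, ‖n i a b‖ ≤ 1) {t : Bool} {P : (Fin 3 → L) × (Fin 3 → L)}
    {p r : (Fin 3 → k) × (Fin 3 → k)} (hP : Rd π P p) (hF : fm m n P.1 P.2 = 0)
    (hr : fm (fun i a b => π (m i a b)) (fun i a b => π (n i a b)) r.1 r.2 = 0)
    (hst : St (fun i a b => π (m i a b)) (fun i a b => π (n i a b)) t p r) :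
    ∃ R : (Fin 3 → L) × (Fin 3 → L), Rd π R r ∧ fm m n R.1 R.2 = 0 ∧ St m n t P R := by
  have e1 : (fun i => π (P.1 i)) = p.1 := funext hP.e1
  have e2 : (fun i => π (P.2 i)) = p.2 := funext hP.e2
  cases t
  · simp only [St, Bool.false_eq_true, ↓reduceIte] at hst
    obtain ⟨y', h3, h4, h5, h6⟩ := liftX h h2 hs' hn hm hP.h2 hP.h1
      (by rw [fm_swap]; exact hF) r.2 (by rw [fm_swap, e1, hst.1]; exact hr)
      (by rw [e1, e2]; exact hst.2)
    refine ⟨(P.1, y'), ⟨hP.h1, h3, fun i => by rw [← hst.1]; exact hP.e1 i, h4⟩,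
      by rw [fm_swap] at h5; exact h5, ?_⟩
    simp only [St, Bool.false_eq_true, ↓reduceIte]
    exact ⟨trivial, h6⟩
  · simp only [St, ↓reduceIte] at hst
    obtain ⟨x', h3, h4, h5, h6⟩ := liftX h h2 hs hm hn hP.h1 hP.h2 hF r.1
      (by rw [e2, hst.1]; exact hr) (by rw [e1, e2]; exact hst.2)
    refine ⟨(x', P.2), ⟨h3, hP.h2, h4, fun i => by rw [← hst.1]; exact hP.e2 i⟩, h5, ?_⟩
    simp only [St, ↓reduceIte]
    exact ⟨trivial, h6⟩

/-- chains over the residue field lift -/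
theorem liftW (h : DW.Res π) (h2 : (2 : k) ≠ 0) (hs : ∀ i a b, m i a b = m i b a)
    (hs' : ∀ i a b, n i a b = n i b a) (hm : ∀ i a b, ‖m i a b‖ ≤ 1)
    (hn : ∀ i a b, ‖n i a b‖ ≤ 1) {w : List Bool} {P : (Fin 3 → L) × (Fin 3 → L)}
    {p r : (Fin 3 → k) × (Fin 3 → k)} (hP : Rd π P p) (hF : fm m n P.1 P.2 = 0)
    (hw : Wd (fun i a b => π (m i a b)) (fun i a b => π (n i a b)) w p r) :
    ∃ R : (Fin 3 → L) × (Fin 3 → L), Rd π R r ∧ fm m n R.1 R.2 = 0 ∧ Wd m n w P R := by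
  induction w generalizing P p with
  | nil =>
    change p = r at hw
    exact ⟨P, hw ▸ hP, hF, rfl⟩
  | cons t w ih =>
    obtain ⟨s, hs1, hst, hw'⟩ := hw
    obtain ⟨S, h3, h4, h5⟩ := liftS h h2 hs hs' hm hn hP hF hs1 hst
    obtain ⟨R, h6, h7, h8⟩ := ih h3 h4 hw'
    exact ⟨R, h6, h7, S, h4, h5, h8⟩

end red

end Pool.Agent.T6.H77.RK
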