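import Pool.Agent.T6.H77.RK.Defs

/-!
# Hypersurfaces of bidegree (2, 2) of rank three: statements of the modules (helper77)
-/

set_option autoImplicit false

namespace Pool.Agent.T6.H77.RK

/-- ZJ: zeros of the Jacobian determinant -/
def StmZJ : Prop := ∀ (k : Type) [Field k] [Fintype k] (m : Fin 3 → Fin 3 → Fin 3 → k),
  (∃ x, (jm m x).det ≠ 0) → {x | (jm m x).det = 0}.ncard ≤ 3 * Fintype.card k ^ 2

/-- ZD: zeros of the discriminant -/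
def StmZD : Prop := ∀ (k : Type) [Field k] [Fintype k] (m n : Fin 3 → Fin 3 → Fin 3 → k),
  (∃ y, (dm m n y).det ≠ 0) → {y | (dm m n y).det = 0}.ncard ≤ 6 * Fintype.card k ^ 2

/-- CO: points on a conic outside the tangent line at one of them -/
def StmCO : Prop := ∀ (k : Type) [Field k] [Fintype k] (m n : Fin 3 → Fin 3 → Fin 3 → k),
  (2 : k) ≠ 0 → (∀ i a b, m i a b = m i b a) → ∀ x y : Fin 3 → k, fm m n x y = 0 →
  (∃ x', pl m n y x x' ≠ 0) →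
  Fintype.card k ^ 2 ≤ {x' | fm m n x' y = 0 ∧ pl m n y x x' ≠ 0}.ncard + Fintype.card k

/-- BAD: for fixed `y` there are few `x` with `F(x, ·)` singular at `y` -/
def StmBAD : Prop := ∀ (k : Type) [Field k] [Fintype k] (m n : Fin 3 → Fin 3 → Fin 3 → k),
  Gq m → Gq n → ∀ y : Fin 3 → k, y ≠ 0 →
  {x | ∀ y', pl n m x y y' = 0}.ncard ≤ 8 * Fintype.card k

/-- GX: growth in three moves -/
def StmGX : Prop := ∃ q₀ : ℕ, ∀ (k : Type) [Field k] [Fintype k]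
  (m n : Fin 3 → Fin 3 → Fin 3 → k), q₀ ≤ Fintype.card k → (2 : k) ≠ 0 → Gq m → Gq n →
  ∀ x y : Fin 3 → k, fm m n x y = 0 → (∃ x', pl m n y x x' ≠ 0) →
  Fintype.card k ^ 3 ≤ 256 * {x₂ | ∃ x₁ y₁ : Fin 3 → k, fm m n x₁ y = 0 ∧ pl m n y x x₁ ≠ 0 ∧
    fm m n x₁ y₁ = 0 ∧ pl n m x₁ y y₁ ≠ 0 ∧ fm m n x₂ y₁ = 0 ∧ pl m n y₁ x₁ x₂ ≠ 0}.ncard

/-- MIX: mixing -/
def StmMIX : Prop := ∀ C : ℕ, ∃ q₀ : ℕ, ∀ (k : Type) [Field k] [Fintype k]
  (m n : Fin 3 → Fin 3 → Fin 3 → k), q₀ ≤ Fintype.card k → Gq m → Gq n →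
  ∀ A B : Set (Fin 3 → k), Fintype.card k ^ 3 ≤ C * A.ncard → Fintype.card k ^ 3 ≤ C * B.ncard →
  ∃ x ∈ A, ∃ y ∈ B, fm m n x y = 0

/-- TW: two points of a smooth conic are joined by exactly two moves -/
def StmTW : Prop := ∀ (k : Type) [Field k] (m n : Fin 3 → Fin 3 → Fin 3 → k), (2 : k) ≠ 0 →
  (∀ i a b, m i a b = m i b a) → ∀ y : Fin 3 → k, (dm m n y).det ≠ 0 → ∀ x z : Fin 3 → k,
  x ≠ 0 → z ≠ 0 → fm m n x y = 0 → fm m n z y = 0 →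
  ∃ u, fm m n u y = 0 ∧ pl m n y x u ≠ 0 ∧ pl m n y z u ≠ 0

/-- FQ: connectivity over large finite fields -/
def StmFQ : Prop := ∃ q₀ : ℕ, ∀ (k : Type) [Field k] [Fintype k]
  (m n : Fin 3 → Fin 3 → Fin 3 → k), q₀ ≤ Fintype.card k → Gd m n →
  ∀ x y x' y' : Fin 3 → k, fm m n x y = 0 → (∃ z, pl n m x y z ≠ 0) →
  fm m n x' y' = 0 → (∃ z, pl n m x' y' z ≠ 0) →
  ∃ z w : Fin 3 → k, fm m n z w = 0 ∧ (dm m n w).det ≠ 0 ∧ (dm n m z).det ≠ 0 ∧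
    (jm n w).det ≠ 0 ∧ Wd m n [false, true, false, true, true] (x, y) (z, w) ∧
    Wd m n [false, true, false, true, false, false] (x', y') (z, w)

/-- HEN: Hensel's lemma for three quadratic equations -/
def StmHEN : Prop := ∀ (L : Type) [NontriviallyNormedField L] [IsUltrametricDist L]
  [CompleteSpace L] (m : Fin 3 → Fin 3 → Fin 3 → L), ‖(2 : L)‖ = 1 →
  (∀ i a b, m i a b = m i b a) → (∀ i a b, ‖m i a b‖ ≤ 1) → ∀ y c : Fin 3 → L,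
  (∀ i, ‖y i‖ ≤ 1) → ‖(jm m y).det‖ = 1 → (∀ i, ‖bq m y y i - c i‖ < 1) →
  ∃ y' : Fin 3 → L, (∀ i, ‖y' i - y i‖ < 1) ∧ ∀ i, bq m y' y' i = c i

/-- LC: points with the same general reduction are joined by moves -/
def StmLC : Prop := ∃ q₀ : ℕ, ∀ (L k : Type) [NontriviallyNormedField L] [IsUltrametricDist L]
  [CompleteSpace L] [Field k] [Fintype k] (π : L → k), DW.Res π → q₀ ≤ Fintype.card k →
  ∀ m n : Fin 3 → Fin 3 → Fin 3 → L, (∀ i a b, m i a b = m i b a) →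
  (∀ i a b, n i a b = n i b a) → (∀ i a b, ‖m i a b‖ ≤ 1) → (∀ i a b, ‖n i a b‖ ≤ 1) →
  Gd (fun i a b => π (m i a b)) (fun i a b => π (n i a b)) → ∀ x y x' y' : Fin 3 → L,
  (∀ i, ‖x i‖ ≤ 1) → (∀ i, ‖y i‖ ≤ 1) → (∀ i, ‖x' i‖ ≤ 1) → (∀ i, ‖y' i‖ ≤ 1) →
  (∃ i, π (x i) ≠ 0) → (∀ i, π (x i) = π (x' i)) → (∀ i, π (y i) = π (y' i)) →
  fm m n x y = 0 → fm m n x' y' = 0 →
  (dm (fun i a b => π (m i a b)) (fun i a b => π (n i a b)) (fun i => π (y i))).det ≠ 0 →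
  (jm (fun i a b => π (n i a b)) (fun i => π (y i))).det ≠ 0 →
  Wd m n [true, false, false, true, false, false] (x, y) (x', y')

/-- NS: a small move away from a point whose reduction is the vertex of the conic -/
def StmNS : Prop := ∀ (L k : Type) [NontriviallyNormedField L] [IsUltrametricDist L]
  [CompleteSpace L] [Field k] (π : L → k), DW.Res π → (2 : k) ≠ 0 →
  ∀ m n : Fin 3 → Fin 3 → Fin 3 → L, (∀ i a b, m i a b = m i b a) →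
  (∀ i a b, ‖m i a b‖ ≤ 1) → (∀ i a b, ‖n i a b‖ ≤ 1) → ∀ x y : Fin 3 → L,
  (∀ i, ‖x i‖ ≤ 1) → (∀ i, ‖y i‖ ≤ 1) → fm m n x y = 0 → (∃ x', pl m n y x x' ≠ 0) →
  (∀ z, pl (fun i a b => π (m i a b)) (fun i a b => π (n i a b)) (fun i => π (y i))
    (fun i => π (x i)) z = 0) →
  (∃ z, fm (fun i a b => π (m i a b)) (fun i a b => π (n i a b)) z (fun i => π (y i)) ≠ 0) →
  ∃ x' : Fin 3 → L, (∀ i, ‖x' i‖ ≤ 1) ∧ (∀ i, π (x' i) = π (x i)) ∧ fm m n x' y = 0 ∧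
    pl m n y x x' ≠ 0

/-- LOC: connectivity over local fields with large residue fields -/
def StmLOC : Prop := ∃ (q₀ : ℕ) (w : List Bool), ∀ (L k : Type) [NontriviallyNormedField L]
  [IsUltrametricDist L] [CompleteSpace L] [Field k] [Fintype k] (π : L → k), DW.Res π →
  q₀ ≤ Fintype.card k → ∀ m n : Fin 3 → Fin 3 → Fin 3 → L, (∀ i a b, m i a b = m i b a) →
  (∀ i a b, n i a b = n i b a) → (∀ i a b, ‖m i a b‖ ≤ 1) → (∀ i a b, ‖n i a b‖ ≤ 1) →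
  Gd (fun i a b => π (m i a b)) (fun i a b => π (n i a b)) →
  ∀ p q : (Fin 3 → L) × (Fin 3 → L), fm m n p.1 p.2 = 0 → (∃ x', pl m n p.2 p.1 x' ≠ 0) →
  fm m n q.1 q.2 = 0 → (∃ x', pl m n q.2 q.1 x' ≠ 0) → Wd m n w p q

/-- DEN: a point which is smooth on the conic `F(x, ·) = 0` is a limit of points which are smooth on
the conics `F(·, y) = 0` -/
def StmDEN : Prop := ∀ (L : Type) [NontriviallyNormedField L] [IsUltrametricDist L]
  [CompleteSpace L] (m n : Fin 3 → Fin 3 → Fin 3 → L), ‖(2 : L)‖ = 1 →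
  (∀ i a b, n i a b = n i b a) → (∃ x, (jm m x).det ≠ 0) →
  (∀ y : Fin 3 → L, (∀ i, bq n y y i = 0) → y = 0) → ∀ x y : Fin 3 → L, fm m n x y = 0 →
  (∃ y', pl n m x y y' ≠ 0) → ∀ ε : ℝ, 0 < ε → ∃ x' y' : Fin 3 → L, fm m n x' y' = 0 ∧
    (∃ z, pl m n y' x' z ≠ 0) ∧ ∀ i, ‖x' i - x i‖ < ε ∧ ‖y' i - y i‖ < ε

/-- CLO: the closure of the rational points is stable under moves at the places of `G` -/
def StmCLO : Prop := ∀ (K ι : Type) [Field K] (L : ι → Type) [∀ v, NontriviallyNormedField (L v)]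
  (σ : ∀ v, K →+* L v), (DenseRange fun (b : K) (v : ι) => σ v b) →
  ∀ m n : Fin 3 → Fin 3 → Fin 3 → K, (2 : K) ≠ 0 → (∀ i a b, m i a b = m i b a) →
  (∀ i a b, n i a b = n i b a) → ∀ (w : List Bool) (G : Set ι)
  (P Q : ∀ v, (Fin 3 → L v) × (Fin 3 → L v)),
  (∀ v ∈ G, fm (fun i a b => σ v (m i a b)) (fun i a b => σ v (n i a b)) (P v).1 (P v).2 = 0 ∧
    Wd (fun i a b => σ v (m i a b)) (fun i a b => σ v (n i a b)) w (P v) (Q v)) →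
  (∀ v ∉ G, P v = Q v ∧ (P v).1 ≠ 0 ∧ (P v).2 ≠ 0 ∧
    fm (fun i a b => σ v (m i a b)) (fun i a b => σ v (n i a b)) (P v).1 (P v).2 = 0 ∧
    (dm (fun i a b => σ v (m i a b)) (fun i a b => σ v (n i a b)) (P v).2).det ≠ 0 ∧
    (dm (fun i a b => σ v (n i a b)) (fun i a b => σ v (m i a b)) (P v).1).det ≠ 0) →
  P ∈ closure {S : ∀ v, (Fin 3 → L v) × (Fin 3 → L v) | ∃ x y : Fin 3 → K, fm m n x y = 0 ∧
    S = fun v => (fun i => σ v (x i), fun i => σ v (y i))} →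
  Q ∈ closure {S : ∀ v, (Fin 3 → L v) × (Fin 3 → L v) | ∃ x y : Fin 3 → K, fm m n x y = 0 ∧
    S = fun v => (fun i => σ v (x i), fun i => σ v (y i))}

end Pool.Agent.T6.H77.RK
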